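import Pool.Agent.N992.FourDefs

/-!
Spectra of the even part of the Weil representation for primes congruent to 1 modulo 4, and the
identity at level 165.
-/

namespace Pool.Agent.N992

open Finset Pool.Agent.H916R2 Pool.Agent.Y2.Cv Pool.Agent.Y2.Cw

section one

open Matrix MatrixGroups

variable {p : ℕ} [Fact p.Prime] {m : ℕ} [NeZero m]

lemma two_ne_zero_of_ne_two (hp2 : p ≠ 2) : (2 : ZMod p) ≠ 0 := by
  have h : ((2 : ℕ) : ZMod p) ≠ 0 := by
    intro h
    rw [ZMod.natCast_eq_zero_iff] at h
    have h1 := Nat.le_of_dvd (by norm_num) h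
    have h2 := (Fact.out : p.Prime).two_le
    omega
  exact_mod_cast h

lemma spec_part' (hp2 : p ≠ 2) (j : ZMod p →+ ZMod m) (hj : Function.Injective j)
    {K : Finset (ZMod p)} {σ : ℂ} (hK : Trans K σ) :
    Spec m (qc (-1 : ZMod p) * σ) (K.val.map (fun x => j (x ^ 2))) := by
  have h2 := two_ne_zero_of_ne_two hp2
  have hψ := prim_of_inj j hj
  refine ⟨p, {x // x ∈ K}, inferInstance, inferInstance, weilPart _ hp2 hψ h2 hK,
    fun x => j ((x : ZMod p) ^ 2), (Fact.out : p.Prime).ne_zero, ?_, ?_, ?_, ?_⟩
  · intro g hg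
    rw [weilPart_apply, weil_gamma _ hp2 hψ g hg, Matrix.mul_one, PP_mul_PI h2 hK]
  · rw [weilPart_apply, weil_neg_one, PP_flip_PI h2 hK]
  · rw [weilPart_apply, weil_T, PP_diag_PI h2 hK]
    · rfl
    · intro x
      rw [neg_sq]
  · rw [Finset.univ_eq_attach]
    conv_lhs => rw [← Finset.attach_map_val (s := K)]
    rw [Finset.map_val, Multiset.map_map]
    rfl

/-- the residues with representative at most `p / 2` -/
def KH (p : ℕ) [Fact p.Prime] : Finset (ZMod p) := univ.filter (fun x => x.val ≤ p / 2)

lemma trans_KH (hp2 : p ≠ 2) : Trans (KH p) (1 : ℂ) where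
  inter := fun h h1 h2 => by
    refine ⟨?_, rfl⟩
    by_contra h0
    have hp := (Fact.out : p.Prime)
    have hodd : p % 2 = 1 := Nat.odd_iff.mp (hp.odd_of_ne_two hp2)
    unfold KH at h1 h2
    rw [Finset.mem_filter] at h1 h2
    have hneg : (-h).val = p - h.val := by
      rw [ZMod.neg_val, if_neg h0]
    have h3 := h2.2
    rw [hneg] at h3
    have h4 := ZMod.val_lt h
    have h5 : 0 < h.val := Nat.pos_of_ne_zero (fun h' => h0 ((ZMod.val_eq_zero h).mp h'))
    have h6 := h1.2
    omega
  cover := fun x => by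
    have hp := (Fact.out : p.Prime)
    have hodd : p % 2 = 1 := Nat.odd_iff.mp (hp.odd_of_ne_two hp2)
    unfold KH
    by_cases h : x.val ≤ p / 2
    · left; exact Finset.mem_filter.mpr ⟨mem_univ _, h⟩
    · right; left
      refine Finset.mem_filter.mpr ⟨mem_univ _, ?_⟩
      have hx : x ≠ 0 := by rintro rfl; simp at h
      rw [ZMod.neg_val, if_neg hx]
      omega
  sq := by norm_num

lemma sq_map_KH (hp2 : p ≠ 2) : (KH p).val.map (fun x => x ^ 2) = (insert 0 (Hf p)).val := by
  classical
  have hK := trans_KH hp2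
  have hinj : Set.InjOn (fun x : ZMod p => x ^ 2) (KH p : Set (ZMod p)) := by
    intro x hx y hy hxy
    rcases sq_eq_sq_iff_eq_or_eq_neg.mp hxy with h | h
    · exact h
    · have h1 : -y ∈ KH p := by rw [← h]; exact hx
      have h2 := (hK.inter y hy h1).1
      rw [h, h2, neg_zero]
  rw [← Finset.image_val_of_injOn hinj]
  congr 1
  ext y
  rw [Finset.mem_image, Finset.mem_insert, mem_Hf_prime]
  constructor
  · rintro ⟨x, _, rfl⟩
    by_cases hx : x = 0
    · left; rw [hx]; ring
    · right; exact ⟨pow_ne_zero 2 hx, IsSquare.sq x⟩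
  · rintro (rfl | ⟨hy, r, hr⟩)
    · refine ⟨0, ?_, by ring⟩
      unfold KH
      simp
    · rcases hK.cover r with h | h | ⟨_, h⟩
      · exact ⟨r, h, by rw [hr]; ring⟩
      · exact ⟨-r, h, by rw [hr]; ring⟩
      · exfalso
        norm_num at h

/-- F4-A1 -/
lemma spec_one_mod_four {p : ℕ} [Fact p.Prime] (hp : p % 4 = 1) {m : ℕ} [NeZero m]
    (j : ZMod p →+ ZMod m) (hj : Function.Injective j) :
    Spec m 1 ((insert 0 (Hf p)).val.map j) := by
  have hp2 : p ≠ 2 := by omega
  have h := spec_part' hp2 j hj (trans_KH hp2)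
  have hq : qc (-1 : ZMod p) = 1 := by
    unfold qc
    have hsq : IsSquare (-1 : ZMod p) := by
      rw [ZMod.exists_sq_eq_neg_one_iff]
      omega
    have hne : (-1 : ZMod p) ≠ 0 := neg_ne_zero.mpr one_ne_zero
    rw [(quadraticChar_one_iff_isSquare hne).mpr hsq]
    norm_num
  rw [hq, one_mul] at h
  have e : (KH p).val.map (fun x => j (x ^ 2)) = ((KH p).val.map (fun x => x ^ 2)).map j := by
    rw [Multiset.map_map]; rfl
  rwa [e, sq_map_KH hp2] at h

end one

/-! ### The identity at level 165 -/

section level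

variable {R : Type*} [AddCommGroup R]

/-- the sum over the nonzero squares of the component at 11 -/
def YY (g : ZMod 165 → R) (x : ZMod 165) : R :=
  g (x + 45) + g (x + 135) + g (x + 15) + g (x + 60) + g (x + 75)

/-- the sum over the nonsquares of the component at 11 -/
def YN (g : ZMod 165 → R) (x : ZMod 165) : R :=
  g (x + 90) + g (x + 105) + g (x + 150) + g (x + 30) + g (x + 120)

lemma z165 : (165 : ZMod 165) = 0 := by decide

lemma dist11 {g : ZMod 165 → R} (hg : OddDist g) (x : ZMod 165) :
    g x + YY g x + YN g x = g (11 * x) := by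
  have h := hg.dist 11 15 (by norm_num) rfl x
  simp only [Finset.sum_range_succ, Finset.sum_range_zero] at h
  push_cast at h
  norm_num at h
  rw [← h]
  unfold YY YN
  abel

lemma dist3 {g : ZMod 165 → R} (hg : OddDist g) (x : ZMod 165) :
    g x + g (x + 55) + g (x + 110) = g (3 * x) := by
  have h := hg.dist 3 55 (by norm_num) rfl x
  simp only [Finset.sum_range_succ, Finset.sum_range_zero] at h
  push_cast at h
  norm_num at h
  rw [← h]

lemma dist5 {g : ZMod 165 → R} (hg : OddDist g) (x : ZMod 165) :
    g x + g (x + 33) + g (x + 66) + g (x + 99) + g (x + 132) = g (5 * x) := by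
  have h := hg.dist 5 33 (by norm_num) rfl x
  simp only [Finset.sum_range_succ, Finset.sum_range_zero] at h
  push_cast at h
  norm_num at h
  rw [← h]

lemma YY_neg {g : ZMod 165 → R} (hg : OddDist g) (x : ZMod 165) : YY g (-x) = - YN g x := by
  have key : ∀ k l : ZMod 165, k + l = 165 → g (-x + k) = - g (x + l) := by
    intro k l h
    rw [← hg.neg]
    congr 1
    linear_combination h + z165
  unfold YY YN
  rw [key 45 120 (by norm_num), key 135 30 (by norm_num), key 15 150 (by norm_num),
    key 60 105 (by norm_num), key 75 90 (by norm_num)]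
  abel

/-- elements with component zero at 3 and 11 -/
lemma YN_eq {g : ZMod 165 → R} (hg : OddDist g) {x : ZMod 165} (hx : 10 * x = 0) :
    YN g x = - YY g x := by
  have h := dist11 hg x
  have e : 11 * x = x := by linear_combination hx
  rw [e] at h
  have h2 : YY g x + YN g x = 0 := by
    have : g x + (YY g x + YN g x) = g x + 0 := by rw [← add_assoc, h, add_zero]
    exact add_left_cancel this
  exact (neg_eq_of_add_eq_zero_right h2).symm

lemma YY_symm {g : ZMod 165 → R} (hg : OddDist g) {x : ZMod 165} (hx : 10 * x = 0) :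
    YY g (-x) = YY g x := by
  rw [YY_neg hg, YN_eq hg hx, neg_neg]

lemma dist3Y {g : ZMod 165 → R} (hg : OddDist g) (x : ZMod 165) :
    YY g x + YY g (55 + x) + YY g (110 + x) = YY g (3 * x) := by
  have e : ∀ k l : ZMod 165, 3 * k = l → g (x + k) + g (55 + x + k) + g (110 + x + k) =
      g (3 * x + l) := by
    intro k l h
    have h1 := dist3 hg (x + k)
    rw [show 55 + x + k = x + k + 55 by ring, show 110 + x + k = x + k + 110 by ring, h1]
    congr 1
    linear_combination h
  have e1 := e 45 135 (by norm_num)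
  have e2 := e 135 75 (by decide)
  have e3 := e 15 45 (by norm_num)
  have e4 := e 60 15 (by decide)
  have e5 := e 75 60 (by decide)
  unfold YY
  rw [← e1, ← e2, ← e3, ← e4, ← e5]
  abel

lemma ident_aux {g : ZMod 165 → R} (hg : OddDist g) {x : ZMod 165} (hx : 10 * x = 0) :
    YY g (55 + x) + YY g (55 - x) = YY g (3 * x) - YY g x - g (55 + x) - g (55 - x) := by
  -- relation for 11 at 110 - x
  have h1 := dist11 hg (110 - x)
  have h2 : YN g (110 - x) = - YY g (55 + x) := by
    rw [← neg_eq_iff_eq_neg, ← YY_neg hg]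
    congr 1
    linear_combination -z165
  have h3 : g (110 - x) = - g (55 + x) := by
    rw [← hg.neg]; congr 1; linear_combination z165
  have h4 : g (11 * (110 - x)) = g (55 - x) := by
    congr 1
    linear_combination 7 * z165 - hx
  rw [h2, h3, h4] at h1
  -- relation for 3 at -x
  have h5 := dist3Y hg (-x)
  have hx3 : 10 * (3 * x) = 0 := by linear_combination 3 * hx
  rw [YY_symm hg hx, show 3 * -x = -(3 * x) by ring, YY_symm hg hx3,
    show 55 + -x = 55 - x by ring, show 110 + -x = 110 - x by ring] at h5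
  -- combine
  rw [← h5]
  have h6 : YY g (110 - x) = g (55 - x) + g (55 + x) + YY g (55 + x) := by
    rw [← h1]; abel
  rw [h6]
  abel

/-- the identity -/
lemma ident165 {g : ZMod 165 → R} (hg : OddDist g) :
    YY g 66 + YY g 132 = (YY g (55 + 66) + YY g (55 - 66)) + (g (55 + 66) + g (55 - 66)) +
      (YY g 66 + YY g (-66)) := by
  have h1 := ident_aux hg (x := 66) (by decide)
  have h2 : YY g (3 * 66) = YY g 132 := by
    rw [← YY_symm hg (x := 132) (by decide)]
    congr 1
  have h3 : YY g (-66) = YY g 66 := YY_symm hg (by decide)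
  rw [h1, h2, h3]
  abel

lemma twice_zero {g : ZMod 165 → R} (hg : OddDist g) :
    (YY g 66 + YY g 132) + (YY g 66 + YY g 132) = 0 := by
  have e : ∀ k l : ZMod 165, 5 * k = l → g (0 + k) + g (33 + k) + g (66 + k) + g (99 + k) +
      g (132 + k) = g (0 + l) := by
    intro k l h
    have h1 := dist5 hg (0 + k)
    rw [show 33 + k = 0 + k + 33 by ring, show 66 + k = 0 + k + 66 by ring,
      show 99 + k = 0 + k + 99 by ring, show 132 + k = 0 + k + 132 by ring, h1]
    congr 1
    linear_combination h
  have e1 := e 45 60 (by decide)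
  have e2 := e 135 15 (by decide)
  have e3 := e 15 75 (by decide)
  have e4 := e 60 135 (by decide)
  have e5 := e 75 45 (by decide)
  have h0 : YY g 0 + YY g 33 + YY g 66 + YY g 99 + YY g 132 = YY g 0 := by
    calc YY g 0 + YY g 33 + YY g 66 + YY g 99 + YY g 132 =
        (g (0 + 45) + g (33 + 45) + g (66 + 45) + g (99 + 45) + g (132 + 45)) +
        (g (0 + 135) + g (33 + 135) + g (66 + 135) + g (99 + 135) + g (132 + 135)) +
        (g (0 + 15) + g (33 + 15) + g (66 + 15) + g (99 + 15) + g (132 + 15)) +
        (g (0 + 60) + g (33 + 60) + g (66 + 60) + g (99 + 60) + g (132 + 60)) +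
        (g (0 + 75) + g (33 + 75) + g (66 + 75) + g (99 + 75) + g (132 + 75)) := by
          unfold YY; abel
      _ = YY g 0 := by rw [e1, e2, e3, e4, e5]; unfold YY; abel
  have h3 : YY g 33 = YY g 132 := by
    rw [← YY_symm hg (x := 132) (by decide)]
    congr 1
  have h4 : YY g 99 = YY g 66 := by
    rw [← YY_symm hg (x := 66) (by decide)]
    congr 1
  rw [h3, h4] at h0
  have h5 : YY g 0 + ((YY g 66 + YY g 132) + (YY g 66 + YY g 132)) = YY g 0 + 0 := by
    rw [add_zero]
    calc YY g 0 + ((YY g 66 + YY g 132) + (YY g 66 + YY g 132)) =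
        YY g 0 + YY g 132 + YY g 66 + YY g 66 + YY g 132 := by abel
      _ = YY g 0 := h0
  exact add_left_cancel h5

end level

/-! ### Modular spectra of level 165 -/

/-- the inclusion of the component at 3 -/
def j3 : ZMod 3 →+ ZMod 165 where
  toFun a := ((55 * a.val : ℕ) : ZMod 165)
  map_zero' := by decide
  map_add' := by decide

/-- the inclusion of the component at 11 -/
def j11 : ZMod 11 →+ ZMod 165 where
  toFun a := ((45 * a.val : ℕ) : ZMod 165)
  map_zero' := by decide
  map_add' := by decide

/-- the inclusion of the component at 5 -/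
def j5 : ZMod 5 →+ ZMod 165 where
  toFun a := ((66 * a.val : ℕ) : ZMod 165)
  map_zero' := by decide
  map_add' := by decide

local instance fact3 : Fact (Nat.Prime 3) := ⟨by norm_num⟩
local instance fact5 : Fact (Nat.Prime 5) := ⟨by norm_num⟩
local instance fact11 : Fact (Nat.Prime 11) := ⟨by norm_num⟩

lemma spec3 : Spec 165 1 ({55} : Multiset (ZMod 165)) := by
  have h := spec_odd (p := 3) (by norm_num) j3 (by decide)
  have e : Hf 3 = {1} := by
    ext a
    rw [mem_Hf_prime]
    revert a
    decide
  rw [e] at h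
  exact h

lemma spec11 : Spec 165 1 ({45, 135, 15, 60, 75} : Multiset (ZMod 165)) := by
  have h := spec_odd (p := 11) (by norm_num) j11 (by decide)
  have e : Hf 11 = {1, 3, 4, 5, 9} := by
    ext a
    rw [mem_Hf_prime]
    revert a
    decide
  rw [e] at h
  have e2 : (({1, 3, 4, 5, 9} : Finset (ZMod 11)).val.map j11) =
    ({45, 135, 15, 60, 75} : Multiset (ZMod 165)) := by decide
  rwa [e2] at h

lemma spec5 : Spec 165 1 ({0, 66, -66} : Multiset (ZMod 165)) := by
  have h := spec_one_mod_four (p := 5) (by norm_num) j5 (by decide)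
  have e : insert 0 (Hf 5) = {0, 1, 4} := by
    ext a
    rw [Finset.mem_insert, mem_Hf_prime]
    revert a
    decide
  rw [e] at h
  have e2 : (({0, 1, 4} : Finset (ZMod 5)).val.map j5) =
    ({0, 66, -66} : Multiset (ZMod 165)) := by decide
  rwa [e2] at h

/-- the nonzero squares at 11 -/
def S11 : Multiset (ZMod 165) := {45, 135, 15, 60, 75}

lemma sum_S11 {R : Type*} [AddCommGroup R] (g : ZMod 165 → R) (x : ZMod 165) :
    (S11.map (fun b => g (x + b))).sum = YY g x := by
  unfold S11 YY
  simp only [Multiset.insert_eq_cons, Multiset.map_cons, Multiset.map_singleton,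
    Multiset.sum_cons, Multiset.sum_singleton]
  abel

/-- `P1`, `P2`, `P3` and the parts to be removed -/
def P1 : Multiset (ZMod 165) :=
  (S11.map (fun b => 55 + b)) + (S11.map (fun b => (55 + 66) + b)) +
    (S11.map (fun b => (55 - 66) + b))

def P2 : Multiset (ZMod 165) :=
  (S11.map (fun b => 0 + b)) + (S11.map (fun b => 66 + b)) + (S11.map (fun b => (-66) + b))

def P3 : Multiset (ZMod 165) := {55, 55 + 66, 55 - 66}

def P4 : Multiset (ZMod 165) := S11.map (fun b => 55 + b)

def P5 : Multiset (ZMod 165) := {55}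

def P6 : Multiset (ZMod 165) := S11.map (fun b => 0 + b)

lemma modu_of_spec {s : Multiset (ZMod 165)} (h : Spec 165 1 s) (h0 : (0 : ZMod 165) ∉ s) :
    Modu 165 s := by
  have h1 := Modu.single h.modular
  rwa [Multiset.filter_eq_self.mpr] at h1
  intro a ha h2
  exact h0 (h2 ▸ ha)

lemma modu_P1 : Modu 165 P1 := by
  apply modu_of_spec
  · have h := (spec3.tensor spec11).tensor spec5
    rw [one_mul, one_mul] at h
    have e : (((({55} : Multiset (ZMod 165)) ×ˢ ({45, 135, 15, 60, 75} : Multiset (ZMod 165))).map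
        (fun p => p.1 + p.2)) ×ˢ ({0, 66, -66} : Multiset (ZMod 165))).map (fun p => p.1 + p.2) =
        P1 := by decide +kernel
    rwa [e] at h
  · decide

lemma modu_P2 : Modu 165 P2 := by
  apply modu_of_spec
  · have h := spec11.tensor spec5
    rw [one_mul] at h
    have e : ((({45, 135, 15, 60, 75} : Multiset (ZMod 165))) ×ˢ
        ({0, 66, -66} : Multiset (ZMod 165))).map (fun p => p.1 + p.2) = P2 := by decide +kernel
    rwa [e] at h
  · decide

lemma modu_P3 : Modu 165 P3 := by
  apply modu_of_spec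
  · have h := spec3.tensor spec5
    rw [one_mul] at h
    have e : ((({55} : Multiset (ZMod 165))) ×ˢ
        ({0, 66, -66} : Multiset (ZMod 165))).map (fun p => p.1 + p.2) = P3 := by decide +kernel
    rwa [e] at h
  · decide

lemma modu_P4 : Modu 165 P4 := by
  apply modu_of_spec
  · have h := spec3.tensor spec11
    rw [one_mul] at h
    have e : ((({55} : Multiset (ZMod 165))) ×ˢ
        ({45, 135, 15, 60, 75} : Multiset (ZMod 165))).map (fun p => p.1 + p.2) = P4 := by
      decide +kernel
    rwa [e] at h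
  · decide

lemma modu_P5 : Modu 165 P5 := modu_of_spec spec3 (by decide)

lemma modu_P6 : Modu 165 P6 := by
  apply modu_of_spec
  · have e : ({45, 135, 15, 60, 75} : Multiset (ZMod 165)) = P6 := by decide +kernel
    rw [← e]
    exact spec11
  · decide

/-- the balanced union -/
def SS : Multiset (ZMod 165) :=
  P1 + P2 + P3 + P4.map Neg.neg + P5.map Neg.neg + P6.map Neg.neg

lemma modu_SS : Modu 165 SS :=
  ((((modu_P1.add modu_P2).add modu_P3).add modu_P4.neg).add modu_P5.neg).add modu_P6.neg

lemma sum_SS {R : Type*} [AddCommGroup R] {g : ZMod 165 → R} (hg : OddDist g) :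
    (SS.map g).sum = YY g 66 + YY g 132 := by
  have hn : ∀ s : Multiset (ZMod 165), ((s.map Neg.neg).map g).sum = - (s.map g).sum := by
    intro s
    rw [Multiset.map_map, ← Multiset.sum_map_neg', Multiset.map_map]
    exact congrArg Multiset.sum (Multiset.map_congr rfl fun a _ => hg.neg a)
  have h1 : (P1.map g).sum = YY g 55 + YY g (55 + 66) + YY g (55 - 66) := by
    unfold P1
    rw [Multiset.map_add, Multiset.map_add, Multiset.sum_add, Multiset.sum_add, Multiset.map_map,
      Multiset.map_map, Multiset.map_map, ← sum_S11, ← sum_S11, ← sum_S11]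
    rfl
  have h2 : (P2.map g).sum = YY g 0 + YY g 66 + YY g (-66) := by
    unfold P2
    rw [Multiset.map_add, Multiset.map_add, Multiset.sum_add, Multiset.sum_add, Multiset.map_map,
      Multiset.map_map, Multiset.map_map, ← sum_S11, ← sum_S11, ← sum_S11]
    rfl
  have h3 : (P3.map g).sum = g 55 + (g (55 + 66) + g (55 - 66)) := by
    unfold P3
    simp only [Multiset.insert_eq_cons, Multiset.map_cons, Multiset.map_singleton,
      Multiset.sum_cons, Multiset.sum_singleton]
  have h4 : (P4.map g).sum = YY g 55 := by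
    unfold P4
    rw [Multiset.map_map, ← sum_S11]
    rfl
  have h5 : (P5.map g).sum = g 55 := by
    unfold P5
    simp
  have h6 : (P6.map g).sum = YY g 0 := by
    unfold P6
    rw [Multiset.map_map, ← sum_S11]
    rfl
  unfold SS
  simp only [Multiset.map_add, Multiset.sum_add]
  rw [hn, hn, hn, h1, h2, h3, h4, h5, h6, ident165 hg]
  abel

/-- F4-A2 -/
theorem kill165 {Q : Type} [AddCommGroup Q] {c : ZMod 165 → Q} (hc : OddDist c)
    (hk : ∀ s, ModularCharacter 165 s → (s.map c).sum = 0) :
    ∑ x ∈ univ.filter (fun x : ZMod 165 => x.val % 3 = 0 ∧ (x.val % 5 = 1 ∨ x.val % 5 = 2) ∧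
      x.val % 11 ∈ ({1, 3, 4, 5, 9} : Finset ℕ)), c x = 0 := by
  have h1 : (SS.map c).sum = 0 := by
    apply kill_of_balanced hc hk modu_SS
    intro t
    have hdist : OddDist (fun a : ZMod 165 => saw ((t : ZMod 165) * a)) := by
      refine ⟨fun a => by rw [mul_neg, saw_neg], fun a ha => ?_,
        fun p d _ hpd a => saw_dist_unit hpd t a⟩
      apply saw_half
      rw [← mul_add, ha, mul_zero]
    rw [sum_SS hdist]
    have h2 := twice_zero hdist
    omega
  rw [sum_SS hc] at h1
  have e : univ.filter (fun x : ZMod 165 => x.val % 3 = 0 ∧ (x.val % 5 = 1 ∨ x.val % 5 = 2) ∧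
      x.val % 11 ∈ ({1, 3, 4, 5, 9} : Finset ℕ)) =
      {66 + 45, 66 + 135, 66 + 15, 66 + 60, 66 + 75, 132 + 45, 132 + 135, 132 + 15, 132 + 60,
        132 + 75} := by
    decide +kernel
  rw [e, ← h1]
  have d : ∀ (a : ZMod 165) (s : Finset (ZMod 165)), a ∉ s →
      ∑ x ∈ insert a s, c x = c a + ∑ x ∈ s, c x := fun a s h => Finset.sum_insert h
  rw [d _ _ (by decide), d _ _ (by decide), d _ _ (by decide), d _ _ (by decide),
    d _ _ (by decide), d _ _ (by decide), d _ _ (by decide), d _ _ (by decide),
    d _ _ (by decide), Finset.sum_singleton]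
  unfold YY
  abel

end Pool.Agent.N992
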