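import Pool.Agent.H916K.Stick

/-!
# One Frobenius element and the Hodge type

Let `ℓ` be a prime congruent to one modulo `m`. The Frobenius elements of the primes above `ℓ` of the
field of `m`-th roots of unity act on the line `V(a)` of the cohomology of the Fermat variety of
degree `m` through products of Gauss sums. If these are roots of unity times a power of the square
root of `ℓ` then `a` is of Hodge type.
-/

namespace Pool.Agent.N992

open Finset Pool.Agent.H916K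

/-- **Stickelberger.** -/
theorem hodge_of_frobenius {m ℓ : ℕ} [Fact ℓ.Prime] (hm : 2 ≤ m) (hℓ3 : 3 ≤ ℓ)
    (hℓm : (ℓ : ZMod m) = 1) {s : Multiset (ZMod m)} (h0 : (0 : ZMod m) ∉ s) (hsum : s.sum = 0)
    {r l : ℕ} (hr : 0 < r)
    (hF : ∀ (χ : MulChar (ZMod ℓ) ℂ) (ψ : AddChar (ZMod ℓ) ℂ), orderOf χ = m → ψ ≠ 1 →
      ((s.map fun a => gaussSum (χ ^ a.val) ψ).prod) ^ r = (ℓ : ℂ) ^ l) :
    H916R2.IsHodge m s := by
  classical
  have hmz : NeZero m := ⟨by omega⟩
  have hℓ : ℓ.Prime := Fact.out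
  have key0 : ∀ t : (ZMod m)ˣ, r * (s.map fun a => ((t : ZMod m) * a).val).sum = m * l := by
    intro t
    obtain ⟨k, _, _, φ, Γ, _, v, hv1, hv2, hv3⟩ := exists_val hℓ
    have hv : Above φ v := ⟨hv1, hv2, hv3⟩
    obtain ⟨χ1, hχ1, hχφ⟩ := exists_teich (ℓ := ℓ) φ
    obtain ⟨ζ, hζ⟩ : ∃ ζ : AI, IsPrimitiveRoot ζ ℓ := by
      have h1 := Complex.isPrimitiveRoot_exp ℓ hℓ.ne_zero
      have h2 : IsIntegral ℤ (Complex.exp (2 * Real.pi * Complex.I / ((ℓ : ℕ) : ℂ))) :=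
        h1.isIntegral hℓ.pos
      exact ⟨⟨_, h2⟩, IsPrimitiveRoot.of_map_of_injective (f := algebraMap AI ℂ) h1
        Subtype.val_injective⟩
    have hinj : Function.Injective (algebraMap AI ℂ) := Subtype.val_injective
    have hmdvd : m ∣ ℓ - 1 := by
      have h1 : ((ℓ - 1 : ℕ) : ZMod m) = 0 := by
        rw [Nat.cast_sub (by omega), hℓm]; simp
      exact (ZMod.natCast_eq_zero_iff _ _).mp h1
    obtain ⟨e, he⟩ := hmdvd
    have he0 : 0 < e := Nat.pos_of_ne_zero (by rintro rfl; rw [mul_zero] at he; omega)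
    set τ : ℕ := (t : ZMod m).val with hτ
    have hτcop : τ.Coprime m := ZMod.val_coe_unit_coprime t
    set χ : MulChar (ZMod ℓ) AI := (χ1 ^ e) ^ τ with hχ
    have hord1 : orderOf (χ1 ^ e) = m := by
      rw [orderOf_pow_of_dvd he0.ne' (by rw [hχ1, he]; exact dvd_mul_left e m), hχ1, he,
        Nat.mul_div_cancel _ he0]
    have hordχ : orderOf χ = m := by
      rw [hχ, Nat.Coprime.orderOf_pow (by rw [hord1]; exact hτcop.symm), hord1]
    set ψ := AddChar.zmodChar ℓ hζ.pow_eq_one with hψdef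
    set χ' : MulChar (ZMod ℓ) ℂ := χ.ringHomComp (algebraMap AI ℂ) with hχ'
    set ψ' : AddChar (ZMod ℓ) ℂ := (algebraMap AI ℂ).toMonoidHom.compAddChar ψ with hψ'
    have hordχ' : orderOf χ' = m := by
      rw [← hordχ]
      exact orderOf_injective (MulChar.ringHomCompHom (algebraMap AI ℂ))
        (MulChar.injective_ringHomComp hinj) χ
    have hψ1 : ψ' ≠ 1 := by
      intro h
      have h1 : ψ' 1 = 1 := by rw [h]; rfl
      have h2 : algebraMap AI ℂ (ψ 1) = 1 := h1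
      rw [hψdef, AddChar.zmodChar_apply] at h2
      have : Fact (1 < ℓ) := ⟨hℓ.one_lt⟩
      rw [ZMod.val_one, pow_one] at h2
      exact hζ.ne_one hℓ.one_lt (hinj (by rw [h2, map_one]))
    have h1 := hF χ' ψ' hordχ' hψ1
    have h2 := congrArg v h1
    rw [map_pow, map_pow, map_multiset_prod, Multiset.map_map] at h2
    set π := v (((ζ - 1 : AI)) : ℂ) with hπ
    have hg : ∀ z ∈ s, v (gaussSum (χ' ^ z.val) ψ') = π ^ (e * ((t : ZMod m) * z).val) := by
      intro z hz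
      have e1 : gaussSum (χ' ^ z.val) ψ' = ((gaussSum (χ ^ z.val) ψ : AI) : ℂ) := by
        have : gaussSum (χ' ^ z.val) ψ' = algebraMap AI ℂ (gaussSum (χ ^ z.val) ψ) := by
          unfold gaussSum
          rw [map_sum]
          refine sum_congr rfl fun x _ => ?_
          rw [map_mul, hχ', MulChar.ringHomComp_pow, MulChar.ringHomComp_apply]
          rfl
        rw [this]; rfl
      have e2 : χ ^ z.val = χ1 ^ (e * ((t : ZMod m) * z).val) := by
        rw [hχ, ← pow_mul, ← pow_mul, pow_eq_pow_iff_modEq, hχ1, he, ZMod.val_mul, mul_comm m e]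
        exact (Nat.ModEq.mul_left' e (Nat.mod_modEq _ _)).symm
      have e3 : (t : ZMod m) * z ≠ 0 := by
        intro h
        exact (ne_of_mem_of_not_mem hz h0) ((t.isUnit.mul_right_eq_zero).mp h)
      have e4 : 0 < ((t : ZMod m) * z).val := Nat.pos_of_ne_zero
        (fun h => e3 ((ZMod.val_eq_zero _).mp h))
      have e5 := ZMod.val_lt ((t : ZMod m) * z)
      have e6 : e * ((t : ZMod m) * z).val ≤ e * (m - 1) := Nat.mul_le_mul_left e (by omega)
      have e7 : e * (m - 1) = ℓ - 1 - e := by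
        rw [he, Nat.mul_sub, mul_one, mul_comm]
      rw [e1, e2]
      exact v_gauss hv hζ hχ1 hχφ hℓ3 _ (Nat.mul_pos he0 e4) (by omega)
    have e1 : (s.map (v ∘ fun z => gaussSum (χ' ^ z.val) ψ')) =
        s.map fun z => π ^ (e * ((t : ZMod m) * z).val) := Multiset.map_congr rfl hg
    rw [e1] at h2
    have hprodpow : ∀ s : Multiset (ZMod m),
        (s.map fun z => π ^ (e * ((t : ZMod m) * z).val)).prod =
          π ^ (e * (s.map fun z => ((t : ZMod m) * z).val).sum) := by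
      intro s
      induction s using Multiset.induction_on with
      | empty => simp
      | cons a s ih =>
        rw [Multiset.map_cons, Multiset.prod_cons, ih, Multiset.map_cons, Multiset.sum_cons,
          ← pow_add, mul_add]
    rw [hprodpow] at h2
    -- the valuation of `ℓ`
    have hπ0 : π ≠ 0 := by
      rw [hπ, Valuation.ne_zero_iff]
      intro h0
      have h7 : (ζ : ℂ) = 1 := by
        have : ((ζ - 1 : AI) : ℂ) = (ζ : ℂ) - 1 := by push_cast; ring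
        rw [this] at h0
        exact sub_eq_zero.mp h0
      exact hζ.ne_one hℓ.one_lt (Subtype.ext h7)
    have hπ1 : π < 1 := v_pi hv hζ
    have hvℓ : v ((ℓ : ℂ)) = π ^ (ℓ - 1) := by
      refine le_antisymm (v_ell hv hζ) ?_
      have hprim : (AddChar.zmodChar ℓ hζ.pow_eq_one).IsPrimitive :=
        AddChar.zmodChar_primitive_of_primitive_root ℓ hζ
      have hne : χ1 ≠ 1 := by
        intro h; rw [h, orderOf_one] at hχ1; omega
      have h3 := gaussSum_mul_gaussSum_pow_orderOf_sub_one hne hprim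
      rw [hχ1] at h3
      have h4 := congrArg (fun z : AI => v (z : ℂ)) h3
      push_cast at h4
      rw [map_mul, map_mul] at h4
      have hneg : v ((χ1 (-1) : AI) : ℂ) = 1 := by
        apply hv.root (n := 2) (by norm_num)
        rw [← map_pow]
        have : ((-1 : ZMod ℓ)) ^ 2 = 1 := by ring
        rw [this, MulChar.map_one]
      rw [hneg, one_mul, ZMod.card, v_gauss_one hv hζ hχ1 hχφ hℓ3, show ℓ - 1 - 1 = ℓ - 2 by omega,
        v_gauss hv hζ hχ1 hχφ hℓ3 (ℓ - 2) (by omega) le_rfl, ← pow_succ',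
        show ℓ - 2 + 1 = ℓ - 1 by omega] at h4
      exact h4.le
    rw [hvℓ, ← pow_mul, ← pow_mul] at h2
    have h3 := pow_right_injective₀ (zero_lt_iff.mpr hπ0) hπ1.ne h2
    rw [he] at h3
    have h4 : e * (r * (s.map fun z => ((t : ZMod m) * z).val).sum) = e * (m * l) := by
      rw [show e * (r * (s.map fun z => ((t : ZMod m) * z).val).sum) =
        e * (s.map fun z => ((t : ZMod m) * z).val).sum * r by ring]
      rw [show e * (m * l) = m * e * l by ring]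
      exact h3
    exact Nat.eq_of_mul_eq_mul_left he0 h4
  have key : ∀ t : (ZMod m)ˣ, 2 * (s.map fun a => ((t : ZMod m) * a).val).sum =
      m * Multiset.card s := by
    intro t
    have h1 := key0 t
    have h2 := key0 (-t)
    have h3 : (s.map fun a => ((t : ZMod m) * a).val).sum +
        (s.map fun a => (((-t : (ZMod m)ˣ) : ZMod m) * a).val).sum = m * Multiset.card s := by
      rw [← Multiset.sum_map_add]
      have : (s.map fun a => ((t : ZMod m) * a).val + (((-t : (ZMod m)ˣ) : ZMod m) * a).val) =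
          s.map fun _ => m := by
        apply Multiset.map_congr rfl
        intro a ha
        have h4 : (t : ZMod m) * a ≠ 0 := by
          intro h
          exact (ne_of_mem_of_not_mem ha h0) ((t.isUnit.mul_right_eq_zero).mp h)
        have h5 : NeZero ((t : ZMod m) * a) := ⟨h4⟩
        rw [Units.val_neg, neg_mul, ZMod.val_neg_of_ne_zero]
        have := ZMod.val_lt ((t : ZMod m) * a)
        omega
      rw [this, Multiset.map_const', Multiset.sum_replicate, smul_eq_mul, mul_comm]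
    have h4 : r * (2 * (s.map fun a => ((t : ZMod m) * a).val).sum) =
        r * (m * Multiset.card s) := by
      rw [← h3, mul_add, h2, ← h1]; ring
    exact Nat.eq_of_mul_eq_mul_left hr h4
  refine ⟨h0, ?_, hsum, key⟩
  have h1 := key 1
  simp only [Units.val_one, one_mul] at h1
  have h2 : m ∣ (s.map fun a : ZMod m => a.val).sum := by
    rw [← ZMod.natCast_eq_zero_iff, ← Nat.coe_castRingHom, map_multiset_sum, Multiset.map_map]
    have : (s.map ((Nat.castRingHom (ZMod m)) ∘ fun a : ZMod m => a.val)) = s := by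
      conv_rhs => rw [← Multiset.map_id s]
      exact Multiset.map_congr rfl fun a _ => ZMod.natCast_zmod_val a
    rw [this, hsum]
  obtain ⟨c, hc⟩ := h2
  rw [hc] at h1
  refine ⟨c, ?_⟩
  have h3 : m * (2 * c) = m * Multiset.card s := by rw [← h1]; ring
  have := Nat.eq_of_mul_eq_mul_left (by omega : 0 < m) h3
  omega

lemma pow_eq_of_modEq {x : ℂ} {m a b : ℕ} (hx : IsPrimitiveRoot x m) (h : a ≡ b [MOD m]) :
    x ^ a = x ^ b := by
  rw [← pow_mod_orderOf x a, ← pow_mod_orderOf x b, ← hx.eq_orderOf, h]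

/-- All pairs of a multiplicative character of order `m` and a nontrivial additive character are
conjugate. -/
lemma exists_conj {m ℓ : ℕ} [Fact ℓ.Prime] (hm : 0 < m) (hcop : m.Coprime ℓ)
    {χ0 χ : MulChar (ZMod ℓ) ℂ} {ψ0 ψ : AddChar (ZMod ℓ) ℂ} (h0 : orderOf χ0 = m) (hψ0 : ψ0 ≠ 1)
    (h : orderOf χ = m) (hψ : ψ ≠ 1) :
    ∃ T : ℕ, T.Coprime (m * ℓ) ∧ (∀ x : ZMod ℓ, x ≠ 0 → χ x = χ0 x ^ T) ∧ ∀ x, ψ x = ψ0 x ^ T := by
  classical
  have hℓ : ℓ.Prime := Fact.out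
  obtain ⟨g, hg⟩ := IsCyclic.exists_generator (α := (ZMod ℓ)ˣ)
  have hgen : ∀ x : (ZMod ℓ)ˣ, ∃ n : ℕ, g ^ n = x := fun x =>
    (IsOfFinOrder.mem_powers_iff_mem_zpowers (isOfFinOrder_of_finite g)).mpr (hg x)
  have hprim : ∀ η : MulChar (ZMod ℓ) ℂ, orderOf η = m → IsPrimitiveRoot (η (g : ZMod ℓ)) m := by
    intro η hη
    refine ⟨?_, ?_⟩
    · exact mulChar_pow_one hη g.ne_zero
    · intro l hl
      rw [← hη]
      apply orderOf_dvd_of_pow_eq_one
      ext x
      obtain ⟨n, rfl⟩ := hgen x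
      rw [MulChar.pow_apply_coe, MulChar.one_apply_coe, Units.val_pow_eq_pow_val, map_pow, ← pow_mul,
        mul_comm n l, pow_mul, hl, one_pow]
  have : NeZero m := ⟨hm.ne'⟩
  obtain ⟨t, ht, htcop, ht2⟩ := (hprim χ0 h0).isPrimitiveRoot_iff.mp (hprim χ h)
  have hprimψ : ∀ η : AddChar (ZMod ℓ) ℂ, η ≠ 1 → IsPrimitiveRoot (η 1) ℓ := by
    intro η hη
    have h1 : (η 1) ^ ℓ = 1 := by
      rw [← AddChar.map_nsmul_eq_pow, nsmul_one, CharP.cast_eq_zero, AddChar.map_zero_eq_one]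
    have h2 : η 1 ≠ 1 := by
      intro h2
      apply hη
      ext x
      rw [← ZMod.natCast_zmod_val x, ← nsmul_one, AddChar.map_nsmul_eq_pow, h2, one_pow,
        AddChar.one_apply]
    have h3 : orderOf (η 1) = ℓ := orderOf_eq_prime h1 h2
    exact IsPrimitiveRoot.iff_orderOf.mpr h3
  have : NeZero ℓ := ⟨hℓ.ne_zero⟩
  obtain ⟨t', ht', htcop', ht2'⟩ := (hprimψ ψ0 hψ0).isPrimitiveRoot_iff.mp (hprimψ ψ hψ)
  obtain ⟨T, hT1, hT2⟩ := Nat.chineseRemainder hcop t t'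
  refine ⟨T, ?_, ?_, ?_⟩
  · rw [Nat.coprime_mul_iff_right]
    refine ⟨?_, ?_⟩
    · have : T.gcd m = t.gcd m := Nat.ModEq.gcd_eq hT1
      rw [Nat.Coprime, this]; exact htcop
    · have : T.gcd ℓ = t'.gcd ℓ := Nat.ModEq.gcd_eq hT2
      rw [Nat.Coprime, this]; exact htcop'
  · intro x hx
    obtain ⟨n, hn⟩ := hgen (Units.mk0 x hx)
    have hx' : x = (g : ZMod ℓ) ^ n := by
      rw [← Units.val_pow_eq_pow_val, hn, Units.val_mk0]
    have e1 : χ0 (g : ZMod ℓ) ^ T = χ0 (g : ZMod ℓ) ^ t := pow_eq_of_modEq (hprim χ0 h0) hT1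
    rw [hx', map_pow, map_pow, ← ht2, ← e1, ← pow_mul, ← pow_mul, mul_comm]
  · intro x
    have e1 : ψ0 1 ^ T = ψ0 1 ^ t' := pow_eq_of_modEq (hprimψ ψ0 hψ0) hT2
    have e2 : ∀ η : AddChar (ZMod ℓ) ℂ, η x = (η 1) ^ x.val := by
      intro η
      conv_lhs => rw [← ZMod.natCast_zmod_val x, ← nsmul_one, AddChar.map_nsmul_eq_pow]
    rw [e2 ψ, e2 ψ0, ← ht2', ← e1, ← pow_mul, ← pow_mul, mul_comm]

open Polynomial in
/-- Conjugate Frobenius elements. -/
lemma frobenius_conj {m ℓ : ℕ} [Fact ℓ.Prime] (hm : 0 < m) (hcop : m.Coprime ℓ)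
    {χ0 χ : MulChar (ZMod ℓ) ℂ} {ψ0 ψ : AddChar (ZMod ℓ) ℂ} (h0 : orderOf χ0 = m) (hψ0 : ψ0 ≠ 1)
    (h : orderOf χ = m) (hψ : ψ ≠ 1) {s : Multiset (ZMod m)} {k l : ℕ}
    (hF : ((s.map fun a => gaussSum (χ0 ^ a.val) ψ0).prod) ^ k = (ℓ : ℂ) ^ l) :
    ((s.map fun a => gaussSum (χ ^ a.val) ψ).prod) ^ k = (ℓ : ℂ) ^ l := by
  classical
  have hℓ : ℓ.Prime := Fact.out
  have hN : m * ℓ ≠ 0 := Nat.mul_ne_zero hm.ne' hℓ.ne_zero
  obtain ⟨T, hT, hχ, hψT⟩ := exists_conj hm hcop h0 hψ0 h hψ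
  set ζ := Complex.exp (2 * Real.pi * Complex.I / ((m * ℓ : ℕ) : ℂ)) with hζdef
  have hζ : IsPrimitiveRoot ζ (m * ℓ) := Complex.isPrimitiveRoot_exp _ hN
  have hζm : IsPrimitiveRoot (ζ ^ ℓ) m := hζ.pow (Nat.pos_of_ne_zero hN) (mul_comm m ℓ)
  have hζℓ : IsPrimitiveRoot (ζ ^ m) ℓ := hζ.pow (Nat.pos_of_ne_zero hN) rfl
  have : NeZero m := ⟨hm.ne'⟩
  have : NeZero ℓ := ⟨hℓ.ne_zero⟩
  have hf : ∀ x : ZMod ℓ, ∃ i : ℕ, x ≠ 0 → χ0 x = (ζ ^ ℓ) ^ i := by
    intro x
    by_cases hx : x = 0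
    · exact ⟨0, fun h => absurd hx h⟩
    · obtain ⟨i, _, hi⟩ := hζm.eq_pow_of_pow_eq_one (ξ := χ0 x) (mulChar_pow_one h0 hx)
      exact ⟨i, fun _ => hi.symm⟩
  have hg : ∀ x : ZMod ℓ, ∃ i : ℕ, ψ0 x = (ζ ^ m) ^ i := by
    intro x
    obtain ⟨i, _, hi⟩ := hζℓ.eq_pow_of_pow_eq_one (ξ := ψ0 x) (by
      rw [← AddChar.map_nsmul_eq_pow, nsmul_eq_mul, CharP.cast_eq_zero, zero_mul,
        AddChar.map_zero_eq_one])
    exact ⟨i, hi.symm⟩
  choose f hf using hf
  choose g hg using hg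
  let G : ℕ → ℤ[X] := fun a => ∑ x ∈ univ.filter (fun x : ZMod ℓ => x ≠ 0), X ^ (ℓ * f x * a + m * g x)
  have hG : ∀ (U : ℕ) (χ' : MulChar (ZMod ℓ) ℂ) (ψ' : AddChar (ZMod ℓ) ℂ),
      (∀ x : ZMod ℓ, x ≠ 0 → χ' x = χ0 x ^ U) → (∀ x, ψ' x = ψ0 x ^ U) → ∀ a : ℕ,
      aeval (ζ ^ U) (G a) = gaussSum (χ' ^ a) ψ' := by
    intro U χ' ψ' h1 h2 a
    have h3 : gaussSum (χ' ^ a) ψ' = ∑ x ∈ univ.filter (fun x : ZMod ℓ => x ≠ 0), (χ' ^ a) x * ψ' x := by
      unfold gaussSum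
      symm
      apply sum_subset (subset_univ _)
      intro x _ hx
      have : x = 0 := by simpa using hx
      rw [this, MulChar.map_zero, zero_mul]
    rw [h3, map_sum]
    refine sum_congr rfl fun x hx => ?_
    have hx0 : x ≠ 0 := (mem_filter.mp hx).2
    rw [map_pow, aeval_X, mulChar_pow_apply χ' a hx0, h1 x hx0, h2 x, hf x hx0, hg x,
      ← pow_mul, ← pow_mul, ← pow_mul, ← pow_mul, ← pow_mul, ← pow_mul, ← pow_add]
    congr 1
    ring
  let F : ℤ[X] := ((s.map fun a => G a.val).prod) ^ k - C ((ℓ : ℤ) ^ l)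
  have hFU : ∀ (U : ℕ) (χ' : MulChar (ZMod ℓ) ℂ) (ψ' : AddChar (ZMod ℓ) ℂ),
      (∀ x : ZMod ℓ, x ≠ 0 → χ' x = χ0 x ^ U) → (∀ x, ψ' x = ψ0 x ^ U) →
      aeval (ζ ^ U) F = ((s.map fun a => gaussSum (χ' ^ a.val) ψ').prod) ^ k - (ℓ : ℂ) ^ l := by
    intro U χ' ψ' h1 h2
    have e1 : aeval (ζ ^ U) ((s.map fun a => G a.val).prod) =
        (s.map fun a => gaussSum (χ' ^ a.val) ψ').prod := by
      rw [map_multiset_prod, Multiset.map_map]
      congr 1
      exact Multiset.map_congr rfl fun a _ => hG U χ' ψ' h1 h2 a.val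
    simp only [F, map_sub, map_pow, e1, aeval_C]
    congr 1
  have h1 : aeval ζ F = 0 := by
    have := hFU 1 χ0 ψ0 (fun x _ => (pow_one _).symm) (fun x => (pow_one _).symm)
    rw [pow_one] at this
    rw [this, hF, sub_self]
  have hint : IsIntegral ℤ ζ := hζ.isIntegral (Nat.pos_of_ne_zero hN)
  have h2 : minpoly ℤ ζ ∣ F := minpoly.isIntegrallyClosed_dvd hint h1
  rw [hζ.minpoly_eq_pow_coprime hT] at h2
  have h3 : aeval (ζ ^ T) F = 0 := by
    obtain ⟨R, hR⟩ := h2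
    rw [hR, map_mul, minpoly.aeval, zero_mul]
  rw [hFU T χ ψ hχ hψT] at h3
  exact sub_eq_zero.mp h3

/-- **One Frobenius element.** Let `ℓ` be a prime congruent to one modulo `m`, and suppose that a
positive power of the product of the Gauss sums of `s` for one character of order `m` of the field
of `ℓ` elements is a power of `ℓ`. Then `s` is a Hodge character. -/
theorem hodge_of_one_frobenius {m ℓ : ℕ} [Fact ℓ.Prime] (hm : 2 ≤ m) (hℓm : (ℓ : ZMod m) = 1)
    {s : Multiset (ZMod m)} (h0 : (0 : ZMod m) ∉ s) (hsum : s.sum = 0) {r l : ℕ} (hr : 0 < r)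
    {χ : MulChar (ZMod ℓ) ℂ} {ψ : AddChar (ZMod ℓ) ℂ} (hχ : orderOf χ = m) (hψ : ψ ≠ 1)
    (hF : ((s.map fun a => gaussSum (χ ^ a.val) ψ).prod) ^ r = (ℓ : ℂ) ^ l) :
    H916R2.IsHodge m s := by
  have hℓ : ℓ.Prime := Fact.out
  have hmdvd : m ∣ ℓ - 1 := by
    have h1 : ((ℓ - 1 : ℕ) : ZMod m) = 0 := by
      rw [Nat.cast_sub hℓ.one_lt.le, hℓm]; simp
    exact (ZMod.natCast_eq_zero_iff _ _).mp h1
  have h2 := Nat.le_of_dvd (by have := hℓ.one_lt; omega) hmdvd
  have hcop : m.Coprime ℓ := by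
    rw [Nat.coprime_comm, hℓ.coprime_iff_not_dvd]
    intro h
    have h3 := Nat.le_of_dvd (by omega) h
    omega
  exact hodge_of_frobenius hm (by omega) hℓm h0 hsum hr
    (fun χ' ψ' h h' => frobenius_conj (by omega) hcop hχ hψ h h' hF)

end Pool.Agent.N992
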