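import Pool.Agent.N992.Main
import Pool.Agent.N992.Tate

/-!
The Tate conjecture for Fermat varieties of the degrees whose odd prime factors are congruent to
three modulo four.
-/

namespace Pool.Agent.N992

open Pool.Agent.H916R2

/-- There are a prime `ℓ` congruent to one modulo `m`, a character `χ` of order `m` of the field with
`ℓ` elements and a nontrivial additive character `ψ` such that some positive power of the product of
the Gauss sums `g(χ ^ a)`, `a ∈ s`, is a power of `ℓ`. -/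
def OneFrobenius (m : ℕ) (s : Multiset (ZMod m)) : Prop :=
  ∃ (ℓ : ℕ) (_ : Fact ℓ.Prime) (χ : MulChar (ZMod ℓ) ℂ) (ψ : AddChar (ZMod ℓ) ℂ) (r l : ℕ),
    (ℓ : ZMod m) = 1 ∧ orderOf χ = m ∧ ψ ≠ 1 ∧ 0 < r ∧
      ((s.map fun a => gaussSum (χ ^ a.val) ψ).prod) ^ r = (ℓ : ℂ) ^ l

theorem tate_modular (m : ℕ) [NeZero m] (hm2 : 2 ≤ m)
    (hm : ∀ p : ℕ, p.Prime → p ∣ m → p = 2 ∨ p % 4 = 3) (s : Multiset (ZMod m)) (hne : s ≠ 0)
    (h0 : (0 : ZMod m) ∉ s) (hsum : s.sum = 0) (hF : OneFrobenius m s) :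
    Generated m (ModularCharacter m) s := by
  obtain ⟨ℓ, hℓ, χ, ψ, r, l, h1, h2, h3, h4, h5⟩ := hF
  exact main m hm s (hodge_of_one_frobenius hm2 h1 h0 hsum h4 h2 h3 h5) hne

end Pool.Agent.N992
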