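import Pool.Agent.N878.F.FourMain
import Pool.Agent.N992.Four165
import Pool.Agent.N992.TateMain

/-!
Fermat varieties of dimension at most five, of all degrees.
-/

namespace Pool.Agent.N992

open Pool.Agent.H916R2

theorem main_fourfold (m : ℕ) [NeZero m] [NeZero (6 * m)] (s : Multiset (ZMod m))
    (hs : IsHodge m s) (hcard : Multiset.card s ≤ 6) (hne : s ≠ 0) :
    Generated (6 * m) (FourBase (6 * m)) (s.map fun a => ((6 * a.val : ℕ) : ZMod (6 * m))) :=
  Pool.Agent.N878.F.main_fourfold_of (fun Q _ c hc hk => kill165 hc hk) m s hs hcard hne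

theorem tate_fourfold (m : ℕ) [NeZero m] [NeZero (6 * m)] (hm2 : 2 ≤ m) (s : Multiset (ZMod m))
    (hcard : Multiset.card s ≤ 7) (hne : s ≠ 0)
    (h0 : (0 : ZMod m) ∉ s) (hsum : s.sum = 0) (hF : OneFrobenius m s) :
    Generated (6 * m) (FourBase (6 * m)) (s.map fun a => ((6 * a.val : ℕ) : ZMod (6 * m))) := by
  obtain ⟨ℓ, hℓ, χ, ψ, r, l, h1, h2, h3, h4, h5⟩ := hF
  have hs := hodge_of_one_frobenius hm2 h1 h0 hsum h4 h2 h3 h5
  refine main_fourfold m s hs ?_ hne
  obtain ⟨c, hc⟩ := hs.2.1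
  omega

end Pool.Agent.N992
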