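import Pool.Agent.N992.Main
import Pool.Agent.Y2.Cw.EvenH4

/-!
The base of the theorem on Fermat fourfolds of all degrees.
-/

namespace Pool.Agent.N992

open Pool.Agent.H916R2 Pool.Agent.Y2.Cv

/-- Hodge characters with four entries, products of two curve characters, modular characters. -/
def FourBase (m : ℕ) [NeZero m] (s : Multiset (ZMod m)) : Prop :=
  SurfaceOrCurveProduct m s ∨ ModularCharacter m s

end Pool.Agent.N992
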