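import Pool.Agent.N992.FullLevel

/-!
Hodge characters of Fermat varieties of all dimensions, whose degree has only odd prime factors
congruent to 3 modulo 4.
-/

namespace Pool.Agent.N992

open Finset Pool.Agent.H916R2 Pool.Agent.Y2.Cv

set_option linter.unusedSectionVars false

/-! ### Change of the degree -/

section lift

variable {m : ℕ} [NeZero m]

lemma stdAddChar_iota {k m0 : ℕ} [NeZero m0] (h : k * m0 = m) (b : ZMod m0) :
    ZMod.stdAddChar (iota k b : ZMod m) = ZMod.stdAddChar b := by
  have h1 : (iota k b : ZMod m) = (((k * b.val : ℕ) : ℤ) : ZMod m) := by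
    unfold iota; push_cast; rfl
  have h2 : b = (((b.val : ℕ) : ℤ) : ZMod m0) := by
    push_cast; rw [ZMod.natCast_zmod_val]
  conv_rhs => rw [h2]
  rw [h1, ZMod.stdAddChar_coe, ZMod.stdAddChar_coe]
  congr 1
  have hk : (k : ℂ) ≠ 0 := by
    intro h'
    have : k = 0 := by exact_mod_cast h'
    subst this
    rw [zero_mul] at h
    exact NeZero.ne m h.symm
  have hm0 : (m0 : ℂ) ≠ 0 := by exact_mod_cast NeZero.ne m0
  have hm : (m : ℂ) = k * m0 := by exact_mod_cast h.symm
  rw [hm]
  push_cast
  field_simp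

lemma ModularSpectrum.lift {k m0 : ℕ} [NeZero m0] (h : k * m0 = m) {b : Multiset (ZMod m0)}
    (hb : ModularSpectrum m0 b) : ModularSpectrum m (b.map (iota k : ZMod m0 → ZMod m)) := by
  obtain ⟨n, ρ, e, hG, h1, hT, rfl⟩ := hb
  refine ⟨n, ρ, fun i => iota k (e i), hG, h1, ?_, ?_⟩
  · rw [hT]
    congr 1
    funext i
    exact (stdAddChar_iota h (e i)).symm
  · rw [Multiset.filter_map, Multiset.filter_map, Multiset.map_map]
    congr 1
    apply Multiset.filter_congr
    intro i _
    simp only [Function.comp_apply]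
    constructor
    · intro h1 h2
      exact h1 (iota_eq_zero h h2)
    · intro h1 h2
      exact h1 (by rw [h2, iota_zero])

lemma ModularCharacter.lift {k m0 : ℕ} [NeZero m0] (h : k * m0 = m) {s : Multiset (ZMod m0)}
    (hs : ModularCharacter m0 s) : ModularCharacter m (s.map (iota k : ZMod m0 → ZMod m)) := by
  obtain ⟨hH, L, r, h1, h2, rfl⟩ := hs
  refine ⟨hH.iota h, L.map (fun b => b.map (iota k : ZMod m0 → ZMod m)), r.map (iota k), ?_, ?_, ?_⟩
  · intro b hb
    obtain ⟨b', hb', rfl⟩ := List.mem_map.mp hb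
    exact (h1 b' hb').lift h
  · intro a ha
    obtain ⟨a', ha', rfl⟩ := Multiset.mem_map.mp ha
    have h3 := iota_natMul h 12 a'
    have h4 := h2 a' ha'
    push_cast at h3
    rw [← h3, h4, iota_zero]
  · rw [Multiset.map_add]
    congr 1
    clear h1 hH
    induction L with
    | nil => simp
    | cons b L ih => rw [List.sum_cons, Multiset.map_add, ih, List.map_cons, List.sum_cons]

lemma ModularCharacter.neg {s : Multiset (ZMod m)} (hs : ModularCharacter m s) :
    ModularCharacter m (s.map Neg.neg) := by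
  obtain ⟨hH, h⟩ := hs
  exact ⟨hH.neg, Modu.neg h⟩

theorem generated_of_full {m0 k : ℕ} [NeZero m0] (hk : k * m0 = m) (hred : Red m m0 k)
    (hfull : FullP m0 (ModularCharacter m0)) {s : Multiset (ZMod m)} (hs : IsHodge m s)
    (hne : s ≠ 0) : Generated m (ModularCharacter m) s := by
  obtain ⟨x0, hx0, he⟩ := hred _ (cQ m (ModularCharacter m)) cQ_oddDist _ hs.rel
  have h4 : Kil (ModularCharacter m0)
      (fun b : ZMod m0 => cQ m (ModularCharacter m) (iota k b)) := by
    intro s0 hs0
    have h2 := cQ_sum_eq_zero (Generated.ofBase (m := m) (base := ModularCharacter m)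
      (s0.map (iota k : ZMod m0 → ZMod m)) (hs0.lift hk))
    rw [Multiset.map_map] at h2
    exact h2
  rw [hfull _ _ (cQ_oddDist.comp_iota hk) h4 x0 hx0, sum_count] at he
  rw [cQ_sum, QuotientAddGroup.eq_zero_iff] at he
  exact generated_of_mem_LL (fun s hs => ⟨hs.1.1, hs.1.2.1⟩) (fun s hs => hs.neg) hs.1 hs.2.1 hne he

end lift

/-! ### Removing a simple factor 2 of the level -/

lemma red_two {N : ℕ} [NeZero N] [NeZero (2 * N)] (hodd : N % 2 = 1) : Red (2 * N) N 2 := by
  classical
  intro Q _ c hc x hx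
  -- expression of every element through even ones
  have key : ∀ a : ZMod (2 * N), ∃ (b1 b2 : ZMod N) (e : ℤ), ∀ (R : Type) [AddCommGroup R]
      (g : ZMod (2 * N) → R), OddDist g → g a = g (iota 2 b1) - e • g (iota 2 b2) := by
    intro a
    by_cases ha : a.val % 2 = 0
    · refine ⟨((a.val / 2 : ℕ) : ZMod N), 0, 0, ?_⟩
      intro R _ g _
      rw [zero_smul, sub_zero, iota_natCast rfl]
      congr 1
      have : 2 * (a.val / 2) = a.val := by omega
      rw [this, ZMod.natCast_zmod_val]
    · refine ⟨((a.val : ℕ) : ZMod N), (((a.val + N) / 2 : ℕ) : ZMod N), 1, ?_⟩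
      intro R _ g hg
      have h1 := hg.dist 2 N Nat.prime_two rfl a
      rw [sum_range_succ, sum_range_one] at h1
      rw [one_smul, iota_natCast rfl, iota_natCast rfl]
      have e1 : a + ((0 : ℕ) : ZMod (2 * N)) * (N : ZMod (2 * N)) = a := by simp
      have e2 : a + ((1 : ℕ) : ZMod (2 * N)) * (N : ZMod (2 * N)) =
          ((2 * ((a.val + N) / 2) : ℕ) : ZMod (2 * N)) := by
        have : 2 * ((a.val + N) / 2) = a.val + N := by omega
        rw [this, Nat.cast_add, ZMod.natCast_zmod_val]; push_cast; ring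
      have e3 : ((2 * a.val : ℕ) : ZMod (2 * N)) = ((2 : ℕ) : ZMod (2 * N)) * a := by
        rw [Nat.cast_mul, ZMod.natCast_zmod_val]
      rw [e1, e2] at h1
      rw [e3, ← h1]; abel
  choose b1 b2 e hb using key
  let x0 : ZMod N → ℤ := fun b => ∑ a, ((if b1 a = b then x a else 0) - (if b2 a = b then e a * x a else 0))
  have hsum : ∀ (R : Type) [AddCommGroup R] (g : ZMod (2 * N) → R), OddDist g →
      ∑ a, x a • g a = ∑ b : ZMod N, x0 b • g (iota 2 b) := by
    intro R _ g hg
    simp only [x0, Finset.sum_smul]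
    rw [sum_comm]
    refine sum_congr rfl fun a _ => ?_
    simp only [sub_smul, sum_sub_distrib, ite_smul, zero_smul, sum_ite_eq, mem_univ, if_true]
    rw [hb a R g hg, smul_sub, smul_smul, mul_comm (x a) (e a)]
  refine ⟨x0, ?_, hsum Q c hc⟩
  intro t'
  obtain ⟨t, ht⟩ := ZMod.unitsMap_surjective (Dvd.intro_left 2 rfl : N ∣ 2 * N) t'
  have hdist : OddDist (fun a : ZMod (2 * N) => saw ((t : ZMod (2 * N)) * a)) := by
    refine ⟨fun a => by rw [mul_neg, saw_neg], fun a ha => ?_, fun p d _ hpd a => saw_dist_unit hpd t a⟩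
    apply saw_half
    rw [← mul_add, ha, mul_zero]
  have h1 := hsum ℤ _ hdist
  have h2 := hx t
  simp only [smul_eq_mul] at h1
  rw [h2] at h1
  have h3 : ∀ b : ZMod N, saw ((t : ZMod (2 * N)) * iota 2 b) = 2 * saw ((t' : ZMod N) * b) := by
    intro b
    have h5 := saw_iota (k := 2) (m0 := N) (m := 2 * N) rfl ((t' : ZMod N) * b)
    push_cast at h5
    rw [← h5]
    congr 1
    have ht' : (t' : ZMod N) = (((t : ZMod (2 * N)).val : ℕ) : ZMod N) := by
      rw [← ht, ZMod.unitsMap_val, ZMod.natCast_val]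
    rw [ht', iota_natMul rfl, ZMod.natCast_zmod_val]
  have h4 : (2 : ℤ) * ∑ b : ZMod N, x0 b * saw ((t' : ZMod N) * b) = 0 := by
    rw [mul_sum, h1]
    refine sum_congr rfl fun b _ => ?_
    rw [h3]; ring
  omega

/-! ### The main theorem -/

lemma full_one' : FullP 1 (ModularCharacter 1) := by
  intro Q _ c hc _ x _
  apply sum_eq_zero
  intro a _
  have : c a = 0 := hc.half a (Subsingleton.elim _ _)
  rw [this, smul_zero]

lemma full_of_primes {ι : Type} [Fintype ι] [LinearOrder ι] {n : ι → ℕ} (hn : Adm n)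
    (hco : Pairwise (fun i j => (n i).Coprime (n j))) {N : ℕ} [NeZero N] (hN : ∏ i, n i = N) :
    FullP N (ModularCharacter N) := by
  have hne : ∀ i, NeZero (n i) := fun i => ⟨by
    rcases hn i with h | h
    · exact h.1.ne_zero
    · omega⟩
  by_cases hι : Nonempty ι
  · subst hN
    exact full_level hn hco rfl (ZMod.prodEquivPi n hco).symm
  · have hemp : IsEmpty ι := not_nonempty_iff.mp hι
    have h1 : N = 1 := by rw [← hN]; exact Finset.prod_of_isEmpty _
    subst h1
    convert full_one'

theorem main (m : ℕ) [NeZero m] (hm : ∀ p : ℕ, p.Prime → p ∣ m → p = 2 ∨ p % 4 = 3)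
    (s : Multiset (ZMod m)) (hs : IsHodge m s) (hne : s ≠ 0) :
    Generated m (ModularCharacter m) s := by
  classical
  have hm0 : m ≠ 0 := NeZero.ne m
  by_cases h4 : 4 ∣ m
  · -- the factor 4
    let n : {p // p ∈ m.primeFactors} → ℕ := fun p => if (p : ℕ) = 2 then 4 else p
    have hpr : ∀ p : {p // p ∈ m.primeFactors}, (p : ℕ).Prime := fun p => Nat.prime_of_mem_primeFactors p.2
    have hdv : ∀ p : {p // p ∈ m.primeFactors}, (p : ℕ) ∣ m := fun p => Nat.dvd_of_mem_primeFactors p.2
    have hn : Adm n := by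
      intro p
      by_cases h2 : (p : ℕ) = 2
      · right; exact if_pos h2
      · left
        have : n p = p := if_neg h2
        rw [this]
        exact ⟨hpr p, (hm p (hpr p) (hdv p)).resolve_left h2⟩
    have hndv : ∀ p, n p ∣ m := by
      intro p
      by_cases h2 : (p : ℕ) = 2
      · have : n p = 4 := if_pos h2
        rw [this]; exact h4
      · have : n p = p := if_neg h2
        rw [this]; exact hdv p
    have hco : Pairwise (fun i j => (n i).Coprime (n j)) := by
      intro p q hpq
      have hne : (p : ℕ) ≠ q := fun h => hpq (Subtype.ext h)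
      have hc := (Nat.coprime_primes (hpr p) (hpr q)).mpr hne
      by_cases h2 : (p : ℕ) = 2
      · have e1 : n p = 2 ^ 2 := if_pos h2
        have e2 : n q = q := if_neg (fun h => hne (by rw [h2, h]))
        change (n p).Coprime (n q)
        rw [e1, e2]
        rw [h2] at hc
        exact Nat.Coprime.pow_left 2 hc
      · have e1 : n p = p := if_neg h2
        by_cases h2' : (q : ℕ) = 2
        · have e2 : n q = 2 ^ 2 := if_pos h2'
          change (n p).Coprime (n q)
          rw [e1, e2]
          rw [h2'] at hc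
          exact Nat.Coprime.pow_right 2 hc
        · have e2 : n q = q := if_neg h2'
          change (n p).Coprime (n q)
          rw [e1, e2]; exact hc
    have hdvd : ∏ p, n p ∣ m := by
      apply Fintype.prod_dvd_of_isRelPrime
      · intro i j hij
        exact Nat.coprime_iff_isRelPrime.mp (hco hij)
      · exact hndv
    obtain ⟨k, hk⟩ := hdvd
    have hN0 : ∏ p, n p ≠ 0 := by intro h; rw [h, zero_mul] at hk; exact hm0 hk
    have : NeZero (∏ p, n p) := ⟨hN0⟩
    have hk' : k * ∏ p, n p = m := (mul_comm _ _).trans hk.symm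
    refine generated_of_full hk' (red_exists _ m _ k rfl hk' ?_ ?_) (full_of_primes hn hco rfl) hs hne
    · intro p hp hpm
      have hmem : p ∈ m.primeFactors := Nat.mem_primeFactors.mpr ⟨hp, hpm, hm0⟩
      have h1 : n ⟨p, hmem⟩ ∣ ∏ p, n p := Finset.dvd_prod_of_mem n (mem_univ _)
      refine dvd_trans ?_ h1
      by_cases h2 : p = 2
      · have : n ⟨p, hmem⟩ = 4 := if_pos h2
        rw [this, h2]; norm_num
      · have : n ⟨p, hmem⟩ = p := if_neg h2
        rw [this]
    · intro _
      have hmem : 2 ∈ m.primeFactors := Nat.mem_primeFactors.mpr ⟨Nat.prime_two, dvd_trans (by norm_num) h4, hm0⟩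
      have h1 : n ⟨2, hmem⟩ ∣ ∏ p, n p := Finset.dvd_prod_of_mem n (mem_univ _)
      have h2 : n ⟨2, hmem⟩ = 4 := if_pos rfl
      rwa [h2] at h1
  · -- the odd part
    let n : {p // p ∈ m.primeFactors.erase 2} → ℕ := fun p => p
    have hpr : ∀ p : {p // p ∈ m.primeFactors.erase 2}, (p : ℕ).Prime := fun p =>
      Nat.prime_of_mem_primeFactors (Finset.mem_of_mem_erase p.2)
    have hdv : ∀ p : {p // p ∈ m.primeFactors.erase 2}, (p : ℕ) ∣ m := fun p =>
      Nat.dvd_of_mem_primeFactors (Finset.mem_of_mem_erase p.2)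
    have hn : Adm n := by
      intro p
      left
      exact ⟨hpr p, (hm p (hpr p) (hdv p)).resolve_left (Finset.ne_of_mem_erase p.2)⟩
    have hco : Pairwise (fun i j => (n i).Coprime (n j)) := by
      intro p q hpq
      have hne : (p : ℕ) ≠ q := fun h => hpq (Subtype.ext h)
      exact (Nat.coprime_primes (hpr p) (hpr q)).mpr hne
    have hdvd : ∏ p, n p ∣ m := by
      apply Fintype.prod_dvd_of_isRelPrime
      · intro i j hij
        exact Nat.coprime_iff_isRelPrime.mp (hco hij)
      · exact hdv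
    have hN0 : ∏ p, n p ≠ 0 := Finset.prod_ne_zero_iff.mpr fun p _ => (hpr p).ne_zero
    have hNZ : NeZero (∏ p, n p) := ⟨hN0⟩
    have hoddN : (∏ p, n p) % 2 = 1 := by
      by_contra hcon
      have h2 : 2 ∣ ∏ p, n p := by omega
      obtain ⟨p, _, hp⟩ := (Nat.prime_two.prime.dvd_finsetProd_iff _).mp h2
      exact (Finset.ne_of_mem_erase p.2) ((Nat.prime_dvd_prime_iff_eq Nat.prime_two (hpr p)).mp hp).symm
    have hprimes : ∀ p, p.Prime → p ∣ m → p ≠ 2 → p ∣ ∏ p, n p := by
      intro p hp hpm h2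
      have hmem : p ∈ m.primeFactors.erase 2 :=
        Finset.mem_erase.mpr ⟨h2, Nat.mem_primeFactors.mpr ⟨hp, hpm, hm0⟩⟩
      exact Finset.dvd_prod_of_mem n (mem_univ (⟨p, hmem⟩ : {p // p ∈ m.primeFactors.erase 2}))
    by_cases h2 : 2 ∣ m
    · have h2N : 2 * ∏ p, n p ∣ m := by
        apply Nat.Coprime.mul_dvd_of_dvd_of_dvd _ h2 hdvd
        rw [Nat.coprime_two_left]; exact Nat.odd_iff.mpr hoddN
      obtain ⟨k, hk⟩ := h2N
      have hNZ2 : NeZero (2 * ∏ p, n p) := ⟨Nat.mul_ne_zero two_ne_zero hN0⟩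
      have hk' : k * (2 * ∏ p, n p) = m := (mul_comm _ _).trans hk.symm
      have hr1 : Red m (2 * ∏ p, n p) k := by
        refine red_exists _ m _ k rfl hk' ?_ (fun h => absurd h h4)
        intro p hp hpm
        by_cases hp2 : p = 2
        · rw [hp2]; exact dvd_mul_right 2 _
        · exact (hprimes p hp hpm hp2).mul_left 2
      have hr2 : Red m (∏ p, n p) (k * 2) := Red.trans hk' hr1 (red_two hoddN)
      exact generated_of_full ((mul_assoc _ _ _).trans hk') hr2 (full_of_primes hn hco rfl) hs hne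
    · obtain ⟨k, hk⟩ := hdvd
      have hk' : k * ∏ p, n p = m := (mul_comm _ _).trans hk.symm
      refine generated_of_full hk' (red_exists _ m _ k rfl hk' ?_ (fun h => absurd h h4))
        (full_of_primes hn hco rfl) hs hne
      intro p hp hpm
      exact hprimes p hp hpm (fun h => h2 (h ▸ hpm))

end Pool.Agent.N992
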