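import Mathlib
import Pool.Agent.H916R2.Defs

/-!
# Modular characters

Let `ρ` be a complex representation of `SL(2, ℤ)`, trivial on `-1`, whose kernel is a congruence
subgroup, and let `b` be the multiset of the nonzero exponents `e` of the eigenvalues `exp (2 π i e)`
of `ρ (1 1; 0 1)`. It is the monodromy at infinity of a local system `V` on the modular curve of
level one; the other two special points contribute exponents `1/2`, `1/3`, `2/3`.
-/

namespace Pool.Agent.N992

open MatrixGroups Pool.Agent.H916R2

/-- The multiset `b` of nonzero residues modulo `m` is the multiset of nonzero exponents of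
`T = (1 1; 0 1)` in a representation of `PSL(2, ℤ)` whose kernel is a congruence subgroup. -/
def ModularSpectrum (m : ℕ) [NeZero m] (b : Multiset (ZMod m)) : Prop :=
  ∃ (n : ℕ) (ρ : SL(2, ℤ) →* Matrix (Fin n) (Fin n) ℂ) (e : Fin n → ZMod m),
    CongruenceSubgroup.IsCongruenceSubgroup ρ.ker ∧ ρ (-1) = 1 ∧
    ρ ModularGroup.T = Matrix.diagonal (fun i => ZMod.stdAddChar (e i)) ∧
    b = (Finset.univ.val.map e).filter (fun a => a ≠ 0)

/-- The Hodge characters which are a union of modular spectra and of residues killed by 12. -/
def ModularCharacter (m : ℕ) [NeZero m] (s : Multiset (ZMod m)) : Prop :=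
  IsHodge m s ∧ ∃ (L : List (Multiset (ZMod m))) (r : Multiset (ZMod m)),
    (∀ b ∈ L, ModularSpectrum m b) ∧ (∀ a ∈ r, 12 * a = 0) ∧ s = L.sum + r

end Pool.Agent.N992
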