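import Pool.Agent.N992.Setup

/-!
Generation and counting for odd distributions on a product of the rings `ZMod (n i)`.
-/

namespace Pool.Agent.N992

open Finset

set_option linter.unusedSectionVars false

namespace Gen

/-! ### one coordinate -/

section one

variable {k : ℕ}

lemma two_lt (hk : (k.Prime ∧ k % 4 = 3) ∨ k = 4) : 2 < k := by
  rcases hk with ⟨_, h⟩ | h
  · have := Nat.mod_le k 4; omega
  · omega

lemma one_ne_neg (hk : (k.Prime ∧ k % 4 = 3) ∨ k = 4) : (1 : ZMod k) ≠ -1 := by
  have : Fact (2 < k) := ⟨two_lt hk⟩
  exact (ZMod.neg_one_ne_one).symm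

lemma one_ne_zero' (hk : (k.Prime ∧ k % 4 = 3) ∨ k = 4) : (1 : ZMod k) ≠ 0 := by
  have : Fact (1 < k) := ⟨by have := two_lt hk; omega⟩
  exact one_ne_zero

lemma neg_one_ne_zero' (hk : (k.Prime ∧ k % 4 = 3) ∨ k = 4) : (-1 : ZMod k) ≠ 0 := by
  have := one_ne_zero' hk
  simpa using this

lemma not_unit_zero (hk : (k.Prime ∧ k % 4 = 3) ∨ k = 4) : ¬ IsUnit (0 : ZMod k) := by
  have : Fact (1 < k) := ⟨by have := two_lt hk; omega⟩
  exact not_isUnit_zero

lemma unit_four (h : k = 4) (a : ZMod k) : IsUnit a ↔ a = 1 ∨ a = -1 := by
  subst h
  constructor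
  · rintro ⟨u, rfl⟩
    revert u
    decide
  · rintro (rfl | rfl)
    · exact isUnit_one
    · exact isUnit_one.neg

lemma unit_prime (h : k.Prime) (a : ZMod k) : a = 0 ∨ IsUnit a := by
  have : Fact k.Prime := ⟨h⟩
  by_cases ha : a = 0
  · exact Or.inl ha
  · exact Or.inr (isUnit_iff_ne_zero.2 ha)

lemma not_sq (hk : (k.Prime ∧ k % 4 = 3) ∨ k = 4) : ¬ IsSquare (-1 : ZMod k) := by
  rcases hk with ⟨h, h3⟩ | h
  · have : Fact k.Prime := ⟨h⟩
    rw [ZMod.exists_sq_eq_neg_one_iff]
    simpa using h3
  · subst h
    decide

lemma neg_val_lt (hk : (k.Prime ∧ k % 4 = 3) ∨ k = 4) [NeZero k] (a : ZMod k) (h0 : a ≠ 0)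
    (hu : k = 4 → a = 1 ∨ a = -1) (h1 : a ≠ 1) (h2 : a ≠ -1) (h : ¬ 2 * a.val < k) :
    2 * (-a).val < k := by
  rw [ZMod.neg_val, if_neg h0]
  rcases hk with ⟨_, h3⟩ | h4
  · have := a.val_lt
    omega
  · rcases hu h4 with h' | h'
    · exact absurd h' h1
    · exact absurd h' h2

lemma neg_val_not_lt [NeZero k] (a : ZMod k) (h0 : a ≠ 0) (h : 2 * a.val < k) :
    ¬ 2 * (-a).val < k := by
  rw [ZMod.neg_val, if_neg h0]
  have := a.val_lt
  omega

/-- weight of a coordinate -/
def wt (k : ℕ) (v : ZMod k) : ℕ := if k = 4 then (if v = 2 then 1 else if v = 0 then 0 else 2) else 0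

lemma wt_two (h : k = 4) : wt k 2 = 1 := by subst h; decide

lemma wt_zero : wt k 0 = 0 := by
  by_cases h : k = 4
  · subst h; decide
  · simp [wt, h]

lemma wt_smul (v : ZMod k) : wt k (2 • v) ≤ wt k v := by
  by_cases h : k = 4
  · subst h; revert v; decide
  · simp [wt, h]

/-- admissible value of a coordinate -/
def ok (k : ℕ) (v : ZMod k) : Prop := v = 0 ∨ IsUnit v ∨ (k = 4 ∧ v = 2)

lemma ok_two (hk : (k.Prime ∧ k % 4 = 3) ∨ k = 4) {v : ZMod k} (hv : ok k v) : ok k (2 • v) := by
  rcases hv with h | h | ⟨h4, h⟩
  · left; rw [h]; simp
  · rcases hk with ⟨hp, h3⟩ | h4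
    · rcases unit_prime hp (2 • v) with h' | h'
      · exact Or.inl h'
      · exact Or.inr (Or.inl h')
    · right; right
      refine ⟨h4, ?_⟩
      rcases (unit_four h4 v).1 h with h' | h'
      · rw [h']; subst h4; decide
      · rw [h']; subst h4; decide
  · left; subst h4; rw [h]; decide

lemma ok_prime {p : ℕ} (hp : p.Prime) (hp3 : p % 4 = 3) (hk : (k.Prime ∧ k % 4 = 3) ∨ k = 4)
    {v : ZMod k} (hv : v = 0 ∨ IsUnit v) : ok k (p • v) := by
  rcases hv with h | h
  · left; rw [h]; simp
  · rcases hk with ⟨hp', h3⟩ | h4
    · rcases unit_prime hp' (p • v) with h' | h'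
      · exact Or.inl h'
      · exact Or.inr (Or.inl h')
    · right; left
      rw [nsmul_eq_mul]
      refine IsUnit.mul ?_ h
      rw [ZMod.isUnit_iff_coprime, h4]
      have : Nat.Coprime p 2 := by
        rw [Nat.coprime_primes hp Nat.prime_two]; rintro rfl; omega
      exact Nat.Coprime.pow_right 2 this

lemma unit_of_smul {m : ℕ} {v : ZMod k} (h : IsUnit (m • v)) : IsUnit v := by
  rw [nsmul_eq_mul] at h
  exact isUnit_of_mul_isUnit_right h

end one

section

variable {ι : Type} [Fintype ι] [LinearOrder ι] (n : ι → ℕ) [∀ i, NeZero (n i)]

/-- unit support -/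
noncomputable def U (x : ∀ i, ZMod (n i)) : Finset ι := by
  classical exact univ.filter (fun i => IsUnit (x i))

lemma mem_U (x : ∀ i, ZMod (n i)) (i : ι) : i ∈ U n x ↔ IsUnit (x i) := by simp [U]

/-- support exactly `T`, unit coordinates -/
def GT (T : Finset ι) (x : ∀ i, ZMod (n i)) : Prop :=
  (∀ i ∈ T, IsUnit (x i)) ∧ ∀ i, i ∉ T → x i = 0

/-- total weight -/
def mu (x : ∀ i, ZMod (n i)) : ℕ := ∑ i, wt (n i) (x i)

variable {n}

lemma small (hn : Adm n) {Q : Type*} [AddCommGroup Q]
    (c : (∀ i, ZMod (n i)) → Q) (hc : PiDist n c) (S : AddSubgroup Q) (T : Finset ι)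
    (P : ∀ T' ⊂ T, ∀ x, GT n T' x → c x ∈ S) :
    ∀ (N : ℕ) (x : ∀ i, ZMod (n i)), mu n x = N → (∀ i, ok (n i) (x i)) → U n x ⊂ T → c x ∈ S := by
  intro N
  induction N using Nat.strong_induction_on with
  | _ N ih =>
    intro x hN hok hU
    by_cases hx2 : ∃ i, n i = 4 ∧ x i = 2
    · obtain ⟨i, h4, hi⟩ := hx2
      set z := Function.update x i 0 with hz
      have hzi : z i = 0 := by simp [hz]
      have hzj : ∀ j, j ≠ i → z j = x j := fun j hj => by simp [hz, hj]
      have hfour := hc.four i h4 z
      have hx : Function.update z i (z i + 2) = x := by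
        rw [hzi, hz, Function.update_idem, zero_add, ← hi, Function.update_eq_self]
      rw [hx] at hfour
      have hmu : mu n z < mu n x := by
        apply sum_lt_sum
        · intro j _
          by_cases hj : j = i
          · subst hj; rw [hzi, wt_zero]; exact Nat.zero_le _
          · rw [hzj j hj]
        · refine ⟨i, mem_univ _, ?_⟩
          rw [hzi, wt_zero, hi, wt_two h4]; norm_num
      have hzok : ∀ j, ok (n j) (z j) := by
        intro j
        by_cases hj : j = i
        · subst hj; left; exact hzi
        · rw [hzj j hj]; exact hok j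
      have hzU : U n z ⊆ U n x := by
        intro j hj
        rw [mem_U] at hj ⊢
        by_cases hji : j = i
        · subst hji; rw [hzi] at hj; exact absurd hj (not_unit_zero (hn _))
        · rwa [hzj j hji] at hj
      have c1 : c z ∈ S := ih (mu n z) (hN ▸ hmu) z rfl hzok (lt_of_le_of_lt hzU hU)
      have hmu2 : mu n (2 • z) < mu n x := by
        refine lt_of_le_of_lt ?_ hmu
        apply sum_le_sum
        intro j _
        exact wt_smul (z j)
      have c2 : c (2 • z) ∈ S := by
        refine ih (mu n (2 • z)) (hN ▸ hmu2) (2 • z) rfl (fun j => ok_two (hn j) (hzok j)) ?_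
        refine lt_of_le_of_lt (le_trans ?_ hzU) hU
        intro j hj
        rw [mem_U] at hj ⊢
        exact unit_of_smul hj
      have : c x = c (2 • z) - c z := by rw [← hfour]; abel
      rw [this]
      exact S.sub_mem c2 c1
    · push Not at hx2
      refine P (U n x) hU x ⟨fun i hi => (mem_U n x i).1 hi, fun i hi => ?_⟩
      rw [mem_U] at hi
      rcases hok i with h | h | ⟨h4, h⟩
      · exact h
      · exact absurd h hi
      · exact absurd h (hx2 i h4)

/-- number of coordinates `1` or `-1` -/
def cnt (x : ∀ i, ZMod (n i)) : ℕ := (univ.filter (fun i => x i = 1 ∨ x i = -1)).card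

lemma GT_update {T : Finset ι} {x : ∀ i, ZMod (n i)} (hx : GT n T x) {i : ι} (hi : i ∈ T)
    {j : ZMod (n i)} (hj : IsUnit j) : GT n T (Function.update x i j) := by
  refine ⟨fun l hl => ?_, fun l hl => ?_⟩
  · by_cases h : l = i
    · subst h; simpa using hj
    · simpa [h] using hx.1 l hl
  · have : l ≠ i := fun h => hl (h ▸ hi)
    simpa [this] using hx.2 l hl

lemma flip_one (hn : Adm n) {Q : Type*} [AddCommGroup Q]
    (c : (∀ i, ZMod (n i)) → Q) (hc : PiDist n c) (S : AddSubgroup Q) (T : Finset ι)
    (P : ∀ T' ⊂ T, ∀ x, GT n T' x → c x ∈ S) (k : ℕ)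
    (ih : ∀ y, GT n T y → cnt y < k → c y ∈ S) (x : ∀ i, ZMod (n i)) (hx : GT n T x)
    (hk : cnt x ≤ k) (i : ι) (hi : x i = 1 ∨ x i = -1) :
    c x + c (Function.update x i (- x i)) ∈ S := by
  have hiT : i ∈ T := by
    by_contra h
    have := hx.2 i h
    rcases hi with h' | h'
    · exact one_ne_zero' (hn i) (h' ▸ this)
    · exact neg_one_ne_zero' (hn i) (h' ▸ this)
  have small' := small hn c hc S T P
  rcases hn i with ⟨hp, h3⟩ | h4
  · have h1 := hc.dist i hp x
    have hU : ∀ y : (∀ i, ZMod (n i)), (∀ j, IsUnit (y j) → IsUnit (x j)) → ¬ IsUnit (y i) → U n y ⊂ T := by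
      intro y hy hyi
      refine (Finset.ssubset_iff_of_subset ?_).2 ⟨i, hiT, by rwa [mem_U]⟩
      intro j hj
      rw [mem_U] at hj
      by_contra hjT
      have := hy j hj
      rw [hx.2 j hjT] at this
      exact not_unit_zero (hn j) this
    have hx0 : ∀ j, x j = 0 ∨ IsUnit (x j) := fun j => by
      by_cases hj : j ∈ T
      · exact Or.inr (hx.1 j hj)
      · exact Or.inl (hx.2 j hj)
    have h2 : c ((n i) • x) ∈ S := by
      refine small' _ _ rfl (fun j => ok_prime hp h3 (hn j) (hx0 j)) (hU _ ?_ ?_)
      · intro j hj
        exact unit_of_smul hj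
      · have : ((n i) • x) i = 0 := by simp
        rw [this]; exact not_unit_zero (hn i)
    have h0 : c (Function.update x i 0) ∈ S := by
      refine small' _ _ rfl (fun j => ?_) (hU _ ?_ ?_)
      · by_cases hj : j = i
        · subst hj; left; simp
        · rw [Function.update_of_ne hj]
          rcases hx0 j with h | h
          · exact Or.inl h
          · exact Or.inr (Or.inl h)
      · intro j hj
        by_cases hji : j = i
        · subst hji
          rw [Function.update_self] at hj
          exact absurd hj (not_unit_zero (hn _))
        · rwa [Function.update_of_ne hji] at hj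
      · rw [Function.update_self]; exact not_unit_zero (hn _)
    have hxi0 : x i ≠ 0 := by
      intro h
      have := hx.1 i hiT
      rw [h] at this
      exact not_unit_zero (hn i) this
    have hne : - x i ≠ x i := by
      rcases hi with h | h
      · rw [h]; exact (one_ne_neg (hn i)).symm
      · rw [h, neg_neg]; exact one_ne_neg (hn i)
    have e1 := Finset.add_sum_erase univ (fun j => c (Function.update x i j)) (mem_univ (0 : ZMod (n i)))
    have e2 := Finset.add_sum_erase (univ.erase (0 : ZMod (n i))) (fun j => c (Function.update x i j))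
      (a := x i) (by simp [hxi0])
    have e3 := Finset.add_sum_erase ((univ.erase (0 : ZMod (n i))).erase (x i))
      (fun j => c (Function.update x i j)) (a := - x i) (by simp [hxi0, hne])
    have h4 : ∑ j ∈ (((univ.erase (0 : ZMod (n i))).erase (x i)).erase (- x i)),
        c (Function.update x i j) ∈ S := by
      apply S.sum_mem
      intro j hj
      simp only [mem_erase, mem_univ, and_true] at hj
      obtain ⟨hj1, hj2, hj3⟩ := hj
      have hju : IsUnit j := (unit_prime hp j).resolve_left hj3
      refine ih _ (GT_update hx hiT hju) (lt_of_lt_of_le ?_ hk)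
      have hj' : j ≠ 1 ∧ j ≠ -1 := by
        rcases hi with h | h
        · rw [h] at hj1 hj2; exact ⟨hj2, hj1⟩
        · rw [h] at hj1 hj2; rw [neg_neg] at hj1; exact ⟨hj1, hj2⟩
      apply Finset.card_lt_card
      refine (Finset.ssubset_iff_of_subset ?_).2 ⟨i, by simpa using hi, ?_⟩
      · intro l hl
        simp only [mem_filter, mem_univ, true_and] at hl ⊢
        by_cases hli : l = i
        · subst hli; exact hi
        · rwa [Function.update_of_ne hli] at hl
      · simp only [mem_filter, mem_univ, true_and, Function.update_self]
        rintro (h | h)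
        · exact hj'.1 h
        · exact hj'.2 h
    have hxx : Function.update x i (x i) = x := Function.update_eq_self _ _
    simp only [hxx] at e2
    have : c x + c (Function.update x i (- x i)) = c ((n i) • x) - c (Function.update x i 0) -
        ∑ j ∈ (((univ.erase (0 : ZMod (n i))).erase (x i)).erase (- x i)),
        c (Function.update x i j) := by
      rw [← h1, ← e1, ← e2, ← e3]; abel
    rw [this]
    exact S.sub_mem (S.sub_mem h2 h0) h4
  · have h1 := hc.four i h4 x
    have e : x i + 2 = - x i := by
      have : ∀ (k : ℕ) (hk : k = 4) (v : ZMod k), (v = 1 ∨ v = -1) → v + 2 = -v := by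
        intro k hk; subst hk; decide
      exact this _ h4 _ hi
    rw [e] at h1
    rw [h1]
    refine small' _ _ rfl (fun j => ok_two (hn j) ?_) ?_
    · by_cases hj : j ∈ T
      · exact Or.inr (Or.inl (hx.1 j hj))
      · exact Or.inl (hx.2 j hj)
    · refine (Finset.ssubset_iff_of_subset ?_).2 ⟨i, hiT, ?_⟩
      · intro j hj
        rw [mem_U] at hj
        by_contra hjT
        have := unit_of_smul (m := 2) (v := x j) hj
        rw [hx.2 j hjT] at this
        exact not_unit_zero (hn j) this
      · rw [mem_U]
        have : ∀ (k : ℕ) (hk : k = 4) (v : ZMod k), ¬ IsUnit (2 • v) := by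
          intro k hk; subst hk
          intro v hv
          rw [unit_four rfl] at hv
          revert v; decide
        exact this _ h4 (x i)

/-- change of signs -/
def fl (V : Finset ι) (x : ∀ i, ZMod (n i)) : ∀ i, ZMod (n i) := fun i => if i ∈ V then - x i else x i

lemma GT_fl {T : Finset ι} {x : ∀ i, ZMod (n i)} (hx : GT n T x) (V : Finset ι) :
    GT n T (fl V x) := by
  refine ⟨fun i hi => ?_, fun i hi => ?_⟩
  · unfold fl; split_ifs
    · exact (hx.1 i hi).neg
    · exact hx.1 i hi
  · unfold fl; split_ifs
    · rw [hx.2 i hi, neg_zero]
    · exact hx.2 i hi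

lemma fl_pm {V : Finset ι} {x : ∀ i, ZMod (n i)} (i : ι) :
    (fl V x i = 1 ∨ fl V x i = -1) ↔ (x i = 1 ∨ x i = -1) := by
  unfold fl; split_ifs
  · constructor
    · rintro (h | h)
      · right; rw [← h, neg_neg]
      · left; exact neg_injective h
    · rintro (h | h)
      · right; rw [h]
      · left; rw [h, neg_neg]
  · rfl

lemma cnt_fl {V : Finset ι} {x : ∀ i, ZMod (n i)} : cnt (fl V x) = cnt x := by
  unfold cnt
  congr 1
  ext i
  simp only [mem_filter, mem_univ, true_and]
  exact fl_pm i

lemma flip_many (hn : Adm n) {Q : Type*} [AddCommGroup Q]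
    (c : (∀ i, ZMod (n i)) → Q) (hc : PiDist n c) (S : AddSubgroup Q) (T : Finset ι)
    (P : ∀ T' ⊂ T, ∀ x, GT n T' x → c x ∈ S) (k : ℕ)
    (ih : ∀ y, GT n T y → cnt y < k → c y ∈ S) (x : ∀ i, ZMod (n i)) (hx : GT n T x)
    (hk : cnt x ≤ k) (V : Finset ι) (hV : ∀ i ∈ V, x i = 1 ∨ x i = -1) :
    c (fl V x) ∈ S → c x ∈ S := by
  induction V using Finset.induction_on with
  | empty =>
    intro h
    have : fl ∅ x = x := by ext i; simp [fl]
    rwa [this] at h
  | insert i V hi ihV =>
    intro h
    apply ihV (fun j hj => hV j (mem_insert_of_mem hj))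
    have e : fl (insert i V) x = Function.update (fl V x) i (- fl V x i) := by
      funext j
      by_cases hj : j = i
      · subst hj
        simp [fl, hi]
      · simp [fl, hj]
    have := flip_one hn c hc S T P k ih (fl V x) (GT_fl hx V) (cnt_fl.trans_le hk) i
      ((fl_pm i).2 (hV i (mem_insert_self i V)))
    rw [e] at h
    have e2 : c (fl V x) = (c (fl V x) + c (Function.update (fl V x) i (- fl V x i))) -
      c (Function.update (fl V x) i (- fl V x i)) := by abel
    rw [e2]
    exact S.sub_mem this h

end

end Gen

open Gen

variable {ι : Type} [Fintype ι] (n : ι → ℕ) [∀ i, NeZero (n i)]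

/-- G1: generation. -/
theorem gen_pi [LinearOrder ι] (hn : Adm n) {Q : Type*} [AddCommGroup Q]
    (c : (∀ i, ZMod (n i)) → Q) (hc : PiDist n c) (S : AddSubgroup Q)
    (hB : ∀ x, IsB n x → c x ∈ S)
    (hrel : ∀ T : Finset ι, Even T.card → 
      ∑ x ∈ QQ n T, c x ∈ AddSubgroup.closure {q | ∃ T' : Finset ι, T' ⊂ T ∧ q = ∑ x ∈ QQ n T', c x}) :
    ∀ x, c x ∈ S := by
  classical
  -- it suffices to treat the elements with unit support
  have main : ∀ T : Finset ι, ∀ x, GT n T x → c x ∈ S := by
    intro T
    induction T using Finset.strongInduction with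
    | _ T P =>
      have hGQ : ∀ T' : Finset ι, ∀ x ∈ QQ n T', GT n T' x := by
        intro T' x hx
        unfold QQ at hx
        rw [Fintype.mem_piFinset] at hx
        refine ⟨fun i hi => ?_, fun i hi => ?_⟩
        · have := hx i
          rw [if_pos hi] at this
          unfold Hf at this
          simp only [mem_filter, mem_univ, true_and] at this
          exact this.1
        · have := hx i
          rw [if_neg hi] at this
          simpa using this
      suffices H : ∀ (k : ℕ) (x : ∀ i, ZMod (n i)), GT n T x → cnt x = k → c x ∈ S from
        fun x hx => H (cnt x) x hx rfl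
      intro k
      induction k using Nat.strong_induction_on with
      | _ k ihk =>
        have ih : ∀ y, GT n T y → cnt y < k → c y ∈ S := fun y hy hk => ihk (cnt y) hk y hy rfl
        -- first case
        have caseA : ∀ x : (∀ i, ZMod (n i)), GT n T x → cnt x = k →
            (∃ i, x i ≠ 0 ∧ x i ≠ 1 ∧ x i ≠ -1 ∧ 2 * (x i).val < n i ∧
              ∀ j < i, x j = 0 ∨ x j = 1 ∨ x j = -1) → c x ∈ S := by
          intro x hx hk ⟨i, hi0, hi1, hi2, hi3, hi4⟩
          refine flip_many hn c hc S T P k ih x hx hk.le (univ.filter (fun i => x i = -1)) ?_ ?_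
          · intro j hj
            simp only [mem_filter, mem_univ, true_and] at hj
            exact Or.inr hj
          · apply hB
            have hfl : ∀ j, fl (univ.filter (fun i => x i = -1)) x j = if x j = -1 then 1 else x j := by
              intro j
              unfold fl
              simp only [mem_filter, mem_univ, true_and]
              split_ifs with h
              · rw [h, neg_neg]
              · rfl
            refine ⟨fun j => ?_, Or.inl ⟨i, ?_, ?_, ?_, ?_⟩⟩
            · rw [hfl]
              split_ifs with h
              · exact Or.inr ⟨isUnit_one, one_ne_neg (hn j)⟩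
              · by_cases hj : j ∈ T
                · exact Or.inr ⟨hx.1 j hj, h⟩
                · exact Or.inl (hx.2 j hj)
            · rw [hfl, if_neg hi2]; exact hi0
            · rw [hfl, if_neg hi2]; exact hi1
            · rw [hfl, if_neg hi2]; exact hi3
            · intro j hj
              rw [hfl]
              split_ifs with h
              · exact Or.inr rfl
              · rcases hi4 j hj with h' | h' | h'
                · exact Or.inl h'
                · exact Or.inr h'
                · exact absurd h' h
        intro x hx hk
        by_cases hA : ∃ i, x i ≠ 0 ∧ x i ≠ 1 ∧ x i ≠ -1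
        · -- the least such index
          have hne : (univ.filter (fun i => x i ≠ 0 ∧ x i ≠ 1 ∧ x i ≠ -1)).Nonempty := by
            obtain ⟨i, hi⟩ := hA
            exact ⟨i, by simpa using hi⟩
          set i := (univ.filter (fun i => x i ≠ 0 ∧ x i ≠ 1 ∧ x i ≠ -1)).min' hne with hi
          have him : x i ≠ 0 ∧ x i ≠ 1 ∧ x i ≠ -1 := by
            have := Finset.min'_mem _ hne
            simpa only [mem_filter, mem_univ, true_and] using this
          have hlt : ∀ j < i, x j = 0 ∨ x j = 1 ∨ x j = -1 := by
            intro j hj
            by_contra hcon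
            push Not at hcon
            have := Finset.min'_le (univ.filter (fun i => x i ≠ 0 ∧ x i ≠ 1 ∧ x i ≠ -1)) j
              (by simpa using hcon)
            exact absurd hj (not_lt.2 this)
          by_cases hv : 2 * (x i).val < n i
          · exact caseA x hx hk ⟨i, him.1, him.2.1, him.2.2, hv, hlt⟩
          · have hxu : IsUnit (x i) := by
              by_cases hiT : i ∈ T
              · exact hx.1 i hiT
              · exact absurd (hx.2 i hiT) him.1
            have hneg : c (-x) ∈ S := by
              refine caseA (-x) ⟨fun j hj => (hx.1 j hj).neg, fun j hj => ?_⟩ ?_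
                ⟨i, ?_, ?_, ?_, ?_, ?_⟩
              · rw [Pi.neg_apply, hx.2 j hj, neg_zero]
              · rw [← hk]
                unfold cnt
                congr 1
                ext j
                simp only [mem_filter, mem_univ, true_and, Pi.neg_apply]
                constructor
                · rintro (h | h)
                  · right; rw [← h, neg_neg]
                  · left; exact neg_injective h
                · rintro (h | h)
                  · right; rw [h]
                  · left; rw [h, neg_neg]
              · simpa using him.1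
              · intro h; apply him.2.2; rw [← h]; simp
              · intro h; apply him.2.1; exact neg_injective h
              · rw [Pi.neg_apply]
                exact neg_val_lt (hn i) (x i) him.1 (fun h4 => (unit_four h4 _).1 hxu) him.2.1 him.2.2 hv
              · intro j hj
                rw [Pi.neg_apply]
                rcases hlt j hj with h | h | h
                · left; rw [h, neg_zero]
                · right; right; rw [h]
                · right; left; rw [h, neg_neg]
            rw [hc.neg] at hneg
            exact (S.neg_mem_iff).1 hneg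
        · push Not at hA
          have hpm : ∀ i ∈ T, x i = 1 ∨ x i = -1 := by
            intro i hi
            by_cases h1 : x i = 1
            · exact Or.inl h1
            · refine Or.inr (hA i ?_ h1)
              intro h0
              have := hx.1 i hi
              rw [h0] at this
              exact not_unit_zero (hn i) this
          -- the indicator of `T`
          set e : ∀ i, ZMod (n i) := fun i => if i ∈ T then 1 else 0 with he
          have hfe : fl (univ.filter (fun i => x i = -1)) x = e := by
            funext j
            simp only [fl, he, mem_filter, mem_univ, true_and]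
            by_cases hj : j ∈ T
            · rw [if_pos hj]
              split_ifs with h
              · rw [h, neg_neg]
              · exact (hpm j hj).resolve_right h
            · rw [if_neg hj, hx.2 j hj, neg_zero]
              simp
          refine flip_many hn c hc S T P k ih x hx hk.le (univ.filter (fun i => x i = -1)) ?_ ?_
          · intro j hj
            simp only [mem_filter, mem_univ, true_and] at hj
            exact Or.inr hj
          rw [hfe]
          have hecard : (univ.filter (fun i => e i = 1)) = T := by
            ext i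
            simp only [mem_filter, mem_univ, true_and, he]
            constructor
            · intro h
              by_contra hi
              rw [if_neg hi] at h
              exact one_ne_zero' (hn i) h.symm
            · intro h; rw [if_pos h]
          rcases Nat.even_or_odd T.card with hev | hod
          · -- the relation
            have h1 := hrel T hev
            have h2 : AddSubgroup.closure {q | ∃ T' : Finset ι, T' ⊂ T ∧ q = ∑ x ∈ QQ n T', c x} ≤ S := by
              rw [AddSubgroup.closure_le]
              rintro q ⟨T', hT', rfl⟩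
              exact S.sum_mem fun y hy => P T' hT' y (hGQ T' y hy)
            have h3 := h2 h1
            have heQ : e ∈ QQ n T := by
              unfold QQ
              rw [Fintype.mem_piFinset]
              intro i
              simp only [he]
              by_cases hi : i ∈ T
              · rw [if_pos hi, if_pos hi]
                unfold Hf
                simp only [mem_filter, mem_univ, true_and]
                exact ⟨isUnit_one, ⟨1, by simp⟩⟩
              · rw [if_neg hi, if_neg hi]; simp
            have h4 := Finset.add_sum_erase (QQ n T) c heQ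
            have hkT : T.card ≤ k := by
              rw [← hk]
              unfold cnt
              apply Finset.card_le_card
              intro i hi
              simpa using hpm i hi
            have h5 : ∑ y ∈ (QQ n T).erase e, c y ∈ S := by
              apply S.sum_mem
              intro y hy
              rw [mem_erase] at hy
              have hyG := hGQ T y hy.2
              refine ih y hyG (lt_of_lt_of_le ?_ hkT)
              -- no coordinate is `-1`, and some coordinate is not `1`
              have hm : ∀ i, y i ≠ -1 := by
                intro i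
                by_cases hi : i ∈ T
                · have := hy.2
                  unfold QQ at this
                  rw [Fintype.mem_piFinset] at this
                  have := this i
                  rw [if_pos hi] at this
                  unfold Hf at this
                  simp only [mem_filter, mem_univ, true_and] at this
                  intro h
                  rw [h] at this
                  exact not_sq (hn i) this.2
                · rw [hyG.2 i hi]
                  exact (neg_one_ne_zero' (hn i)).symm
              obtain ⟨i, hi⟩ : ∃ i, y i ≠ e i := by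
                by_contra hcon
                push Not at hcon
                exact hy.1 (funext hcon)
              have hiT : i ∈ T := by
                by_contra hiT
                apply hi
                rw [hyG.2 i hiT, he]
                simp [hiT]
              apply Finset.card_lt_card
              refine (Finset.ssubset_iff_of_subset ?_).2 ⟨i, hiT, ?_⟩
              · intro j hj
                simp only [mem_filter, mem_univ, true_and] at hj
                by_contra hjT
                rw [hyG.2 j hjT] at hj
                rcases hj with h | h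
                · exact one_ne_zero' (hn j) h.symm
                · exact neg_one_ne_zero' (hn j) h.symm
              · simp only [mem_filter, mem_univ, true_and]
                rintro (h | h)
                · apply hi; rw [h, he]; simp [hiT]
                · exact hm i h
            have h6 : c e = (∑ y ∈ QQ n T, c y) - ∑ y ∈ (QQ n T).erase e, c y := by
              rw [← h4]; abel
            rw [h6]
            exact S.sub_mem h3 h5
          · apply hB
            refine ⟨fun i => ?_, Or.inr ⟨fun i => ?_, ?_⟩⟩
            · by_cases hi : i ∈ T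
              · right; rw [he]; simp only [if_pos hi]
                exact ⟨isUnit_one, one_ne_neg (hn i)⟩
              · left; rw [he]; simp [hi]
            · by_cases hi : i ∈ T
              · right; rw [he]; simp [hi]
              · left; rw [he]; simp [hi]
            · rw [hecard]; exact hod
  intro x
  have hok : ∀ i, ok (n i) (x i) := by
    intro i
    rcases hn i with ⟨hp, _⟩ | h4
    · rcases unit_prime hp (x i) with h | h
      · exact Or.inl h
      · exact Or.inr (Or.inl h)
    · have : ∀ (k : ℕ) (hk : k = 4) (v : ZMod k), v = 0 ∨ (v = 1 ∨ v = -1) ∨ v = 2 := by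
        intro k hk; subst hk; decide
      rcases this _ h4 (x i) with h | h | h
      · exact Or.inl h
      · exact Or.inr (Or.inl ((unit_four h4 _).2 h))
      · exact Or.inr (Or.inr ⟨h4, h⟩)
  by_cases hU : U n x = univ
  · refine main univ x ⟨fun i _ => ?_, fun i hi => absurd (mem_univ i) hi⟩
    rw [← mem_U n x i, hU]; exact mem_univ i
  · exact small hn c hc S univ (fun T' _ => main T') _ x rfl hok
      (Finset.ssubset_univ_iff.2 hU)

/-- G2: counting. -/
theorem card_B_le [LinearOrder ι] [Nonempty ι] (hn : Adm n) (B : Finset (∀ i, ZMod (n i)))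
    (hB : ∀ x ∈ B, IsB n x) : 2 * B.card ≤ ∏ i, Nat.totient (n i) := by
  classical
  -- the ambient set
  set A : ∀ i, Finset (ZMod (n i)) := fun i =>
    insert 0 ((univ.filter (fun a : ZMod (n i) => IsUnit a)).erase (-1)) with hA
  have hAcard : ∀ i, (A i).card = Nat.totient (n i) := by
    intro i
    have hunits : (univ.filter (fun a : ZMod (n i) => IsUnit a)).card = Nat.totient (n i) := by
      rw [← ZMod.card_units_eq_totient, ← Finset.card_univ]
      symm
      apply Finset.card_bij (fun (u : (ZMod (n i))ˣ) _ => (u : ZMod (n i)))
      · intro u _; simp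
      · intro u _ v _ h; exact Units.ext h
      · intro a ha
        simp only [mem_filter, mem_univ, true_and] at ha
        exact ⟨ha.unit, mem_univ _, rfl⟩
    rw [hA]
    simp only
    rw [card_insert_of_notMem, card_erase_of_mem, hunits]
    · have : 0 < Nat.totient (n i) := Nat.totient_pos.2 (by have := two_lt (hn i); omega)
      omega
    · simp
    · intro h
      rw [mem_erase, mem_filter] at h
      exact not_unit_zero (hn i) h.2.2
  set X := Fintype.piFinset A with hX
  have hXcard : X.card = ∏ i, Nat.totient (n i) := by
    rw [hX, Fintype.card_piFinset]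
    exact prod_congr rfl fun i _ => hAcard i
  have hmX : ∀ x : (∀ i, ZMod (n i)), x ∈ X ↔ ∀ i, x i = 0 ∨ (IsUnit (x i) ∧ x i ≠ -1) := by
    intro x
    rw [hX, Fintype.mem_piFinset]
    apply forall_congr'
    intro i
    rw [hA]
    simp only [mem_insert, mem_erase, mem_filter, mem_univ, true_and]
    tauto
  -- the involution
  obtain ⟨i₀⟩ := ‹Nonempty ι›
  set σ : (∀ i, ZMod (n i)) → (∀ i, ZMod (n i)) := fun x =>
    if ∀ i, x i = 0 ∨ x i = 1 then Function.update x i₀ (1 - x i₀)
    else fun i => if x i = 0 ∨ x i = 1 then x i else - x i with hσ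
  have hσ1 : ∀ x, (∀ i, x i = 0 ∨ x i = 1) → σ x = Function.update x i₀ (1 - x i₀) := by
    intro x hx; rw [hσ]; simp only [if_pos hx]
  have hσ2 : ∀ x, ¬ (∀ i, x i = 0 ∨ x i = 1) →
      σ x = fun i => if x i = 0 ∨ x i = 1 then x i else - x i := by
    intro x hx; rw [hσ]; simp only [if_neg hx]
  have h01 : ∀ x : (∀ i, ZMod (n i)), (∀ i, x i = 0 ∨ x i = 1) →
      ∀ i, Function.update x i₀ (1 - x i₀) i = 0 ∨ Function.update x i₀ (1 - x i₀) i = 1 := by
    intro x hx i
    by_cases hi : i = i₀
    · subst hi
      rw [Function.update_self]
      rcases hx i with h | h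
      · right; rw [h, sub_zero]
      · left; rw [h, sub_self]
    · rw [Function.update_of_ne hi]; exact hx i
  have hpar : ∀ (i : ι) (v : ZMod (n i)), (IsUnit v ∧ v ≠ -1) → ¬ (v = 0 ∨ v = 1) →
      ¬ (-v = 0 ∨ -v = 1) := by
    intro i v hv hv' h
    rcases h with h | h
    · exact hv' (Or.inl (neg_eq_zero.1 h))
    · exact hv.2 (by rw [← h, neg_neg])
  have hmem2 : ∀ x ∈ X, ¬ (∀ i, x i = 0 ∨ x i = 1) →
      (∀ i, (¬ (x i = 0 ∨ x i = 1)) → ¬ (σ x i = 0 ∨ σ x i = 1)) := by
    intro x hx hx2 i hi
    rw [hσ2 x hx2]
    simp only [if_neg hi]
    refine hpar i (x i) ?_ hi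
    exact ((hmX x).1 hx i).resolve_left (fun h => hi (Or.inl h))
  have hinv : ∀ x ∈ X, σ (σ x) = x := by
    intro x hx
    by_cases h : ∀ i, x i = 0 ∨ x i = 1
    · rw [hσ1 x h, hσ1 _ (h01 x h)]
      rw [Function.update_self, Function.update_idem]
      simp
    · have h' : ¬ ∀ i, σ x i = 0 ∨ σ x i = 1 := by
        intro hcon
        apply h
        intro i
        by_contra hi
        exact hmem2 x hx h i hi (hcon i)
      rw [hσ2 _ h']
      funext i
      by_cases hi : x i = 0 ∨ x i = 1
      · have e : σ x i = x i := by rw [hσ2 x h]; simp only [if_pos hi]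
        simp only [e, if_pos hi]
      · have e : σ x i = - x i := by rw [hσ2 x h]; simp only [if_neg hi]
        have hi' := hmem2 x hx h i hi
        simp only [if_neg hi']
        rw [e, neg_neg]
  have hmaps : ∀ x ∈ X, σ x ∈ X := by
    intro x hx
    rw [hmX]
    intro i
    by_cases h : ∀ i, x i = 0 ∨ x i = 1
    · rw [hσ1 x h]
      rcases h01 x h i with h' | h'
      · exact Or.inl h'
      · right; rw [h']; exact ⟨isUnit_one, one_ne_neg (hn i)⟩
    · rw [hσ2 x h]
      simp only
      split_ifs with hi
      · exact (hmX x).1 hx i
      · right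
        have := ((hmX x).1 hx i).resolve_left (fun h => hi (Or.inl h))
        refine ⟨this.1.neg, ?_⟩
        intro h
        exact hi (Or.inr (neg_injective h))
  have hnot : ∀ x ∈ X, IsB n x → ¬ IsB n (σ x) := by
    intro x hx hb hb'
    by_cases h : ∀ i, x i = 0 ∨ x i = 1
    · have hod : Odd (univ.filter (fun i => x i = 1)).card := by
        rcases hb.2 with ⟨i, h0, h1, _⟩ | ⟨_, h1⟩
        · rcases h i with h' | h'
          · exact absurd h' h0
          · exact absurd h' h1
        · exact h1
      have hs := h01 x h
      rw [hσ1 x h] at hb'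
      have hod' : Odd (univ.filter (fun i => Function.update x i₀ (1 - x i₀) i = 1)).card := by
        rcases hb'.2 with ⟨i, h0, h1, _⟩ | ⟨_, h1⟩
        · rcases hs i with h' | h'
          · exact absurd h' h0
          · exact absurd h' h1
        · exact h1
      rcases h i₀ with h0 | h0
      · have e : (univ.filter (fun i => Function.update x i₀ (1 - x i₀) i = 1)) =
            insert i₀ (univ.filter (fun i => x i = 1)) := by
          ext i
          simp only [mem_filter, mem_univ, true_and, mem_insert]
          by_cases hi : i = i₀
          · subst hi; simp [h0]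
          · rw [Function.update_of_ne hi]; simp [hi]
        rw [e, card_insert_of_notMem] at hod'
        · exact (Nat.not_odd_iff_even.2 (hod.add_one)) hod'
        · simp only [mem_filter, mem_univ, true_and, h0]
          exact (one_ne_zero' (hn i₀)).symm
      · have e : (univ.filter (fun i => Function.update x i₀ (1 - x i₀) i = 1)) =
            (univ.filter (fun i => x i = 1)).erase i₀ := by
          ext i
          simp only [mem_filter, mem_univ, true_and, mem_erase]
          by_cases hi : i = i₀
          · subst hi
            simp only [Function.update_self, h0, sub_self, ne_eq, not_true_eq_false, false_and,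
              iff_false]
            exact (one_ne_zero' (hn i)).symm
          · rw [Function.update_of_ne hi]; simp [hi]
        have hm : i₀ ∈ (univ.filter (fun i => x i = 1)) := by simpa using h0
        rw [e, card_erase_of_mem hm] at hod'
        obtain ⟨a, ha⟩ := hod
        obtain ⟨b, hb⟩ := hod'
        omega
    · have hxi : ∃ i, x i ≠ 0 ∧ x i ≠ 1 ∧ 2 * (x i).val < n i ∧ ∀ j < i, x j = 0 ∨ x j = 1 := by
        rcases hb.2 with h' | ⟨h', _⟩
        · exact h'
        · exact absurd h' h
      have h' : ¬ ∀ i, σ x i = 0 ∨ σ x i = 1 := by
        intro hcon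
        apply h
        intro i
        by_contra hi
        exact hmem2 x hx h i hi (hcon i)
      have hxi' : ∃ i, σ x i ≠ 0 ∧ σ x i ≠ 1 ∧ 2 * (σ x i).val < n i ∧ ∀ j < i, σ x j = 0 ∨ σ x j = 1 := by
        rcases hb'.2 with h'' | ⟨h'', _⟩
        · exact h''
        · exact absurd h'' h'
      obtain ⟨i, hi0, hi1, hi2, hi3⟩ := hxi
      obtain ⟨j, hj0, hj1, hj2, hj3⟩ := hxi'
      have hi : ¬ (x i = 0 ∨ x i = 1) := by push Not; exact ⟨hi0, hi1⟩
      have hij : i = j := by
        rcases lt_trichotomy i j with hlt | heq | hlt
        · exact absurd (hj3 i hlt) (hmem2 x hx h i hi)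
        · exact heq
        · exfalso
          have hx3 := hi3 j hlt
          have e : σ x j = x j := by rw [hσ2 x h]; simp only [if_pos hx3]
          rw [e] at hj0 hj1
          rcases hx3 with h3 | h3
          · exact hj0 h3
          · exact hj1 h3
      subst hij
      have e : σ x i = - x i := by rw [hσ2 x h]; simp only [if_neg hi]
      rw [e] at hj2
      exact neg_val_not_lt (x i) hi0 hi2 hj2
  have hBX : B ⊆ X := fun x hx => (hmX x).2 (hB x hx).1
  have hinj : Set.InjOn σ (B : Set (∀ i, ZMod (n i))) := by
    intro x hx y hy hxy
    rw [← hinv x (hBX hx), hxy, hinv y (hBX hy)]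
  have hdis : Disjoint B (B.image σ) := by
    rw [Finset.disjoint_left]
    intro y hy hy'
    rw [mem_image] at hy'
    obtain ⟨x, hx, rfl⟩ := hy'
    exact hnot x (hBX hx) (hB x hx) (hB _ hy)
  have hsub : B ∪ B.image σ ⊆ X := by
    apply union_subset hBX
    intro y hy
    rw [mem_image] at hy
    obtain ⟨x, hx, rfl⟩ := hy
    exact hmaps x (hBX hx)
  have := Finset.card_le_card hsub
  rw [card_union_of_disjoint hdis, Finset.card_image_of_injOn hinj, hXcard] at this
  omega

end Pool.Agent.N992
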