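import Pool.Agent.N992.Setup

/-!
The integral relation between the sums of an odd distribution over products of groups of squares.
-/

namespace Pool.Agent.N992

open Finset

/-- The properties of the quadratic character of `ZMod k` that are used. -/
structure IsChi (k : ℕ) [NeZero k] (χ : ZMod k → ℤ) : Prop where
  mul : ∀ a b, IsUnit a → IsUnit b → χ (a * b) = χ a * χ b
  neg : ∀ a, IsUnit a → χ (-a) = - χ a
  val : ∀ a, IsUnit a → χ a = 1 ∨ χ a = -1
  mem : ∀ a, IsUnit a → (a ∈ Hf k ↔ χ a = 1)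

theorem mem_Hf {k : ℕ} [NeZero k] (a : ZMod k) : a ∈ Hf k ↔ IsUnit a ∧ IsSquare a := by
  classical
  unfold Hf
  simp

theorem exists_chi_prime (p : ℕ) [NeZero p] (hp : p.Prime) (h3 : p % 4 = 3) :
    ∃ χ : ZMod p → ℤ, IsChi p χ := by
  have : Fact p.Prime := ⟨hp⟩
  refine ⟨fun a => quadraticChar (ZMod p) a, ?_, ?_, ?_, ?_⟩
  · intro a b _ _
    exact map_mul _ a b
  · intro a ha
    have h1 : quadraticChar (ZMod p) (-1) = -1 := by
      rw [quadraticChar_neg_one (by rw [ZMod.ringChar_zmod_n]; rintro rfl; omega), ZMod.card]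
      exact ZMod.χ₄_nat_three_mod_four h3
    rw [neg_eq_neg_one_mul a, map_mul, h1]
    ring
  · intro a ha
    exact quadraticChar_dichotomy ha.ne_zero
  · intro a ha
    rw [mem_Hf, quadraticChar_one_iff_isSquare ha.ne_zero]
    exact ⟨fun h => h.2, fun h => ⟨ha, h⟩⟩

theorem exists_chi_four : ∃ χ : ZMod 4 → ℤ, IsChi 4 χ := by
  refine ⟨fun a => ZMod.χ₄ a, ?_, ?_, ?_, ?_⟩
  · intro a b _ _
    exact map_mul _ a b
  · intro a ha
    revert a
    decide
  · intro a ha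
    revert a
    decide
  · intro a ha
    rw [mem_Hf]
    revert a
    decide

theorem exists_chi (k : ℕ) [NeZero k] (h : (k.Prime ∧ k % 4 = 3) ∨ k = 4) :
    ∃ χ : ZMod k → ℤ, IsChi k χ := by
  rcases h with ⟨hp, h3⟩ | h4
  · exact exists_chi_prime k hp h3
  · subst h4
    exact exists_chi_four

/-- the units -/
noncomputable def UU (k : ℕ) [NeZero k] : Finset (ZMod k) := by
  classical exact univ.filter (fun a => IsUnit a)

theorem mem_UU {k : ℕ} [NeZero k] (a : ZMod k) : a ∈ UU k ↔ IsUnit a := by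
  classical
  unfold UU
  simp

theorem sum_UU_mul {k : ℕ} [NeZero k] (u : ZMod k) (hu : IsUnit u) (f : ZMod k → ℤ) :
    ∑ j ∈ UU k, f (u * j) = ∑ j ∈ UU k, f j := by
  obtain ⟨v, rfl⟩ := hu
  refine Finset.sum_nbij' (fun j => (v : ZMod k) * j) (fun j => ((v⁻¹ : (ZMod k)ˣ) : ZMod k) * j)
    ?_ ?_ ?_ ?_ ?_
  · intro j hj
    rw [mem_UU] at hj ⊢
    exact v.isUnit.mul hj
  · intro j hj
    rw [mem_UU] at hj ⊢
    exact (v⁻¹).isUnit.mul hj
  · intro j _
    rw [← mul_assoc, Units.inv_mul, one_mul]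
  · intro j _
    rw [← mul_assoc, Units.mul_inv, one_mul]
  · intro j _
    rfl

theorem sum_UU_prime {k : ℕ} [NeZero k] (hk : k.Prime) (f : ZMod k → ℤ) :
    ∑ j ∈ UU k, f j = ∑ j, f j - f 0 := by
  classical
  have : Fact k.Prime := ⟨hk⟩
  have h : UU k = univ.erase 0 := by
    ext a
    rw [mem_UU, isUnit_iff_ne_zero]
    simp
  rw [h, ← Finset.add_sum_erase univ f (mem_univ 0)]
  ring

theorem sum_UU_four {k : ℕ} [NeZero k] (hk : k = 4) (f : ZMod k → ℤ) :
    ∑ j ∈ UU k, f j = f 1 + f (1 + 2) := by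
  classical
  subst hk
  have h : UU 4 = {1, 1 + 2} := by
    ext a
    rw [mem_UU]
    revert a
    decide
  rw [h, Finset.sum_pair (by decide)]

section

variable {ι : Type} [Fintype ι] [DecidableEq ι] (n : ι → ℕ) [∀ i, NeZero (n i)]

/-- units on `T`, zero elsewhere -/
noncomputable def GG (T : Finset ι) : Finset (∀ i, ZMod (n i)) :=
  Fintype.piFinset (fun i => if i ∈ T then UU (n i) else {0})

theorem mem_GG {T : Finset ι} (x : ∀ i, ZMod (n i)) :
    x ∈ GG n T ↔ (∀ i ∈ T, IsUnit (x i)) ∧ ∀ i, i ∉ T → x i = 0 := by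
  unfold GG
  rw [Fintype.mem_piFinset]
  constructor
  · intro h
    refine ⟨fun i hi => ?_, fun i hi => ?_⟩
    · have := h i
      rw [if_pos hi, mem_UU] at this
      exact this
    · have := h i
      rw [if_neg hi, mem_singleton] at this
      exact this
  · rintro ⟨h1, h2⟩ i
    by_cases hi : i ∈ T
    · rw [if_pos hi, mem_UU]
      exact h1 i hi
    · rw [if_neg hi, mem_singleton]
      exact h2 i hi

theorem mem_QQ {T : Finset ι} (x : ∀ i, ZMod (n i)) :
    x ∈ QQ n T ↔ (∀ i ∈ T, x i ∈ Hf (n i)) ∧ ∀ i, i ∉ T → x i = 0 := by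
  unfold QQ
  rw [Fintype.mem_piFinset]
  constructor
  · intro h
    refine ⟨fun i hi => ?_, fun i hi => ?_⟩
    · have := h i
      rwa [if_pos hi] at this
    · have := h i
      rwa [if_neg hi, mem_singleton] at this
  · rintro ⟨h1, h2⟩ i
    by_cases hi : i ∈ T
    · rw [if_pos hi]
      exact h1 i hi
    · rw [if_neg hi, mem_singleton]
      exact h2 i hi

theorem isUnit_apply (u : (∀ i, ZMod (n i))ˣ) (i : ι) : IsUnit ((u : ∀ i, ZMod (n i)) i) :=
  (Pi.isUnit_iff.1 u.isUnit) i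

theorem mul_mem_GG {T : Finset ι} (u : (∀ i, ZMod (n i))ˣ) {x : ∀ i, ZMod (n i)}
    (hx : x ∈ GG n T) : (u : ∀ i, ZMod (n i)) * x ∈ GG n T := by
  rw [mem_GG] at hx ⊢
  refine ⟨fun i hi => ?_, fun i hi => ?_⟩
  · rw [Pi.mul_apply]
    exact (isUnit_apply n u i).mul (hx.1 i hi)
  · rw [Pi.mul_apply, hx.2 i hi, mul_zero]

theorem sum_GG_unit {T : Finset ι} (u : (∀ i, ZMod (n i))ˣ) (f : (∀ i, ZMod (n i)) → ℤ) :
    ∑ x ∈ GG n T, f ((u : ∀ i, ZMod (n i)) * x) = ∑ x ∈ GG n T, f x := by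
  refine Finset.sum_nbij' (fun x => (u : ∀ i, ZMod (n i)) * x)
    (fun x => ((u⁻¹ : (∀ i, ZMod (n i))ˣ) : ∀ i, ZMod (n i)) * x) ?_ ?_ ?_ ?_ ?_
  · intro x hx
    exact mul_mem_GG n u hx
  · intro x hx
    exact mul_mem_GG n u⁻¹ hx
  · intro x _
    rw [← mul_assoc, Units.inv_mul, one_mul]
  · intro x _
    rw [← mul_assoc, Units.mul_inv, one_mul]
  · intro x _
    rfl

theorem sum_GG_insert {T : Finset ι} {i : ι} (hi : i ∉ T) (g : (∀ i, ZMod (n i)) → ℤ) :
    ∑ x ∈ GG n (insert i T), g x = ∑ y ∈ GG n T, ∑ j ∈ UU (n i), g (Function.update y i j) := by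
  rw [← Finset.sum_product']
  symm
  refine Finset.sum_nbij' (fun p => Function.update p.1 i p.2)
    (fun x => (Function.update x i 0, x i)) ?_ ?_ ?_ ?_ ?_
  · rintro ⟨y, j⟩ hp
    rw [mem_product] at hp
    obtain ⟨hy, hj⟩ := hp
    simp only at hy hj ⊢
    rw [mem_GG] at hy ⊢
    rw [mem_UU] at hj
    refine ⟨fun k hk => ?_, fun k hk => ?_⟩
    · by_cases hki : k = i
      · subst hki
        rw [Function.update_self]
        exact hj
      · rw [Function.update_of_ne hki]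
        exact hy.1 k (mem_of_mem_insert_of_ne hk hki)
    · rw [mem_insert, not_or] at hk
      rw [Function.update_of_ne hk.1]
      exact hy.2 k hk.2
  · intro x hx
    rw [mem_GG] at hx
    rw [mem_product]
    refine ⟨?_, ?_⟩
    · rw [mem_GG]
      refine ⟨fun k hk => ?_, fun k hk => ?_⟩
      · have hki : k ≠ i := fun h => hi (h ▸ hk)
        simp only
        rw [Function.update_of_ne hki]
        exact hx.1 k (mem_insert_of_mem hk)
      · simp only
        by_cases hki : k = i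
        · subst hki
          rw [Function.update_self]
        · rw [Function.update_of_ne hki]
          exact hx.2 k (by rw [mem_insert, not_or]; exact ⟨hki, hk⟩)
    · rw [mem_UU]
      exact hx.1 i (mem_insert_self i T)
  · rintro ⟨y, j⟩ hp
    rw [mem_product, mem_GG] at hp
    have h0 : y i = 0 := hp.1.2 i hi
    simp only [Function.update_self, Function.update_idem]
    rw [← h0, Function.update_eq_self]
  · intro x _
    simp only [Function.update_idem, Function.update_eq_self]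
  · intro p _
    rfl

/-- the twisted sums -/
noncomputable def WW (χ : ∀ i, ZMod (n i) → ℤ) (s : (∀ i, ZMod (n i)) → ℤ) (T' T : Finset ι)
    (t : (∀ i, ZMod (n i))ˣ) : ℤ :=
  ∑ x ∈ GG n T, (∏ i ∈ T', χ i (x i)) * s ((t : ∀ i, ZMod (n i)) * x)

variable {n}

theorem WW_even {χ : ∀ i, ZMod (n i) → ℤ} (hχ : ∀ i, IsChi (n i) (χ i))
    {s : (∀ i, ZMod (n i)) → ℤ} (hs : PiDist n s) {T' T : Finset ι} (hT : T' ⊆ T)
    (he : Even T'.card) (t : (∀ i, ZMod (n i))ˣ) : WW n χ s T' T t = 0 := by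
  have h1 := sum_GG_unit n (T := T) (-1)
    (fun x => (∏ i ∈ T', χ i (x i)) * s ((t : ∀ i, ZMod (n i)) * x))
  have h2 : ∑ x ∈ GG n T, (fun x => (∏ i ∈ T', χ i (x i)) * s ((t : ∀ i, ZMod (n i)) * x))
      (((-1 : (∀ i, ZMod (n i))ˣ) : ∀ i, ZMod (n i)) * x) =
      ∑ x ∈ GG n T, -((∏ i ∈ T', χ i (x i)) * s ((t : ∀ i, ZMod (n i)) * x)) := by
    refine sum_congr rfl ?_
    intro x hx
    rw [mem_GG] at hx
    simp only [Units.val_neg, Units.val_one, neg_mul, one_mul, mul_neg, hs.neg]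
    congr 1
    have : ∏ i ∈ T', χ i ((-x) i) = ∏ i ∈ T', -χ i (x i) := by
      refine prod_congr rfl ?_
      intro i hi
      rw [Pi.neg_apply]
      exact (hχ i).neg _ (hx.1 i (hT hi))
    rw [this, Finset.prod_neg, he.neg_one_pow, one_mul]
  rw [h2, Finset.sum_neg_distrib] at h1
  unfold WW
  linarith

theorem prod_chi_mul {χ : ∀ i, ZMod (n i) → ℤ} (hχ : ∀ i, IsChi (n i) (χ i)) {T' T : Finset ι}
    (hT : T' ⊆ T) (u : (∀ i, ZMod (n i))ˣ) {x : ∀ i, ZMod (n i)} (hx : x ∈ GG n T) :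
    ∏ i ∈ T', χ i (((u : ∀ i, ZMod (n i)) * x) i) =
      (∏ i ∈ T', χ i ((u : ∀ i, ZMod (n i)) i)) * ∏ i ∈ T', χ i (x i) := by
  rw [← prod_mul_distrib]
  refine prod_congr rfl ?_
  intro i hi
  rw [mem_GG] at hx
  rw [Pi.mul_apply]
  exact (hχ i).mul _ _ (isUnit_apply n u i) (hx.1 i (hT hi))

theorem prod_chi_val {χ : ∀ i, ZMod (n i) → ℤ} (hχ : ∀ i, IsChi (n i) (χ i)) (T' : Finset ι)
    (u : (∀ i, ZMod (n i))ˣ) :
    (∏ i ∈ T', χ i ((u : ∀ i, ZMod (n i)) i)) = 1 ∨
      (∏ i ∈ T', χ i ((u : ∀ i, ZMod (n i)) i)) = -1 := by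
  induction T' using Finset.induction_on with
  | empty => left; simp
  | insert i T' hi ih =>
    rw [prod_insert hi]
    rcases (hχ i).val _ (isUnit_apply n u i) with h | h <;> rcases ih with h' | h' <;>
      rw [h, h'] <;> simp

theorem WW_twist {χ : ∀ i, ZMod (n i) → ℤ} (hχ : ∀ i, IsChi (n i) (χ i))
    (s : (∀ i, ZMod (n i)) → ℤ) {T' T : Finset ι} (hT : T' ⊆ T)
    (u t : (∀ i, ZMod (n i))ˣ) :
    ∑ x ∈ GG n T, (∏ i ∈ T', χ i (x i)) *
      s ((u : ∀ i, ZMod (n i)) * ((t : ∀ i, ZMod (n i)) * x)) =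
      (∏ i ∈ T', χ i ((u : ∀ i, ZMod (n i)) i)) * WW n χ s T' T t := by
  have h0 := sum_GG_unit n (T := T) u
    (fun x => (∏ i ∈ T', χ i (x i)) * s ((t : ∀ i, ZMod (n i)) * x))
  unfold WW
  rw [← h0, mul_sum]
  refine sum_congr rfl ?_
  intro x hx
  have h2 : (∏ i ∈ T', χ i ((u : ∀ i, ZMod (n i)) i)) * (∏ i ∈ T', χ i ((u : ∀ i, ZMod (n i)) i))
      = 1 := by
    rcases prod_chi_val hχ T' u with h | h <;> rw [h] <;> norm_num
  have h3 : (u : ∀ i, ZMod (n i)) * ((t : ∀ i, ZMod (n i)) * x) =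
      (t : ∀ i, ZMod (n i)) * ((u : ∀ i, ZMod (n i)) * x) := by ring
  rw [h3, prod_chi_mul hχ hT u hx]
  calc _ = ((∏ i ∈ T', χ i ((u : ∀ i, ZMod (n i)) i)) *
        (∏ i ∈ T', χ i ((u : ∀ i, ZMod (n i)) i))) * ((∏ i ∈ T', χ i (x i)) *
        s ((t : ∀ i, ZMod (n i)) * ((u : ∀ i, ZMod (n i)) * x))) := by rw [h2, one_mul]
    _ = _ := by ring

theorem exists_pi (i : ι) (q : ℕ) (hq : ∀ k, k ≠ i → q.Coprime (n k)) :
    ∃ u : (∀ i, ZMod (n i))ˣ, ∀ z : ∀ i, ZMod (n i), z i = 0 →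
      q • z = (u : ∀ i, ZMod (n i)) * z := by
  refine ⟨MulEquiv.piUnits.symm (fun k => if h : k = i then 1 else ZMod.unitOfCoprime q (hq k h)), ?_⟩
  intro z hz
  funext k
  rw [Pi.smul_apply, Pi.mul_apply]
  by_cases hk : k = i
  · subst hk
    rw [hz]
    simp
  · have : ((MulEquiv.piUnits.symm (fun k => if h : k = i then 1 else
        ZMod.unitOfCoprime q (hq k h)) : (∀ i, ZMod (n i))ˣ) : ∀ i, ZMod (n i)) k =
        ((if h : k = i then 1 else ZMod.unitOfCoprime q (hq k h) : (ZMod (n k))ˣ) : ZMod (n k)) := rfl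
    rw [this, dif_neg hk, ZMod.coe_unitOfCoprime, nsmul_eq_mul]

theorem inner_sum (hn : Adm n) (s : (∀ i, ZMod (n i)) → ℤ) (hs : PiDist n s) (i : ι)
    (hco : ∀ k, k ≠ i → (n i).Coprime (n k)) :
    ∃ (u : (∀ i, ZMod (n i))ˣ), (∀ z : ∀ i, ZMod (n i), z i = 0 →
      ∑ j ∈ UU (n i), s (Function.update z i j) = s ((u : ∀ i, ZMod (n i)) * z) - s z) ∨
      (∀ z : ∀ i, ZMod (n i), z i = 0 →
      ∑ j ∈ UU (n i), s (Function.update z i j) =
        s ((u : ∀ i, ZMod (n i)) * ((u : ∀ i, ZMod (n i)) * z)) - s ((u : ∀ i, ZMod (n i)) * z)) := by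
  rcases hn i with ⟨hp, -⟩ | h4
  · obtain ⟨u, hu⟩ := exists_pi (n := n) i (n i) hco
    refine ⟨u, Or.inl ?_⟩
    intro z hz
    rw [sum_UU_prime hp, hs.dist i hp z, hu z hz, ← hz, Function.update_eq_self]
  · have hco2 : ∀ k, k ≠ i → (2 : ℕ).Coprime (n k) := by
      intro k hk
      have h := hco k hk
      rw [h4] at h
      exact Nat.Coprime.coprime_dvd_left (by norm_num) h
    obtain ⟨u, hu⟩ := exists_pi (n := n) i 2 hco2
    refine ⟨u, Or.inr ?_⟩
    intro z hz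
    rw [sum_UU_four h4]
    have h1 := hs.four i h4 (Function.update z i 1)
    rw [Function.update_self, Function.update_idem] at h1
    rw [h1]
    have h2 : (2 : ℕ) • Function.update z i 1 = Function.update ((2 : ℕ) • z) i 2 := by
      funext k
      by_cases hk : k = i
      · subst hk
        simp
      · rw [Pi.smul_apply, Function.update_of_ne hk, Function.update_of_ne hk, Pi.smul_apply]
    rw [h2]
    have h3 := hs.four i h4 ((2 : ℕ) • z)
    have h5 : ((2 : ℕ) • z) i = 0 := by rw [Pi.smul_apply, hz, smul_zero]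
    rw [h5, zero_add] at h3
    have h6 : (2 : ℕ) • z = (u : ∀ i, ZMod (n i)) * z := hu z hz
    have h7 : (2 : ℕ) • ((2 : ℕ) • z) = (u : ∀ i, ZMod (n i)) * ((u : ∀ i, ZMod (n i)) * z) := by
      rw [hu _ h5, h6]
    rw [h7] at h3
    rw [← h6]
    rw [← h6] at h3
    linarith

theorem WW_step (hn : Adm n) {χ : ∀ i, ZMod (n i) → ℤ} (hχ : ∀ i, IsChi (n i) (χ i))
    (s : (∀ i, ZMod (n i)) → ℤ) (hs : PiDist n s) {T' T : Finset ι} (hT : T' ⊆ T) {i : ι}
    (hi : i ∉ T) (hco : ∀ k, k ≠ i → (n i).Coprime (n k)) :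
    ∃ a : ℤ, ∀ t, WW n χ s T' (insert i T) t = 2 * a * WW n χ s T' T t := by
  have key : ∀ t : (∀ i, ZMod (n i))ˣ, WW n χ s T' (insert i T) t =
      ∑ y ∈ GG n T, (∏ k ∈ T', χ k (y k)) *
        ∑ j ∈ UU (n i), s (Function.update ((t : ∀ i, ZMod (n i)) * y) i j) := by
    intro t
    unfold WW
    rw [sum_GG_insert n hi]
    refine sum_congr rfl ?_
    intro y _
    have hs1 := sum_UU_mul ((t : ∀ i, ZMod (n i)) i) (isUnit_apply n t i)
      (fun j => s (Function.update ((t : ∀ i, ZMod (n i)) * y) i j))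
    rw [← hs1, mul_sum]
    refine sum_congr rfl ?_
    intro j _
    have e1 : ∏ k ∈ T', χ k (Function.update y i j k) = ∏ k ∈ T', χ k (y k) := by
      refine prod_congr rfl ?_
      intro k hk
      have hki : k ≠ i := fun h => hi (h ▸ hT hk)
      rw [Function.update_of_ne hki]
    have e2 : (t : ∀ i, ZMod (n i)) * Function.update y i j =
        Function.update ((t : ∀ i, ZMod (n i)) * y) i ((t : ∀ i, ZMod (n i)) i * j) := by
      funext k
      by_cases hk : k = i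
      · subst hk
        simp
      · rw [Pi.mul_apply, Function.update_of_ne hk, Function.update_of_ne hk, Pi.mul_apply]
    rw [e1, e2]
  obtain ⟨u, hu | hu⟩ := inner_sum hn s hs i hco
  · rcases prod_chi_val hχ T' u with hX | hX
    · refine ⟨0, fun t => ?_⟩
      rw [key t]
      have h1 := WW_twist hχ s hT u t
      rw [hX] at h1
      have h2 : ∑ y ∈ GG n T, (∏ k ∈ T', χ k (y k)) *
          ∑ j ∈ UU (n i), s (Function.update ((t : ∀ i, ZMod (n i)) * y) i j) =
          ∑ y ∈ GG n T, ((∏ k ∈ T', χ k (y k)) *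
            s ((u : ∀ i, ZMod (n i)) * ((t : ∀ i, ZMod (n i)) * y)) -
            (∏ k ∈ T', χ k (y k)) * s ((t : ∀ i, ZMod (n i)) * y)) := by
        refine sum_congr rfl ?_
        intro y hy
        rw [hu _ (by rw [Pi.mul_apply, ((mem_GG n y).1 hy).2 i hi, mul_zero]), mul_sub]
      rw [h2, sum_sub_distrib, h1]
      unfold WW
      ring
    · refine ⟨-1, fun t => ?_⟩
      rw [key t]
      have h1 := WW_twist hχ s hT u t
      rw [hX] at h1
      have h2 : ∑ y ∈ GG n T, (∏ k ∈ T', χ k (y k)) *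
          ∑ j ∈ UU (n i), s (Function.update ((t : ∀ i, ZMod (n i)) * y) i j) =
          ∑ y ∈ GG n T, ((∏ k ∈ T', χ k (y k)) *
            s ((u : ∀ i, ZMod (n i)) * ((t : ∀ i, ZMod (n i)) * y)) -
            (∏ k ∈ T', χ k (y k)) * s ((t : ∀ i, ZMod (n i)) * y)) := by
        refine sum_congr rfl ?_
        intro y hy
        rw [hu _ (by rw [Pi.mul_apply, ((mem_GG n y).1 hy).2 i hi, mul_zero]), mul_sub]
      rw [h2, sum_sub_distrib, h1]
      unfold WW
      ring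
  · have h0 : ∀ t : (∀ i, ZMod (n i))ˣ, WW n χ s T' (insert i T) t =
        (1 - ∏ k ∈ T', χ k ((u : ∀ i, ZMod (n i)) k)) * WW n χ s T' T t := by
      intro t
      rw [key t]
      have h1 := WW_twist hχ s hT u t
      have h3 := WW_twist hχ s hT (u * u) t
      have h2 : ∑ y ∈ GG n T, (∏ k ∈ T', χ k (y k)) *
          ∑ j ∈ UU (n i), s (Function.update ((t : ∀ i, ZMod (n i)) * y) i j) =
          ∑ y ∈ GG n T, ((∏ k ∈ T', χ k (y k)) *
            s (((u * u : (∀ i, ZMod (n i))ˣ) : ∀ i, ZMod (n i)) * ((t : ∀ i, ZMod (n i)) * y)) -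
            (∏ k ∈ T', χ k (y k)) *
              s ((u : ∀ i, ZMod (n i)) * ((t : ∀ i, ZMod (n i)) * y))) := by
        refine sum_congr rfl ?_
        intro y hy
        rw [hu _ (by rw [Pi.mul_apply, ((mem_GG n y).1 hy).2 i hi, mul_zero]), mul_sub]
        rw [Units.val_mul, mul_assoc (u : ∀ i, ZMod (n i))]
      rw [h2, sum_sub_distrib, h1, h3]
      have h4 : ∏ k ∈ T', χ k (((u * u : (∀ i, ZMod (n i))ˣ) : ∀ i, ZMod (n i)) k) = 1 := by
        have : ∏ k ∈ T', χ k (((u * u : (∀ i, ZMod (n i))ˣ) : ∀ i, ZMod (n i)) k) =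
            (∏ k ∈ T', χ k ((u : ∀ i, ZMod (n i)) k)) *
              ∏ k ∈ T', χ k ((u : ∀ i, ZMod (n i)) k) := by
          rw [← prod_mul_distrib]
          refine prod_congr rfl ?_
          intro k _
          rw [Units.val_mul, Pi.mul_apply]
          exact (hχ k).mul _ _ (isUnit_apply n u k) (isUnit_apply n u k)
        rw [this]
        rcases prod_chi_val hχ T' u with h | h <;> rw [h] <;> norm_num
      rw [h4]
      ring
    rcases prod_chi_val hχ T' u with hX | hX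
    · refine ⟨0, fun t => ?_⟩
      rw [h0 t, hX]
      ring
    · refine ⟨1, fun t => ?_⟩
      rw [h0 t, hX]
      ring

theorem WW_chain (hn : Adm n) (hco : Pairwise (fun i j => (n i).Coprime (n j)))
    {χ : ∀ i, ZMod (n i) → ℤ} (hχ : ∀ i, IsChi (n i) (χ i))
    (s : (∀ i, ZMod (n i)) → ℤ) (hs : PiDist n s) (T' D : Finset ι) (hD : Disjoint T' D) :
    ∃ A : ℤ, ∀ t, WW n χ s T' (T' ∪ D) t = 2 ^ D.card * A * WW n χ s T' T' t := by
  induction D using Finset.induction_on with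
  | empty => exact ⟨1, fun t => by simp⟩
  | insert i D hi ih =>
    rw [disjoint_insert_right] at hD
    obtain ⟨A, hA⟩ := ih hD.2
    have hi2 : i ∉ T' ∪ D := by
      rw [mem_union, not_or]
      exact ⟨hD.1, hi⟩
    obtain ⟨a, ha⟩ := WW_step hn hχ s hs (T' := T') (T := T' ∪ D) subset_union_left hi2
      (fun k hk => hco hk.symm)
    refine ⟨a * A, fun t => ?_⟩
    rw [union_insert, ha t, hA t, card_insert_of_notMem hi, pow_succ]
    ring

/-- the sum over the product of the half systems, as a function on the units -/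
noncomputable def FF (n : ι → ℕ) [∀ i, NeZero (n i)] (s : (∀ i, ZMod (n i)) → ℤ) (T : Finset ι) :
    (∀ i, ZMod (n i))ˣ → ℤ :=
  fun t => ∑ x ∈ QQ n T, s ((t : ∀ i, ZMod (n i)) * x)

theorem FF_expand {χ : ∀ i, ZMod (n i) → ℤ} (hχ : ∀ i, IsChi (n i) (χ i))
    (s : (∀ i, ZMod (n i)) → ℤ) (T : Finset ι) (t : (∀ i, ZMod (n i))ˣ) :
    2 ^ T.card * FF n s T t = ∑ T' ∈ T.powerset, WW n χ s T' T t := by
  classical
  unfold WW
  rw [sum_comm]
  have h1 : ∀ x ∈ GG n T, ∑ T' ∈ T.powerset, (∏ i ∈ T', χ i (x i)) *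
      s ((t : ∀ i, ZMod (n i)) * x) =
      if x ∈ QQ n T then 2 ^ T.card * s ((t : ∀ i, ZMod (n i)) * x) else 0 := by
    intro x hx
    rw [← sum_mul, ← prod_one_add]
    rw [mem_GG] at hx
    by_cases hq : x ∈ QQ n T
    · rw [if_pos hq]
      congr 1
      rw [mem_QQ] at hq
      rw [← prod_const]
      refine prod_congr rfl ?_
      intro i hi
      rw [((hχ i).mem _ (hx.1 i hi)).1 (hq.1 i hi)]
      norm_num
    · rw [if_neg hq]
      have h2 : ∃ i ∈ T, x i ∉ Hf (n i) := by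
        by_contra hcon
        push Not at hcon
        exact hq ((mem_QQ n x).2 ⟨hcon, hx.2⟩)
      obtain ⟨i, hi, hxi⟩ := h2
      have h3 : χ i (x i) = -1 := by
        rcases (hχ i).val _ (hx.1 i hi) with h | h
        · exact absurd (((hχ i).mem _ (hx.1 i hi)).2 h) hxi
        · exact h
      rw [prod_eq_zero hi (by rw [h3]; norm_num), zero_mul]
  rw [sum_congr rfl h1, ← sum_filter]
  unfold FF
  rw [mul_sum]
  refine sum_congr ?_ (fun _ _ => rfl)
  ext x
  rw [mem_filter, mem_GG, mem_QQ]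
  constructor
  · rintro ⟨h1, h2⟩
    exact ⟨⟨fun i hi => ((mem_Hf _).1 (h1 i hi)).1, h2⟩, h1, h2⟩
  · rintro ⟨-, h⟩
    exact h

theorem exists_g (hn : Adm n) (hco : Pairwise (fun i j => (n i).Coprime (n j)))
    {χ : ∀ i, ZMod (n i) → ℤ} (hχ : ∀ i, IsChi (n i) (χ i))
    (s : (∀ i, ZMod (n i)) → ℤ) (hs : PiDist n s) :
    ∀ T : Finset ι, ∃ e ∈ AddSubgroup.closure {f | ∃ T' : Finset ι, T' ⊆ T ∧ f = FF n s T'},
      ∀ t, 2 ^ T.card * e t = WW n χ s T T t := by
  intro T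
  induction T using Finset.strongInduction with
  | H T ih =>
    have h1 : ∀ T' ∈ T.ssubsets, ∃ g ∈ AddSubgroup.closure
        {f | ∃ T'' : Finset ι, T'' ⊆ T ∧ f = FF n s T''},
        ∀ t, WW n χ s T' T t = 2 ^ T.card * g t := by
      intro T' hT'
      rw [mem_ssubsets] at hT'
      obtain ⟨e, he, he2⟩ := ih T' hT'
      obtain ⟨A, hA⟩ := WW_chain hn hco hχ s hs T' (T \ T') disjoint_sdiff
      rw [union_sdiff_of_subset hT'.1] at hA
      refine ⟨A • e, ?_, ?_⟩
      · refine AddSubgroup.zsmul_mem _ (AddSubgroup.closure_mono ?_ he) A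
        rintro f ⟨T'', h, rfl⟩
        exact ⟨T'', h.trans hT'.1, rfl⟩
      · intro t
        rw [hA t, ← he2 t, Pi.smul_apply, smul_eq_mul, card_sdiff_of_subset hT'.1]
        have h3 : T.card = (T.card - T'.card) + T'.card :=
          (Nat.sub_add_cancel (card_le_card hT'.1)).symm
        have h4 : (2 : ℤ) ^ T.card = 2 ^ (T.card - T'.card) * 2 ^ T'.card := by
          rw [← pow_add, ← h3]
        rw [h4]
        ring
    choose! g hg hg2 using h1
    refine ⟨FF n s T - ∑ T' ∈ T.ssubsets, g T', ?_, ?_⟩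
    · refine AddSubgroup.sub_mem _ (AddSubgroup.subset_closure ⟨T, subset_rfl, rfl⟩) ?_
      exact AddSubgroup.sum_mem _ (fun T' hT' => hg T' hT')
    · intro t
      have h5 := FF_expand hχ s T t
      rw [← Finset.sum_erase_add _ _ (mem_powerset_self T)] at h5
      rw [Pi.sub_apply, mul_sub, h5, Finset.sum_apply, mul_sum]
      have h6 : ∑ T' ∈ T.powerset.erase T, WW n χ s T' T t =
          ∑ T' ∈ T.ssubsets, 2 ^ T.card * g T' t := by
        rw [Finset.ssubsets]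
        refine sum_congr rfl ?_
        intro T' hT'
        exact hg2 T' hT' t
      rw [h6]
      ring

/-- R: the relation. -/
theorem rel_closure (hn : Adm n) (hco : Pairwise (fun i j => (n i).Coprime (n j)))
    (s : (∀ i, ZMod (n i)) → ℤ) (hs : PiDist n s) (S : Finset ι) (hS : Even S.card) :
    (fun t : (∀ i, ZMod (n i))ˣ => ∑ x ∈ QQ n S, s ((t : ∀ i, ZMod (n i)) * x)) ∈
      AddSubgroup.closure {f : (∀ i, ZMod (n i))ˣ → ℤ | ∃ T : Finset ι, T ⊂ S ∧
        f = fun t : (∀ i, ZMod (n i))ˣ => ∑ x ∈ QQ n T, s ((t : ∀ i, ZMod (n i)) * x)} := by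
  have hc : ∀ i, ∃ χ : ZMod (n i) → ℤ, IsChi (n i) χ := fun i => exists_chi (n i) (hn i)
  choose χ hχ using hc
  have h1 : ∀ T' ∈ S.ssubsets, ∃ g ∈ AddSubgroup.closure
      {f | ∃ T : Finset ι, T ⊂ S ∧ f = FF n s T}, ∀ t, WW n χ s T' S t = 2 ^ S.card * g t := by
    intro T' hT'
    rw [mem_ssubsets] at hT'
    obtain ⟨e, he, he2⟩ := exists_g hn hco hχ s hs T'
    obtain ⟨A, hA⟩ := WW_chain hn hco hχ s hs T' (S \ T') disjoint_sdiff
    rw [union_sdiff_of_subset hT'.1] at hA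
    refine ⟨A • e, ?_, ?_⟩
    · refine AddSubgroup.zsmul_mem _ (AddSubgroup.closure_mono ?_ he) A
      rintro f ⟨T'', h, rfl⟩
      exact ⟨T'', lt_of_le_of_lt h hT', rfl⟩
    · intro t
      rw [hA t, ← he2 t, Pi.smul_apply, smul_eq_mul, card_sdiff_of_subset hT'.1]
      have h3 : S.card = (S.card - T'.card) + T'.card :=
        (Nat.sub_add_cancel (card_le_card hT'.1)).symm
      have h4 : (2 : ℤ) ^ S.card = 2 ^ (S.card - T'.card) * 2 ^ T'.card := by
        rw [← pow_add, ← h3]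
      rw [h4]
      ring
  choose! g hg hg2 using h1
  have h2 : (fun t : (∀ i, ZMod (n i))ˣ => ∑ x ∈ QQ n S, s ((t : ∀ i, ZMod (n i)) * x)) =
      ∑ T' ∈ S.ssubsets, g T' := by
    funext t
    have h5 := FF_expand hχ s S t
    rw [← Finset.sum_erase_add _ _ (mem_powerset_self S), WW_even hχ hs subset_rfl hS t,
      add_zero] at h5
    have h6 : ∑ T' ∈ S.powerset.erase S, WW n χ s T' S t =
        2 ^ S.card * (∑ T' ∈ S.ssubsets, g T') t := by
      rw [Finset.sum_apply, mul_sum, Finset.ssubsets]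
      refine sum_congr rfl ?_
      intro T' hT'
      exact hg2 T' hT' t
    rw [h6] at h5
    have h7 : (2 : ℤ) ^ S.card ≠ 0 := pow_ne_zero _ (by norm_num)
    exact mul_left_cancel₀ h7 h5
  rw [h2]
  exact AddSubgroup.sum_mem _ (fun T' hT' => hg T' hT')

end

end Pool.Agent.N992
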