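import Pool.Agent.N992.Transfer
import Pool.Agent.N992.Gen
import Pool.Agent.N992.Rel

/-!
The classes of the products of half systems in the universal odd distribution modulo the modular
characters.
-/

namespace Pool.Agent.N992

open Finset Pool.Agent.H916R2 Pool.Agent.Y2.Cv

set_option linter.unusedSectionVars false

/-- unions of modular spectra and of residues killed by 12 -/
def Modu (m : ℕ) [NeZero m] (s : Multiset (ZMod m)) : Prop :=
  ∃ (L : List (Multiset (ZMod m))) (r : Multiset (ZMod m)),
    (∀ b ∈ L, ModularSpectrum m b) ∧ (∀ a ∈ r, 12 * a = 0) ∧ s = L.sum + r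

section basic

variable {m : ℕ} [NeZero m]

lemma ModularSpectrum.zero_notMem {b : Multiset (ZMod m)} (h : ModularSpectrum m b) :
    (0 : ZMod m) ∉ b := by
  obtain ⟨n, ρ, e, _, _, _, rfl⟩ := h
  intro h0
  exact (Multiset.mem_filter.mp h0).2 rfl

lemma Modu.add {s t : Multiset (ZMod m)} (hs : Modu m s) (ht : Modu m t) : Modu m (s + t) := by
  obtain ⟨L, r, h1, h2, rfl⟩ := hs
  obtain ⟨L', r', h1', h2', rfl⟩ := ht
  refine ⟨L ++ L', r + r', ?_, ?_, ?_⟩
  · intro b hb
    rcases List.mem_append.mp hb with hb | hb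
    · exact h1 b hb
    · exact h1' b hb
  · intro a ha
    rcases Multiset.mem_add.mp ha with ha | ha
    · exact h2 a ha
    · exact h2' a ha
  · rw [List.sum_append]; abel

lemma Modu.neg {s : Multiset (ZMod m)} (hs : Modu m s) : Modu m (s.map Neg.neg) := by
  obtain ⟨L, r, h1, h2, rfl⟩ := hs
  refine ⟨L.map (fun b => b.map Neg.neg), r.map Neg.neg, ?_, ?_, ?_⟩
  · intro b hb
    obtain ⟨b', hb', rfl⟩ := List.mem_map.mp hb
    exact (h1 b' hb').neg
  · intro a ha
    obtain ⟨a', ha', rfl⟩ := Multiset.mem_map.mp ha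
    rw [mul_neg, h2 a' ha', neg_zero]
  · rw [Multiset.map_add]
    congr 1
    clear h1
    induction L with
    | nil => simp
    | cons b L ih => rw [List.sum_cons, Multiset.map_add, ih, List.map_cons, List.sum_cons]

lemma Modu.zero : Modu m 0 := ⟨[], 0, by simp, by simp, by simp⟩

lemma Modu.single {b : Multiset (ZMod m)} (h : ModularSpectrum m b) : Modu m b :=
  ⟨[b], 0, by simpa using h, by simp, by simp⟩

lemma Modu.torsion {r : Multiset (ZMod m)} (h : ∀ a ∈ r, 12 * a = 0) : Modu m r :=
  ⟨[], r, by simp, h, by simp⟩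

lemma List.zero_notMem_sum (L : List (Multiset (ZMod m))) (h : ∀ b ∈ L, (0 : ZMod m) ∉ b) :
    (0 : ZMod m) ∉ L.sum := by
  induction L with
  | nil => simp
  | cons b L ih =>
    rw [List.sum_cons, Multiset.mem_add, not_or]
    exact ⟨h b List.mem_cons_self, ih fun b' hb' => h b' (List.mem_cons_of_mem _ hb')⟩

lemma sum_filter_ne {R : Type*} [AddCommGroup R] (g : ZMod m → R) (hg : g 0 = 0)
    (r : Multiset (ZMod m)) : ((r.filter (fun a => a ≠ 0)).map g).sum = (r.map g).sum := by
  induction r using Multiset.induction_on with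
  | empty => simp
  | cons a r ih =>
    by_cases ha : a = 0
    · subst ha
      rw [Multiset.filter_cons_of_neg (p := fun a : ZMod m => a ≠ 0) _ (by simp), ih,
        Multiset.map_cons, Multiset.sum_cons, hg, zero_add]
    · rw [Multiset.filter_cons_of_pos (p := fun a : ZMod m => a ≠ 0) _ ha, Multiset.map_cons, Multiset.sum_cons, ih,
        Multiset.map_cons, Multiset.sum_cons]

/-- an odd distribution which kills the modular characters kills the balanced unions -/
lemma kill_of_balanced {Q : Type*} [AddCommGroup Q] {c : ZMod m → Q} (hc : OddDist c)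
    (hk : ∀ s, ModularCharacter m s → (s.map c).sum = 0) {s : Multiset (ZMod m)} (hs : Modu m s)
    (hsaw : ∀ t : (ZMod m)ˣ, (s.map fun a => saw ((t : ZMod m) * a)).sum = 0) :
    (s.map c).sum = 0 := by
  classical
  obtain ⟨L, r, h1, h2, rfl⟩ := hs
  -- remove the zeros
  set r' := r.filter (fun a => a ≠ 0) with hr'
  have hc0 : c 0 = 0 := hc.half 0 (by simp)
  have h2' : ∀ a ∈ r', 12 * a = 0 := fun a ha => h2 a (Multiset.mem_filter.mp ha).1
  have e1 : ((L.sum + r).map c).sum = ((L.sum + r').map c).sum := by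
    rw [Multiset.map_add, Multiset.map_add, Multiset.sum_add, Multiset.sum_add, hr',
      sum_filter_ne c hc0]
  have hsaw' : ∀ t : (ZMod m)ˣ, ((L.sum + r').map fun a => saw ((t : ZMod m) * a)).sum = 0 := by
    intro t
    rw [← hsaw t, Multiset.map_add, Multiset.map_add, Multiset.sum_add, Multiset.sum_add, hr',
      sum_filter_ne _ (by rw [mul_zero, saw_zero])]
  rw [e1]
  set s1 := L.sum + r' with hs1
  have h01 : (0 : ZMod m) ∉ s1 := by
    rw [hs1, Multiset.mem_add, not_or]
    refine ⟨List.zero_notMem_sum L fun b hb => (h1 b hb).zero_notMem, ?_⟩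
    intro h
    exact (Multiset.mem_filter.mp h).2 rfl
  by_cases heven : Even (Multiset.card s1)
  · exact hk s1 ⟨isHodge_of_saw h01 heven hsaw', L, r', h1, h2', rfl⟩
  · rw [Nat.not_even_iff_odd] at heven
    have h3 := saw_sum_eq s1 h01 1
    rw [hsaw' 1] at h3
    have hm2 : 2 ∣ m := by
      obtain ⟨k, hk⟩ := heven
      have h4 : (m : ℤ) * (2 * k + 1) =
          2 * (((s1.map fun a => (((1 : (ZMod m)ˣ) : ZMod m) * a).val).sum : ℕ) : ℤ) := by
        rw [hk] at h3
        push_cast at h3
        push_cast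
        linarith
      have h5 : (2 : ℤ) ∣ (m : ℤ) * (2 * k + 1) := ⟨_, h4⟩
      have h6 : (2 : ℤ) ∣ (m : ℤ) := by
        rcases Int.Prime.dvd_mul' Nat.prime_two h5 with h | h
        · exact_mod_cast h
        · exfalso; omega
      exact_mod_cast h6
    set h : ZMod m := ((m / 2 : ℕ) : ZMod m) with hh
    have hhh : h + h = 0 := by
      have : ((2 * (m / 2) : ℕ) : ZMod m) = 0 := by rw [Nat.mul_div_cancel' hm2]; simp
      rw [hh, ← two_mul]; push_cast at this; exact this
    have hh0 : h ≠ 0 := by
      intro h'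
      rw [hh, ZMod.natCast_eq_zero_iff] at h'
      have hmp := NeZero.pos m
      have h5 : 0 < m / 2 := Nat.div_pos (Nat.le_of_dvd hmp hm2) (by norm_num)
      have := Nat.le_of_dvd h5 h'
      omega
    have h7 := hk (h ::ₘ s1) ⟨isHodge_of_saw ?_ ?_ ?_, L, h ::ₘ r', h1, ?_, ?_⟩
    · rw [Multiset.map_cons, Multiset.sum_cons, hc.half h hhh, zero_add] at h7
      exact h7
    · rw [Multiset.mem_cons, not_or]; exact ⟨Ne.symm hh0, h01⟩
    · rw [Multiset.card_cons]; exact heven.add_one
    · intro t
      rw [Multiset.map_cons, Multiset.sum_cons, hsaw' t, add_zero]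
      apply saw_half
      rw [← mul_add, hhh, mul_zero]
    · intro a ha
      rcases Multiset.mem_cons.mp ha with rfl | ha
      · linear_combination (6 : ZMod m) * hhh
      · exact h2' a ha
    · rw [hs1, Multiset.add_cons]

end basic

/-! ### Spectra of tensor products -/

section spectra

variable {ι : Type} [Fintype ι] [DecidableEq ι] {n : ι → ℕ} [∀ i, NeZero (n i)] {N : ℕ} [NeZero N]

/-- the inclusion of a component -/
def inc (E : (∀ i, ZMod (n i)) ≃+* ZMod N) (i : ι) : ZMod (n i) →+ ZMod N :=
  (E : (∀ i, ZMod (n i)) →+ ZMod N).comp (AddMonoidHom.single (fun i => ZMod (n i)) i)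

lemma inc_apply (E : (∀ i, ZMod (n i)) ≃+* ZMod N) (i : ι) (a : ZMod (n i)) :
    inc E i a = E (Pi.single i a) := rfl

lemma inc_injective (E : (∀ i, ZMod (n i)) ≃+* ZMod N) (i : ι) : Function.Injective (inc E i) := by
  intro a b h
  rw [inc_apply, inc_apply] at h
  exact Pi.single_injective i (E.injective h)

/-- the product of the sets `A i` over `T` -/
def PA (A : ∀ i, Finset (ZMod (n i))) (T : Finset ι) : Finset (∀ i, ZMod (n i)) :=
  Fintype.piFinset (fun i => if i ∈ T then A i else {0})

lemma mem_PA {A : ∀ i, Finset (ZMod (n i))} {T : Finset ι} {x : ∀ i, ZMod (n i)} :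
    x ∈ PA A T ↔ (∀ i ∈ T, x i ∈ A i) ∧ (∀ i ∉ T, x i = 0) := by
  unfold PA
  rw [Fintype.mem_piFinset]
  constructor
  · intro h
    refine ⟨fun i hi => ?_, fun i hi => ?_⟩
    · have := h i; rwa [if_pos hi] at this
    · have := h i; rw [if_neg hi] at this; exact Finset.mem_singleton.mp this
  · rintro ⟨h1, h2⟩ i
    by_cases hi : i ∈ T
    · rw [if_pos hi]; exact h1 i hi
    · rw [if_neg hi]; exact Finset.mem_singleton.mpr (h2 i hi)

lemma PA_insert (E : (∀ i, ZMod (n i)) ≃+* ZMod N) (A : ∀ i, Finset (ZMod (n i))) {T : Finset ι}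
    {i : ι} (hi : i ∉ T) : (PA A (insert i T)).val.map E =
      (((A i).val.map (inc E i)) ×ˢ ((PA A T).val.map E)).map (fun p => p.1 + p.2) := by
  classical
  rw [map_add_product]
  have h1 : PA A (insert i T) = (A i ×ˢ PA A T).image (fun p => Pi.single i p.1 + p.2) := by
    ext x
    rw [mem_PA, Finset.mem_image]
    constructor
    · rintro ⟨h1, h2⟩
      refine ⟨(x i, Function.update x i 0), Finset.mem_product.mpr ⟨h1 i (Finset.mem_insert_self _ _), ?_⟩, ?_⟩
      · rw [mem_PA]
        refine ⟨fun l hl => ?_, fun l hl => ?_⟩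
        · have : l ≠ i := fun h => hi (h ▸ hl)
          simp only [Function.update_of_ne this]
          exact h1 l (Finset.mem_insert_of_mem hl)
        · by_cases h : l = i
          · subst h; simp
          · simp only [Function.update_of_ne h]
            exact h2 l (by rw [Finset.mem_insert, not_or]; exact ⟨h, hl⟩)
      · funext l
        by_cases h : l = i
        · subst h; simp
        · simp [Function.update_of_ne h, Pi.single_eq_of_ne h]
    · rintro ⟨⟨a, y⟩, hay, rfl⟩
      obtain ⟨ha, hy⟩ := Finset.mem_product.mp hay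
      rw [mem_PA] at hy
      refine ⟨fun l hl => ?_, fun l hl => ?_⟩
      · by_cases h : l = i
        · subst h
          have hyl : y l = 0 := hy.2 l hi
          simp only [Pi.add_apply, Pi.single_eq_same]
          rw [hyl, add_zero]; exact ha
        · simp only [Pi.add_apply, Pi.single_eq_of_ne h, zero_add]
          exact hy.1 l ((Finset.mem_insert.mp hl).resolve_left h)
      · rw [Finset.mem_insert, not_or] at hl
        simp only [Pi.add_apply, Pi.single_eq_of_ne hl.1, zero_add]
        exact hy.2 l hl.2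
  have h2 : Set.InjOn (fun p : ZMod (n i) × (∀ i, ZMod (n i)) => (Pi.single i p.1 + p.2 : ∀ i, ZMod (n i)))
      ((A i ×ˢ PA A T : Finset _) : Set _) := by
    rintro ⟨a, y⟩ hay ⟨b, z⟩ hbz h
    have hy := (mem_PA.mp (Finset.mem_product.mp (Finset.mem_coe.mp hay)).2).2 i hi
    have hz := (mem_PA.mp (Finset.mem_product.mp (Finset.mem_coe.mp hbz)).2).2 i hi
    simp only at hy hz h
    have hab : a = b := by
      have := congrFun h i
      simpa [hy, hz] using this
    subst hab
    rw [Prod.mk.injEq]
    exact ⟨rfl, add_left_cancel h⟩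
  rw [h1, Finset.image_val_of_injOn h2, Multiset.map_map, Finset.product_val]
  apply Multiset.map_congr rfl
  rintro ⟨a, y⟩ _
  simp only [Function.comp_apply, map_add, inc_apply]

lemma spec_trivial : Spec N 1 {0} := by
  refine ⟨1, Unit, inferInstance, inferInstance, 1, fun _ => 0, one_ne_zero, ?_, ?_, ?_, ?_⟩
  · intro g _; rfl
  · rw [one_smul]; rfl
  · rw [MonoidHom.one_apply]
    simp only [AddChar.map_zero_eq_one]
    exact Matrix.diagonal_one.symm
  · simp

lemma spec_PA (E : (∀ i, ZMod (n i)) ≃+* ZMod N) (A : ∀ i, Finset (ZMod (n i))) (ε : ι → ℂ)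
    (T : Finset ι) (h : ∀ i ∈ T, Spec N (ε i) ((A i).val.map (inc E i))) :
    Spec N (∏ i ∈ T, ε i) ((PA A T).val.map E) := by
  classical
  induction T using Finset.induction_on with
  | empty =>
    have : PA A ∅ = {0} := by
      ext x
      rw [mem_PA, Finset.mem_singleton]
      constructor
      · rintro ⟨_, h⟩; funext i; exact h i (Finset.notMem_empty _)
      · rintro rfl; exact ⟨fun i hi => absurd hi (Finset.notMem_empty _), fun _ _ => rfl⟩
    rw [this, Finset.prod_empty, Finset.singleton_val, Multiset.map_singleton, map_zero]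
    exact spec_trivial
  | insert i T hi ih =>
    rw [Finset.prod_insert hi, PA_insert E A hi]
    exact (h i (Finset.mem_insert_self _ _)).tensor (ih fun l hl => h l (Finset.mem_insert_of_mem hl))

end spectra

end Pool.Agent.N992
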