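import Pool.Agent.N992.Kill

/-!
The levels which are products of distinct primes congruent to 3 modulo 4 and possibly 4.
-/

namespace Pool.Agent.N992

open Finset Pool.Agent.H916R2 Pool.Agent.Y2.Cv

set_option linter.unusedSectionVars false

section level

variable {ι : Type} [Fintype ι] [LinearOrder ι] {n : ι → ℕ} [∀ i, NeZero (n i)] {N : ℕ} [NeZero N]
  {Q : Type} [AddCommGroup Q] {c : ZMod N → Q}

/-- the pairs (value of `c`, sawtooth sums) of the unions of modular spectra -/
def KK (E : (∀ i, ZMod (n i)) ≃+* ZMod N) {c : ZMod N → Q} (hc : OddDist c) :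
    AddSubgroup (Q × ((∀ i, ZMod (n i))ˣ → ℤ)) where
  carrier := {z | ∃ s, Modu N s ∧ (s.map c).sum = z.1 ∧
    ∀ t : (∀ i, ZMod (n i))ˣ, (s.map (fun a => saw (E (t : ∀ i, ZMod (n i)) * a))).sum = z.2 t}
  add_mem' := by
    rintro z w ⟨s, hs, h1, h2⟩ ⟨s', hs', h1', h2'⟩
    refine ⟨s + s', hs.add hs', ?_, ?_⟩
    · rw [Multiset.map_add, Multiset.sum_add, h1, h1']; rfl
    · intro t
      rw [Multiset.map_add, Multiset.sum_add, h2, h2']; rfl
  zero_mem' := ⟨0, Modu.zero, by simp, by simp⟩
  neg_mem' := by
    rintro z ⟨s, hs, h1, h2⟩
    refine ⟨s.map Neg.neg, hs.neg, ?_, ?_⟩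
    · rw [Multiset.map_map]
      have : (s.map (c ∘ Neg.neg)) = s.map (fun a => - c a) :=
        Multiset.map_congr rfl fun a _ => hc.neg a
      rw [this, Multiset.sum_map_neg, h1]; rfl
    · intro t
      rw [Multiset.map_map]
      have : (s.map ((fun a => saw (E (t : ∀ i, ZMod (n i)) * a)) ∘ Neg.neg)) =
          s.map (fun a => - saw (E (t : ∀ i, ZMod (n i)) * a)) :=
        Multiset.map_congr rfl fun a _ => by
          simp only [Function.comp_apply, mul_neg, saw_neg]
      rw [this, Multiset.sum_map_neg, h2]; rfl

lemma mem_KK_of (E : (∀ i, ZMod (n i)) ≃+* ZMod N) (hc : OddDist c)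
    (P : Finset (∀ i, ZMod (n i))) (hP : Modu N (P.val.map E)) :
    (∑ x ∈ P, c (E x), fun t : (∀ i, ZMod (n i))ˣ => ∑ x ∈ P, saw (E ((t : ∀ i, ZMod (n i)) * x))) ∈
      KK E hc := by
  refine ⟨_, hP, ?_, ?_⟩
  · rw [Multiset.map_map]; rfl
  · intro t
    rw [Multiset.map_map]
    change _ = ∑ x ∈ P, saw (E ((t : ∀ i, ZMod (n i)) * x))
    unfold Finset.sum
    congr 1
    apply Multiset.map_congr rfl
    intro x _
    simp only [Function.comp_apply, map_mul]

lemma not_unit_zero' {k : ℕ} (hk : (k.Prime ∧ k % 4 = 3) ∨ k = 4) : ¬ IsUnit (0 : ZMod k) := by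
  have hk2 : Fact (1 < k) := ⟨by
    rcases hk with h | h
    · exact h.1.one_lt
    · omega⟩
  exact not_isUnit_zero

lemma QQ_eq_PA (T : Finset ι) : QQ n T = PA (fun i => Hf (n i)) T := rfl

lemma zero_notMem_QQ {T : Finset ι} (hn : Adm n) (hT : T.Nonempty) : (0 : ∀ i, ZMod (n i)) ∉ QQ n T := by
  intro h
  rw [QQ_eq_PA, Pool.Agent.N992.mem_PA] at h
  obtain ⟨i, hi⟩ := hT
  have h1 := h.1 i hi
  rw [mem_Hf1] at h1
  exact not_unit_zero' (hn i) h1.1

/-- The class of a product of half systems comes from unions of modular spectra. -/
lemma QQ_mem_KK (hn : Adm n) (hco : Pairwise (fun i j => (n i).Coprime (n j)))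
    (E : (∀ i, ZMod (n i)) ≃+* ZMod N) (hc : OddDist c) : ∀ (k : ℕ) (T : Finset ι), T.card = k →
    (∑ x ∈ QQ n T, c (E x),
      fun t : (∀ i, ZMod (n i))ˣ => ∑ x ∈ QQ n T, saw (E ((t : ∀ i, ZMod (n i)) * x))) ∈ KK E hc := by
  classical
  intro k
  induction k with
  | zero =>
    intro T hT
    rw [Finset.card_eq_zero] at hT
    subst hT
    have h0 : QQ n (∅ : Finset ι) = {0} := by
      ext x
      rw [QQ_eq_PA, Pool.Agent.N992.mem_PA, Finset.mem_singleton]
      constructor
      · rintro ⟨_, h⟩; funext i; exact h i (Finset.notMem_empty _)
      · rintro rfl; exact ⟨fun i hi => absurd hi (Finset.notMem_empty _), fun _ _ => rfl⟩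
    rw [h0]
    simp only [Finset.sum_singleton, map_zero, mul_zero, saw_zero, hc.half 0 (by simp)]
    exact (KK E hc).zero_mem
  | succ k ih =>
    intro T hT
    have hTne : T.Nonempty := Finset.card_pos.mp (by omega)
    have h0T := zero_notMem_QQ (n := n) hn hTne
    have hspec1 : ∀ i, (n i).Prime → Spec N 1 ((Hf (n i)).val.map (inc E i)) := by
      intro i hp
      have : Fact (n i).Prime := ⟨hp⟩
      have h3 : n i % 4 = 3 := by
        rcases hn i with h | h
        · exact h.2
        · rw [h] at hp; exact absurd hp (by norm_num)
      exact spec_odd h3 (inc E i) (inc_injective E i)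
    have hspec4 : ∀ i, n i = 4 → Spec N (-1) ((Hf (n i)).val.map (inc E i)) := by
      intro i hi
      have key : ∀ (k : ℕ) [NeZero k] (j : ZMod k →+ ZMod N), k = 4 → Function.Injective j →
          Spec N (-1) ((Hf k).val.map j) := by
        intro k _ j hk hj
        subst hk
        have h1 : Hf 4 = {1} := by
          ext a
          rw [mem_Hf1, Finset.mem_singleton]
          revert a
          decide
        rw [h1, Finset.singleton_val, Multiset.map_singleton]
        exact spec_four j hj
      exact key (n i) (inc E i) hi (inc_injective E i)
    by_cases h4 : ∃ i ∈ T, n i = 4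
    · obtain ⟨i4, hi4, hn4⟩ := h4
      have huniq : ∀ i, i ≠ i4 → (n i).Prime := by
        intro i hi
        rcases hn i with h | h
        · exact h.1
        · exfalso
          have h5 : (n i).Coprime (n i4) := hco hi
          rw [h, hn4] at h5
          norm_num at h5
      by_cases h1 : ∃ i ∈ T, i ≠ i4
      · obtain ⟨i1, hi1, hne⟩ := h1
        -- replace the half system at i1 by its union with zero
        let A : ∀ i, Finset (ZMod (n i)) := fun i => if i = i1 then insert 0 (Hf (n i)) else Hf (n i)
        let ε : ι → ℂ := fun i => if i = i1 ∨ i = i4 then -1 else 1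
        have hs := spec_PA E A ε T (by
          intro i hi
          by_cases e1 : i = i1
          · subst e1
            have hA : A i = insert 0 (Hf (n i)) := if_pos rfl
            have hε : ε i = -1 := if_pos (Or.inl rfl)
            rw [hA, hε]
            have : Fact (n i).Prime := ⟨huniq i hne⟩
            have h3 : n i % 4 = 3 := by
              rcases hn i with h | h
              · exact h.2
              · have hp := huniq i hne; rw [h] at hp; exact absurd hp (by norm_num)
            exact spec_even h3 (inc E i) (inc_injective E i)
          · have hA : A i = Hf (n i) := if_neg e1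
            rw [hA]
            by_cases e4 : i = i4
            · have hε : ε i = -1 := if_pos (Or.inr e4)
              rw [hε]
              exact hspec4 i (by rw [e4]; exact hn4)
            · have hε : ε i = 1 := if_neg (by rw [not_or]; exact ⟨e1, e4⟩)
              rw [hε]
              exact hspec1 i (huniq i e4))
        have hprod : ∏ i ∈ T, ε i = 1 := by
          have h2 : ∏ i ∈ T, ε i = ∏ i ∈ ({i1, i4} : Finset ι), ε i := by
            symm
            apply Finset.prod_subset
            · intro x hx
              rcases Finset.mem_insert.mp hx with rfl | hx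
              · exact hi1
              · rw [Finset.mem_singleton.mp hx]; exact hi4
            · intro x _ hx
              apply if_neg
              intro h
              apply hx
              rcases h with rfl | rfl
              · exact Finset.mem_insert_self _ _
              · exact Finset.mem_insert_of_mem (Finset.mem_singleton_self _)
          rw [h2, Finset.prod_pair hne]
          have e1 : ε i1 = -1 := if_pos (Or.inl rfl)
          have e2 : ε i4 = -1 := if_pos (Or.inr rfl)
          rw [e1, e2]; norm_num
        rw [hprod] at hs
        have hmod := hs.modular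
        -- no zero entries
        have hfil : ((PA A T).val.map E).filter (fun a => a ≠ 0) = (PA A T).val.map E := by
          rw [Multiset.filter_eq_self]
          intro a ha
          obtain ⟨x, hx, rfl⟩ := Multiset.mem_map.mp ha
          intro h0
          have hx0 : x = 0 := by
            apply E.injective; rw [h0, map_zero]
          have h2 := (Pool.Agent.N992.mem_PA.mp (Finset.mem_val.mp hx)).1 i4 hi4
          have hA : A i4 = Hf (n i4) := if_neg (Ne.symm hne)
          rw [hA, mem_Hf1, hx0] at h2
          exact not_unit_zero' (hn i4) h2.1
        rw [hfil] at hmod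
        have hK := mem_KK_of E hc (PA A T) (Modu.single hmod)
        -- split the product
        have hdisj : Disjoint (QQ n T) (QQ n (T.erase i1)) := by
          rw [Finset.disjoint_left]
          intro x hx hx'
          rw [QQ_eq_PA, Pool.Agent.N992.mem_PA] at hx hx'
          have h2 := hx.1 i1 hi1
          rw [mem_Hf1, hx'.2 i1 (Finset.notMem_erase i1 T)] at h2
          exact not_unit_zero' (hn i1) h2.1
        have hunion : PA A T = QQ n T ∪ QQ n (T.erase i1) := by
          ext x
          rw [Finset.mem_union, QQ_eq_PA, QQ_eq_PA, Pool.Agent.N992.mem_PA,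
            Pool.Agent.N992.mem_PA, Pool.Agent.N992.mem_PA]
          constructor
          · rintro ⟨h2, h3⟩
            have h4 := h2 i1 hi1
            have hA : A i1 = insert 0 (Hf (n i1)) := if_pos rfl
            rw [hA] at h4
            have h5 : ∀ i ∈ T, i ≠ i1 → x i ∈ Hf (n i) := by
              intro i hi hne
              have := h2 i hi
              have hA : A i = Hf (n i) := if_neg hne
              rwa [hA] at this
            rcases Finset.mem_insert.mp h4 with h4 | h4
            · right
              refine ⟨fun i hi => h5 i (Finset.mem_of_mem_erase hi) (Finset.ne_of_mem_erase hi),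
                fun i hi => ?_⟩
              by_cases h6 : i = i1
              · rw [h6]; exact h4
              · exact h3 i (fun h => hi (Finset.mem_erase.mpr ⟨h6, h⟩))
            · left
              refine ⟨fun i hi => ?_, h3⟩
              by_cases h6 : i = i1
              · subst h6; exact h4
              · exact h5 i hi h6
          · rintro (⟨h2, h3⟩ | ⟨h2, h3⟩)
            · refine ⟨fun i hi => ?_, h3⟩
              by_cases h6 : i = i1
              · subst h6
                have hA : A i = insert 0 (Hf (n i)) := if_pos rfl
                rw [hA]; exact Finset.mem_insert_of_mem (h2 i hi)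
              · have hA : A i = Hf (n i) := if_neg h6
                rw [hA]; exact h2 i hi
            · refine ⟨fun i hi => ?_, fun i hi => h3 i (fun h => hi (Finset.mem_of_mem_erase h))⟩
              by_cases h6 : i = i1
              · subst h6
                have hA : A i = insert 0 (Hf (n i)) := if_pos rfl
                rw [hA, h3 i (Finset.notMem_erase i T)]; exact Finset.mem_insert_self _ _
              · have hA : A i = Hf (n i) := if_neg h6
                rw [hA]; exact h2 i (Finset.mem_erase.mpr ⟨h6, hi⟩)
        have hih := ih (T.erase i1) (by rw [Finset.card_erase_of_mem hi1, hT]; rfl)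
        have hsub := (KK E hc).sub_mem hK hih
        convert hsub using 1
        refine Prod.ext ?_ ?_
        · change _ = _ - _
          simp only []
          rw [hunion, Finset.sum_union hdisj]; abel
        · change _ = (_ : (∀ i, ZMod (n i))ˣ → ℤ) - _
          funext t
          simp only [Pi.sub_apply]
          rw [hunion, Finset.sum_union hdisj]; ring
      · push Not at h1
        have hT1 : T = {i4} := Finset.eq_singleton_iff_unique_mem.mpr ⟨hi4, h1⟩
        apply mem_KK_of
        apply Modu.torsion
        intro a ha
        obtain ⟨x, hx, rfl⟩ := Multiset.mem_map.mp ha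
        have h2 := (Pool.Agent.N992.mem_PA.mp (Finset.mem_val.mp hx)).2
        have h3 : (12 : ℕ) • x = 0 := by
          funext i
          rw [Pi.smul_apply, Pi.zero_apply]
          by_cases hi : i = i4
          · rw [nsmul_eq_mul]
            have : ((12 : ℕ) : ZMod (n i)) = 0 := by
              rw [ZMod.natCast_eq_zero_iff, hi, hn4]; norm_num
            rw [this, zero_mul]
          · rw [h2 i (by rw [hT1, Finset.mem_singleton]; exact hi), smul_zero]
        have h5 : E ((12 : ℕ) • x) = 0 := by rw [h3, map_zero]
        rw [map_nsmul, nsmul_eq_mul] at h5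
        exact_mod_cast h5
    · push Not at h4
      have hs := spec_PA E (fun i => Hf (n i)) (fun _ => 1) T (by
        intro i hi
        apply hspec1 i
        rcases hn i with h | h
        · exact h.1
        · exact absurd h (h4 i hi))
      rw [Finset.prod_const_one] at hs
      have hmod := hs.modular
      have hfil : ((PA (fun i => Hf (n i)) T).val.map E).filter (fun a => a ≠ 0) =
          (PA (fun i => Hf (n i)) T).val.map E := by
        rw [Multiset.filter_eq_self]
        intro a ha
        obtain ⟨x, hx, rfl⟩ := Multiset.mem_map.mp ha
        intro h0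
        apply h0T
        have hx0 : x = 0 := by
          apply E.injective; rw [h0, map_zero]
        rw [← hx0]; exact hx
      rw [hfil] at hmod
      exact mem_KK_of E hc (QQ n T) (Modu.single hmod)

end level

end Pool.Agent.N992
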