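import Pool.Agent.N992.Level

/-!
All relations at a level which is a product of distinct primes congruent to 3 modulo 4 and possibly 4
follow from the distribution relations and the modular characters.
-/

namespace Pool.Agent.N992

open Finset Pool.Agent.H916R2 Pool.Agent.Y2.Cv

set_option linter.unusedSectionVars false

lemma saw_oddDist {m : ℕ} [NeZero m] : OddDist (fun a : ZMod m => saw a) where
  neg := fun a => saw_neg a
  half := fun a ha => saw_half ha
  dist := fun p d _ hpd a => saw_dist hpd a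

section level

variable {ι : Type} [Fintype ι] [LinearOrder ι] {n : ι → ℕ} [∀ i, NeZero (n i)] {N : ℕ} [NeZero N]

lemma hrel_of {Q : Type} [AddCommGroup Q] {c : ZMod N → Q}
    (hn : Adm n) (hco : Pairwise (fun i j => (n i).Coprime (n j)))
    (hN : ∏ i, n i = N) (E : (∀ i, ZMod (n i)) ≃+* ZMod N) (hc : OddDist c)
    (hk : ∀ s, ModularCharacter N s → (s.map c).sum = 0) (T : Finset ι) (hT : Even T.card) :
    ∑ x ∈ QQ n T, c (E x) ∈
      AddSubgroup.closure {q | ∃ T' : Finset ι, T' ⊂ T ∧ q = ∑ x ∈ QQ n T', c (E x)} := by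
  have hrel := rel_closure (n := n) hn hco (fun x => saw (E x)) (piDist_of hn hco hN E saw_oddDist) T hT
  set X : Set (Q × ((∀ i, ZMod (n i))ˣ → ℤ)) := {z | ∃ T' : Finset ι, T' ⊂ T ∧
    z = (∑ x ∈ QQ n T', c (E x),
      fun t : (∀ i, ZMod (n i))ˣ => ∑ x ∈ QQ n T', saw (E ((t : ∀ i, ZMod (n i)) * x)))} with hX
  have h1 : {f : (∀ i, ZMod (n i))ˣ → ℤ | ∃ T' : Finset ι, T' ⊂ T ∧
        f = fun t : (∀ i, ZMod (n i))ˣ => ∑ x ∈ QQ n T', saw (E ((t : ∀ i, ZMod (n i)) * x))} =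
      (AddMonoidHom.snd Q ((∀ i, ZMod (n i))ˣ → ℤ)) '' X := by
    ext f
    constructor
    · rintro ⟨T', h, rfl⟩; exact ⟨_, ⟨T', h, rfl⟩, rfl⟩
    · rintro ⟨_, ⟨T', h, rfl⟩, rfl⟩; exact ⟨T', h, rfl⟩
  rw [h1, ← AddMonoidHom.map_closure] at hrel
  obtain ⟨z, hz, hz2⟩ := hrel
  have hz1 : z.1 ∈ AddSubgroup.closure {q | ∃ T' : Finset ι, T' ⊂ T ∧ q = ∑ x ∈ QQ n T', c (E x)} := by
    have h2 : z.1 ∈ (AddSubgroup.closure X).map (AddMonoidHom.fst Q ((∀ i, ZMod (n i))ˣ → ℤ)) :=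
      ⟨z, hz, rfl⟩
    rw [AddMonoidHom.map_closure] at h2
    refine AddSubgroup.closure_mono ?_ h2
    rintro _ ⟨_, ⟨T', h, rfl⟩, rfl⟩
    exact ⟨T', h, rfl⟩
  have hzK : z ∈ KK E hc := by
    refine (AddSubgroup.closure_le (K := KK E hc)).mpr ?_ hz
    rintro _ ⟨T', _, rfl⟩
    exact QQ_mem_KK hn hco E hc _ T' rfl
  have hTK := QQ_mem_KK hn hco E hc _ T rfl
  obtain ⟨s, hs, hs1, hs2⟩ := (KK E hc).sub_mem hTK hzK
  have hzero : (s.map c).sum = 0 := by
    apply kill_of_balanced hc hk hs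
    intro t
    obtain ⟨u, hu⟩ : ∃ u : (∀ i, ZMod (n i))ˣ, E (u : ∀ i, ZMod (n i)) = (t : ZMod N) := by
      refine ⟨Units.mapEquiv E.symm.toMulEquiv t, ?_⟩
      simp
    have h3 := hs2 u
    rw [hu] at h3
    rw [h3]
    change (∑ x ∈ QQ n T, saw (E ((u : ∀ i, ZMod (n i)) * x))) - z.2 u = 0
    have h4 : z.2 = fun t : (∀ i, ZMod (n i))ˣ => ∑ x ∈ QQ n T, saw (E ((t : ∀ i, ZMod (n i)) * x)) := hz2
    rw [h4]; ring
  rw [hs1] at hzero
  have h5 : ∑ x ∈ QQ n T, c (E x) = z.1 := sub_eq_zero.mp hzero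
  rw [h5]
  exact hz1

theorem full_level [Nonempty ι] (hn : Adm n) (hco : Pairwise (fun i j => (n i).Coprime (n j)))
    (hN : ∏ i, n i = N) (E : (∀ i, ZMod (n i)) ≃+* ZMod N) : FullP N (ModularCharacter N) := by
  classical
  have hn3 : ∀ i, 3 ≤ n i := by
    intro i
    rcases hn i with h | h
    · omega
    · omega
  have hN3 : 3 ≤ N := by
    obtain ⟨i⟩ := (inferInstance : Nonempty ι)
    have h1 : n i ∣ N := by rw [← hN]; exact Finset.dvd_prod_of_mem n (mem_univ i)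
    exact le_trans (hn3 i) (Nat.le_of_dvd (NeZero.pos N) h1)
  apply fullP_of_gen (fun s hs => hs.1) hN3 ((univ.filter (fun x => IsB n x)).image E)
  · have h1 := card_B_le n hn (univ.filter (fun x => IsB n x)) (fun x hx => (mem_filter.mp hx).2)
    have h2 : ((univ.filter (fun x => IsB n x)).image E).card ≤ (univ.filter (fun x => IsB n x)).card :=
      Finset.card_image_le
    have h3 : ∏ i, Nat.totient (n i) = Nat.totient N := by
      rw [← ZMod.card_units_eq_totient N]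
      have h4 : ∀ i, Nat.totient (n i) = Fintype.card (ZMod (n i))ˣ := fun i =>
        (ZMod.card_units_eq_totient (n i)).symm
      simp only [h4]
      rw [← Fintype.card_pi]
      apply Fintype.card_congr
      exact (MulEquiv.piUnits.symm.trans (Units.mapEquiv E.toMulEquiv)).toEquiv
    rw [h3] at h1
    omega
  · intro Q _ c hc hk S hS a
    have h1 := gen_pi n hn (fun x => c (E x)) (piDist_of hn hco hN E hc) S
      (fun x hx => hS _ (mem_image.mpr ⟨x, mem_filter.mpr ⟨mem_univ _, hx⟩, rfl⟩))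
      (fun T hT => hrel_of hn hco hN E hc hk T hT) (E.symm a)
    simpa using h1

end level

end Pool.Agent.N992
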