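import Pool.Agent.Y2.Cv.Full

/-!
Odd distributions on a product of the rings `ZMod (n i)`, where each `n i` is a prime congruent to 3
modulo 4, or 4.
-/

namespace Pool.Agent.N992

open Finset

/-- Every `n i` is a prime congruent to 3 modulo 4, or 4. -/
def Adm {ι : Type} (n : ι → ℕ) : Prop := ∀ i, ((n i).Prime ∧ n i % 4 = 3) ∨ n i = 4

/-- Odd distributions on the product ring. -/
structure PiDist {ι : Type} [DecidableEq ι] (n : ι → ℕ) [∀ i, NeZero (n i)] {Q : Type*}
    [AddCommGroup Q] (c : (∀ i, ZMod (n i)) → Q) : Prop where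
  neg : ∀ x, c (-x) = - c x
  dist : ∀ i, (n i).Prime → ∀ x, ∑ j : ZMod (n i), c (Function.update x i j) = c ((n i) • x)
  four : ∀ i, n i = 4 → ∀ x, c x + c (Function.update x i (x i + 2)) = c (2 • x)

/-- the squares of units -/
noncomputable def Hf (k : ℕ) [NeZero k] : Finset (ZMod k) := by
  classical exact univ.filter (fun a => IsUnit a ∧ IsSquare a)

section

variable {ι : Type} [Fintype ι] [DecidableEq ι] (n : ι → ℕ) [∀ i, NeZero (n i)]

/-- the product of the half systems over `T` -/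
noncomputable def QQ (T : Finset ι) : Finset (∀ i, ZMod (n i)) :=
  Fintype.piFinset (fun i => if i ∈ T then Hf (n i) else {0})

/-- The generating elements. -/
def IsB [LinearOrder ι] (x : ∀ i, ZMod (n i)) : Prop :=
  (∀ i, x i = 0 ∨ (IsUnit (x i) ∧ x i ≠ -1)) ∧
  ((∃ i, x i ≠ 0 ∧ x i ≠ 1 ∧ 2 * (x i).val < n i ∧ ∀ j < i, x j = 0 ∨ x j = 1) ∨
   ((∀ i, x i = 0 ∨ x i = 1) ∧ Odd (univ.filter (fun i => x i = 1)).card))

end

end Pool.Agent.N992
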