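import Pool.Agent.N992.Spec
import Pool.Agent.N992.Setup

/-!
The exponents of the odd and even parts of the Weil representations and of the character of order 4.
-/

namespace Pool.Agent.N992

open Finset Matrix MatrixGroups

lemma mem_Hf1 {k : ℕ} [NeZero k] {a : ZMod k} : a ∈ Hf k ↔ IsUnit a ∧ IsSquare a := by
  unfold Hf; simp

section prime

variable {p : ℕ} [Fact p.Prime]

lemma mem_Hf_prime {a : ZMod p} : a ∈ Hf p ↔ a ≠ 0 ∧ IsSquare a := by
  rw [mem_Hf1, isUnit_iff_ne_zero]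

lemma not_sq_neg_one (hp : p % 4 = 3) : ¬ IsSquare (-1 : ZMod p) := by
  rw [ZMod.exists_sq_eq_neg_one_iff]
  omega

lemma two_ne_zero_zmod (hp : p % 4 = 3) : (2 : ZMod p) ≠ 0 := by
  have h : ((2 : ℕ) : ZMod p) ≠ 0 := by
    intro h
    rw [ZMod.natCast_eq_zero_iff] at h
    have := Nat.le_of_dvd (by norm_num) h
    have := (Fact.out : p.Prime).two_le
    have : p = 2 := by omega
    omega
  exact_mod_cast h

lemma neg_mem_Hf (hp : p % 4 = 3) {h : ZMod p} (h1 : h ∈ Hf p) : -h ∉ Hf p := by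
  rw [mem_Hf_prime] at h1
  intro h2
  rw [mem_Hf_prime] at h2
  apply not_sq_neg_one hp
  have : (-1 : ZMod p) = -h / h := by field_simp [h1.1]
  rw [this]
  exact h2.2.div h1.2

lemma cover_Hf (hp : p % 4 = 3) {x : ZMod p} (hx : x ≠ 0) : x ∈ Hf p ∨ -x ∈ Hf p := by
  by_cases h : IsSquare x
  · left; exact mem_Hf_prime.mpr ⟨hx, h⟩
  · right
    refine mem_Hf_prime.mpr ⟨neg_ne_zero.mpr hx, ?_⟩
    rw [← quadraticChar_one_iff_isSquare (neg_ne_zero.mpr hx), ← neg_one_mul, map_mul,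
      quadraticChar_neg_one_iff_not_isSquare.mpr h,
      quadraticChar_neg_one_iff_not_isSquare.mpr (not_sq_neg_one hp)]
    norm_num

lemma trans_odd (hp : p % 4 = 3) : Trans (Hf p) (-1 : ℂ) where
  inter := fun h h1 h2 => absurd h2 (neg_mem_Hf hp h1)
  cover := fun x => by
    by_cases hx : x = 0
    · exact Or.inr (Or.inr ⟨hx, rfl⟩)
    · rcases cover_Hf hp hx with h | h
      · exact Or.inl h
      · exact Or.inr (Or.inl h)
  sq := by norm_num

lemma trans_even (hp : p % 4 = 3) : Trans (insert 0 (Hf p)) (1 : ℂ) where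
  inter := fun h h1 h2 => by
    refine ⟨?_, rfl⟩
    rcases Finset.mem_insert.mp h1 with h1 | h1
    · exact h1
    · rcases Finset.mem_insert.mp h2 with h2 | h2
      · exact neg_eq_zero.mp h2
      · exact absurd h2 (neg_mem_Hf hp h1)
  cover := fun x => by
    by_cases hx : x = 0
    · left; rw [hx]; exact Finset.mem_insert_self _ _
    · rcases cover_Hf hp hx with h | h
      · exact Or.inl (Finset.mem_insert_of_mem h)
      · exact Or.inr (Or.inl (Finset.mem_insert_of_mem h))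
  sq := by norm_num

lemma sq_map_Hf (hp : p % 4 = 3) : (Hf p).val.map (fun x => x ^ 2) = (Hf p).val := by
  classical
  have hinj : Set.InjOn (fun x : ZMod p => x ^ 2) (Hf p : Set (ZMod p)) := by
    intro x hx y hy hxy
    rcases sq_eq_sq_iff_eq_or_eq_neg.mp hxy with h | h
    · exact h
    · exfalso
      have h1 : -y ∈ Hf p := by rw [← h]; exact hx
      exact neg_mem_Hf hp hy h1
  rw [← Finset.image_val_of_injOn hinj]
  congr 1
  apply Finset.eq_of_subset_of_card_le
  · intro y hy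
    obtain ⟨x, hx, rfl⟩ := Finset.mem_image.mp hy
    rw [mem_Hf_prime] at hx ⊢
    exact ⟨pow_ne_zero 2 hx.1, IsSquare.sq x⟩
  · rw [Finset.card_image_of_injOn hinj]

variable {m : ℕ} [NeZero m]

lemma prim_of_inj (j : ZMod p →+ ZMod m) (hj : Function.Injective j) :
    ((ZMod.stdAddChar (N := m)).compAddMonoidHom j).IsPrimitive := by
  apply AddChar.IsPrimitive.of_ne_one
  intro h
  have h1 := congrArg (fun φ : AddChar (ZMod p) ℂ => φ 1) h
  simp only [AddChar.compAddMonoidHom_apply, AddChar.one_apply] at h1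
  have h2 : j 1 = 0 := by
    apply ZMod.injective_stdAddChar
    rw [h1, AddChar.map_zero_eq_one]
  have h3 : (1 : ZMod p) = 0 := hj (by rw [h2, map_zero])
  exact one_ne_zero h3

lemma qc_neg_one (hp : p % 4 = 3) : qc (-1 : ZMod p) = -1 := by
  unfold qc
  rw [quadraticChar_neg_one_iff_not_isSquare.mpr (not_sq_neg_one hp)]
  norm_num

lemma spec_part (hp : p % 4 = 3) (j : ZMod p →+ ZMod m) (hj : Function.Injective j)
    {K : Finset (ZMod p)} {σ : ℂ} (hK : Trans K σ) :
    Spec m (-σ) (K.val.map (fun x => j (x ^ 2))) := by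
  have hp2 : p ≠ 2 := by omega
  have h2 := two_ne_zero_zmod hp
  have hψ := prim_of_inj j hj
  refine ⟨p, {x // x ∈ K}, inferInstance, inferInstance, weilPart _ hp2 hψ h2 hK,
    fun x => j ((x : ZMod p) ^ 2), (Fact.out : p.Prime).ne_zero, ?_, ?_, ?_, ?_⟩
  · intro g hg
    rw [weilPart_apply, weil_gamma _ hp2 hψ g hg, Matrix.mul_one, PP_mul_PI h2 hK]
  · rw [weilPart_apply, weil_neg_one, PP_flip_PI h2 hK, qc_neg_one hp]
    congr 1
    ring
  · rw [weilPart_apply, weil_T, PP_diag_PI h2 hK]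
    · rfl
    · intro x
      rw [neg_sq]
  · rw [Finset.univ_eq_attach]
    conv_lhs => rw [← Finset.attach_map_val (s := K)]
    rw [Finset.map_val, Multiset.map_map]
    rfl

lemma spec_odd (hp : p % 4 = 3) (j : ZMod p →+ ZMod m) (hj : Function.Injective j) :
    Spec m 1 ((Hf p).val.map j) := by
  have h := spec_part hp j hj (trans_odd hp)
  rw [neg_neg] at h
  have e : (Hf p).val.map (fun x => j (x ^ 2)) = ((Hf p).val.map (fun x => x ^ 2)).map j := by
    rw [Multiset.map_map]; rfl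
  rwa [e, sq_map_Hf hp] at h

lemma spec_even (hp : p % 4 = 3) (j : ZMod p →+ ZMod m) (hj : Function.Injective j) :
    Spec m (-1) ((insert 0 (Hf p)).val.map j) := by
  have h := spec_part hp j hj (trans_even hp)
  have e : ∀ K : Multiset (ZMod p), K.map (fun x => j (x ^ 2)) = (K.map (fun x => x ^ 2)).map j := by
    intro K; rw [Multiset.map_map]; rfl
  rw [e] at h
  have h0 : (0 : ZMod p) ∉ Hf p := by rw [mem_Hf_prime]; simp
  rw [Finset.insert_val_of_notMem h0, Multiset.map_cons, sq_map_Hf hp] at h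
  rw [Finset.insert_val_of_notMem h0]
  simpa using h

end prime

/-! ### The character of order 4 -/

/-- the exponent of the character of order 4 -/
def f4 (a b c d : ZMod 4) : ZMod 4 :=
  (1 - c * c) * (b * d + 3 * (c - 1) * d + c + 3) + c * (a + d - 3)

set_option maxRecDepth 100000 in
theorem f4_mul : ∀ a b c d : ZMod 4, a * d - b * c = 1 → ∀ a' b' c' d' : ZMod 4,
    a' * d' - b' * c' = 1 →
    f4 (a * a' + b * c') (a * b' + b * d') (c * a' + d * c') (c * b' + d * d') =
      f4 a b c d + f4 a' b' c' d' := by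
  decide +kernel

/-- the character of order 4, additively -/
def f4Z (g : SL(2, ℤ)) : ZMod 4 :=
  f4 ((g.1 0 0 : ℤ) : ZMod 4) ((g.1 0 1 : ℤ) : ZMod 4) ((g.1 1 0 : ℤ) : ZMod 4)
    ((g.1 1 1 : ℤ) : ZMod 4)

lemma f4Z_mul (g h : SL(2, ℤ)) : f4Z (g * h) = f4Z g + f4Z h := by
  have hg := g.2
  have hh := h.2
  rw [det_fin_two] at hg hh
  have hg' : ((g.1 0 0 : ℤ) : ZMod 4) * ((g.1 1 1 : ℤ) : ZMod 4) -
      ((g.1 0 1 : ℤ) : ZMod 4) * ((g.1 1 0 : ℤ) : ZMod 4) = 1 := by
    exact_mod_cast congrArg (Int.cast : ℤ → ZMod 4) hg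
  have hh' : ((h.1 0 0 : ℤ) : ZMod 4) * ((h.1 1 1 : ℤ) : ZMod 4) -
      ((h.1 0 1 : ℤ) : ZMod 4) * ((h.1 1 0 : ℤ) : ZMod 4) = 1 := by
    exact_mod_cast congrArg (Int.cast : ℤ → ZMod 4) hh
  have := f4_mul _ _ _ _ hg' _ _ _ _ hh'
  unfold f4Z
  rw [← this]
  have hm : (g * h).1 = g.1 * h.1 := rfl
  simp only [hm, Matrix.mul_apply, Fin.sum_univ_two]
  push_cast
  rfl

lemma f4Z_one : f4Z 1 = 0 := by
  have h : (1 : SL(2, ℤ)).1 = (1 : Matrix (Fin 2) (Fin 2) ℤ) := rfl
  unfold f4Z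
  rw [h]
  simp only [Matrix.one_apply]
  decide

lemma f4Z_neg_one : f4Z (-1) = 2 := by
  have h : (-1 : SL(2, ℤ)).1 = -(1 : Matrix (Fin 2) (Fin 2) ℤ) := by
    rw [← Matrix.SpecialLinearGroup.coe_one, ← Matrix.SpecialLinearGroup.coe_neg]
  unfold f4Z
  rw [h]
  simp only [Matrix.neg_apply, Matrix.one_apply]
  decide

lemma f4Z_T : f4Z ModularGroup.T = 1 := by
  have h : ModularGroup.T.1 = !![1, 1; 0, 1] := ModularGroup.coe_T
  unfold f4Z
  rw [h]
  decide

variable {m : ℕ} [NeZero m]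

lemma spec_four (j : ZMod 4 →+ ZMod m) (hj : Function.Injective j) : Spec m (-1) {j 1} := by
  let ψ : AddChar (ZMod 4) ℂ := (ZMod.stdAddChar (N := m)).compAddMonoidHom j
  have hψ : ∀ a, ψ a = ZMod.stdAddChar (j a) := fun a => rfl
  refine ⟨4, Unit, inferInstance, inferInstance,
    { toFun := fun g => ψ (f4Z g) • (1 : Matrix Unit Unit ℂ)
      map_one' := by rw [f4Z_one, AddChar.map_zero_eq_one, one_smul]
      map_mul' := fun g h => by
        rw [f4Z_mul, AddChar.map_add_eq_mul, smul_mul_smul_comm, Matrix.mul_one] },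
    fun _ => j 1, by norm_num, ?_, ?_, ?_, ?_⟩
  · intro g hg
    change ψ (f4Z g) • (1 : Matrix Unit Unit ℂ) = 1
    rw [CongruenceSubgroup.Gamma_mem] at hg
    obtain ⟨h1, h2, h3, h4⟩ := hg
    have : f4Z g = 0 := by
      change f4 _ _ _ _ = 0
      rw [h1, h2, h3, h4]
      decide
    rw [this, AddChar.map_zero_eq_one, one_smul]
  · change ψ (f4Z (-1)) • (1 : Matrix Unit Unit ℂ) = _
    rw [f4Z_neg_one]
    congr 1
    have h1 : ψ 2 * ψ 2 = 1 := by
      rw [← AddChar.map_add_eq_mul]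
      have : (2 + 2 : ZMod 4) = 0 := by decide
      rw [this, AddChar.map_zero_eq_one]
    have h2 : ψ 2 ≠ 1 := by
      intro h
      have h3 : j 2 = 0 := by
        apply ZMod.injective_stdAddChar
        rw [← hψ, h, AddChar.map_zero_eq_one]
      have h4 : (2 : ZMod 4) = 0 := hj (by rw [h3, map_zero])
      exact absurd h4 (by decide)
    rcases mul_self_eq_one_iff.mp h1 with h | h
    · exact absurd h h2
    · exact h
  · change ψ (f4Z ModularGroup.T) • (1 : Matrix Unit Unit ℂ) = _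
    rw [f4Z_T]
    ext i k
    simp [hψ]
  · simp

end Pool.Agent.N992
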