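import Pool.Agent.N992.Main

/-!
Hodge classes on abelian varieties of Fermat type.
-/

namespace Pool.Agent.N992

open Pool.Agent.H916R2

/-- A character of the Fermat curve of degree `m`: three nonzero residues with sum zero. -/
def CurveLine (m : ℕ) (x : ZMod m × ZMod m × ZMod m) : Prop :=
  x.1 ≠ 0 ∧ x.2.1 ≠ 0 ∧ x.2.2 ≠ 0 ∧ x.1 + x.2.1 + x.2.2 = 0

/-- The unit `t` belongs to the CM type of the character `x`: the representatives in
`{1, ..., m - 1}` of `t * a`, `t * b`, `t * c` have sum `m` (and not `2 * m`). -/
def InType (m : ℕ) (x : ZMod m × ZMod m × ZMod m) (t : (ZMod m)ˣ) : Prop :=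
  ((t : ZMod m) * x.1).val + ((t : ZMod m) * x.2.1).val + ((t : ZMod m) * x.2.2).val = m

instance (m : ℕ) (t : (ZMod m)ˣ) : DecidablePred (fun x => InType m x t) := fun x => by
  unfold InType; infer_instance

lemma CurveLine.sum_val {m : ℕ} [NeZero m] {x : ZMod m × ZMod m × ZMod m} (hx : CurveLine m x)
    (t : (ZMod m)ˣ) :
    ((t : ZMod m) * x.1).val + ((t : ZMod m) * x.2.1).val + ((t : ZMod m) * x.2.2).val =
      if InType m x t then m else 2 * m := by
  split_ifs with h
  · exact h
  · obtain ⟨h1, h2, h3, h4⟩ := hx
    have hne : ∀ a : ZMod m, a ≠ 0 → 0 < ((t : ZMod m) * a).val := by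
      intro a ha
      apply Nat.pos_of_ne_zero
      intro h
      exact ha ((t.isUnit.mul_right_eq_zero).mp ((ZMod.val_eq_zero _).mp h))
    have p1 := hne _ h1
    have p2 := hne _ h2
    have p3 := hne _ h3
    have q1 := ZMod.val_lt ((t : ZMod m) * x.1)
    have q2 := ZMod.val_lt ((t : ZMod m) * x.2.1)
    have q3 := ZMod.val_lt ((t : ZMod m) * x.2.2)
    have h5 : m ∣ ((t : ZMod m) * x.1).val + ((t : ZMod m) * x.2.1).val +
        ((t : ZMod m) * x.2.2).val := by
      rw [← ZMod.natCast_eq_zero_iff]
      push_cast
      simp only [ZMod.natCast_zmod_val]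
      rw [← mul_add, ← mul_add, h4, mul_zero]
    obtain ⟨k, hk⟩ := h5
    have hk1 : k ≠ 1 := fun h' => h (by unfold InType; rw [hk, h', mul_one])
    have hk0 : k ≠ 0 := by rintro rfl; rw [mul_zero] at hk; omega
    have hk3 : k < 3 := by
      by_contra hc
      push Not at hc
      have : m * 3 ≤ m * k := Nat.mul_le_mul_left m hc
      omega
    have : k = 2 := by omega
    rw [hk, this, mul_comm]

/-- Hodge classes on products of factors of the Jacobian of the Fermat curve. -/
theorem jacobian_main (m : ℕ) [NeZero m] (hm : ∀ p : ℕ, p.Prime → p ∣ m → p = 2 ∨ p % 4 = 3)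
    (L : Multiset (ZMod m × ZMod m × ZMod m)) (hne : L ≠ 0) (hL : ∀ x ∈ L, CurveLine m x)
    (hH : ∀ t : (ZMod m)ˣ, 2 * Multiset.card (L.filter fun x => InType m x t) = Multiset.card L) :
    Generated m (ModularCharacter m) (L.bind fun x => {x.1, x.2.1, x.2.2}) := by
  have hcard : Multiset.card (L.bind fun x => ({x.1, x.2.1, x.2.2} : Multiset (ZMod m))) =
      3 * Multiset.card L := by
    rw [Multiset.card_bind]
    have : (L.map (Multiset.card ∘ fun x => ({x.1, x.2.1, x.2.2} : Multiset (ZMod m)))) =
        L.map fun _ => 3 := Multiset.map_congr rfl fun x _ => by simp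
    rw [this, Multiset.map_const', Multiset.sum_replicate, smul_eq_mul, mul_comm]
  apply main m hm
  · refine ⟨?_, ?_, ?_, ?_⟩
    · rw [Multiset.mem_bind]
      rintro ⟨x, hx, h⟩
      obtain ⟨h1, h2, h3, _⟩ := hL x hx
      simp only [Multiset.insert_eq_cons, Multiset.mem_cons, Multiset.mem_singleton] at h
      rcases h with h | h | h
      · exact h1 h.symm
      · exact h2 h.symm
      · exact h3 h.symm
    · rw [hcard, ← hH 1]
      exact ⟨3 * Multiset.card (L.filter fun x => InType m x 1), by ring⟩
    · rw [Multiset.sum_bind]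
      apply Multiset.sum_eq_zero
      intro y hy
      obtain ⟨x, hx, rfl⟩ := Multiset.mem_map.mp hy
      have := (hL x hx).2.2.2
      simp only [Multiset.insert_eq_cons, Multiset.sum_cons, Multiset.sum_singleton]
      rw [← this]; ring
    · intro t
      rw [hcard, Multiset.map_bind, Multiset.sum_bind]
      have h1 : ∀ M : Multiset (ZMod m × ZMod m × ZMod m), (∀ x ∈ M, CurveLine m x) →
          (M.map fun x => (({x.1, x.2.1, x.2.2} : Multiset (ZMod m)).map
            fun a => ((t : ZMod m) * a).val).sum).sum +
            m * Multiset.card (M.filter fun x => InType m x t) = 2 * m * Multiset.card M := by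
        intro M
        induction M using Multiset.induction_on with
        | empty => simp
        | cons x M ih =>
          intro hM
          have h2 := ih fun y hy => hM y (Multiset.mem_cons_of_mem hy)
          have h3 := (hM x (Multiset.mem_cons_self _ _)).sum_val t
          rw [Multiset.map_cons, Multiset.sum_cons, Multiset.card_cons]
          have h4 : (({x.1, x.2.1, x.2.2} : Multiset (ZMod m)).map
              fun a => ((t : ZMod m) * a).val).sum = ((t : ZMod m) * x.1).val +
                ((t : ZMod m) * x.2.1).val + ((t : ZMod m) * x.2.2).val := by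
            simp [Multiset.insert_eq_cons]; ring
          rw [h4]
          by_cases hx : InType m x t
          · rw [Multiset.filter_cons_of_pos (p := fun x => InType m x t) _ hx, Multiset.card_cons]
            rw [if_pos hx] at h3
            linarith
          · rw [Multiset.filter_cons_of_neg (p := fun x => InType m x t) _ hx]
            rw [if_neg hx] at h3
            linarith
      have h2 := h1 L hL
      have h3 := hH t
      nlinarith
  · intro h
    have h1 := congrArg Multiset.card h
    rw [hcard, Multiset.card_zero] at h1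
    exact hne (Multiset.card_eq_zero.mp (by omega))

end Pool.Agent.N992
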