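import Pool.Agent.N992.Weil2
import Pool.Agent.N992.Defs

/-!
Exponents of the parabolic generator in representations of `SL(2, ℤ)` with congruence kernel.
-/

namespace Pool.Agent.N992

open Finset Matrix MatrixGroups Kronecker

/-- Auxiliary form, with zero exponents and with the scalar by which `-1` acts. -/
def Spec (m : ℕ) [NeZero m] (ε : ℂ) (s : Multiset (ZMod m)) : Prop :=
  ∃ (N : ℕ) (ι : Type) (_ : Fintype ι) (_ : DecidableEq ι) (ρ : SL(2, ℤ) →* Matrix ι ι ℂ)
    (e : ι → ZMod m), N ≠ 0 ∧ (∀ g ∈ CongruenceSubgroup.Gamma N, ρ g = 1) ∧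
    ρ (-1) = ε • (1 : Matrix ι ι ℂ) ∧
    ρ ModularGroup.T = Matrix.diagonal (fun i => ZMod.stdAddChar (e i)) ∧ s = univ.val.map e

variable {m : ℕ} [NeZero m]

lemma Spec.modular {s : Multiset (ZMod m)} (h : Spec m 1 s) :
    ModularSpectrum m (s.filter (fun a => a ≠ 0)) := by
  obtain ⟨N, ι, _, _, ρ, e, hN, hG, h1, hT, rfl⟩ := h
  let f := Fintype.equivFin ι
  let R : Matrix ι ι ℂ ≃* Matrix (Fin (Fintype.card ι)) (Fin (Fintype.card ι)) ℂ :=
    (Matrix.reindexRingEquiv ℂ f).toMulEquiv
  have hR : ∀ M, R M = Matrix.reindex f f M := fun M => rfl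
  refine ⟨Fintype.card ι, R.toMonoidHom.comp ρ, fun i => e (f.symm i), ?_, ?_, ?_, ?_⟩
  · refine ⟨N, hN, ?_⟩
    intro g hg
    rw [MonoidHom.mem_ker, MonoidHom.comp_apply, hG g hg, map_one]
  · rw [MonoidHom.comp_apply, h1, one_smul, map_one]
  · rw [MonoidHom.comp_apply, hT]
    change R _ = _
    rw [hR]
    ext i j
    rw [Matrix.reindex_apply, Matrix.submatrix_apply, Matrix.diagonal_apply, Matrix.diagonal_apply]
    by_cases hij : i = j
    · subst hij; rw [if_pos rfl, if_pos rfl]
    · rw [if_neg hij, if_neg (fun h => hij (f.symm.injective h))]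
  · congr 1
    have : (univ : Finset (Fin (Fintype.card ι))).val.map (fun i => e (f.symm i)) =
        ((univ : Finset (Fin (Fintype.card ι))).val.map f.symm).map e := by
      rw [Multiset.map_map]; rfl
    rw [this]
    congr 1
    exact (congrArg Finset.val (Finset.map_univ_equiv f.symm)).symm

lemma gamma_le {N M : ℕ} (h : N ∣ M) {g : SL(2, ℤ)} (hg : g ∈ CongruenceSubgroup.Gamma M) :
    g ∈ CongruenceSubgroup.Gamma N := by
  rw [CongruenceSubgroup.Gamma_mem] at hg ⊢
  obtain ⟨h1, h2, h3, h4⟩ := hg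
  have key : ∀ x y : ℤ, (x : ZMod M) = (y : ZMod M) → (x : ZMod N) = (y : ZMod N) := by
    intro x y hxy
    have := congrArg (ZMod.castHom h (ZMod N)) hxy
    simpa using this
  refine ⟨?_, ?_, ?_, ?_⟩
  · have := key _ 1 (by simpa using h1)
    simpa using this
  · have := key _ 0 (by simpa using h2)
    simpa using this
  · have := key _ 0 (by simpa using h3)
    simpa using this
  · have := key _ 1 (by simpa using h4)
    simpa using this

omit [NeZero m] in
lemma map_add_product {α β : Type*} (e : α → ZMod m) (e' : β → ZMod m) (s : Multiset α)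
    (t : Multiset β) : ((s.map e) ×ˢ (t.map e')).map (fun p => p.1 + p.2) =
      (s ×ˢ t).map (fun i => e i.1 + e' i.2) := by
  induction s using Multiset.induction_on with
  | empty => simp
  | cons a s ih =>
    rw [Multiset.map_cons, Multiset.cons_product, Multiset.cons_product, Multiset.map_add,
      Multiset.map_add, ih]
    congr 1
    rw [Multiset.map_map, Multiset.map_map, Multiset.map_map]
    rfl

/-- tensor products -/
lemma Spec.tensor {ε ε' : ℂ} {s s' : Multiset (ZMod m)} (h : Spec m ε s) (h' : Spec m ε' s') :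
    Spec m (ε * ε') ((s ×ˢ s').map (fun p => p.1 + p.2)) := by
  obtain ⟨N, ι, _, _, ρ, e, hN, hG, h1, hT, rfl⟩ := h
  obtain ⟨N', ι', _, _, ρ', e', hN', hG', h1', hT', rfl⟩ := h'
  refine ⟨N * N', ι × ι', inferInstance, inferInstance,
    { toFun := fun g => Matrix.kronecker (ρ g) (ρ' g)
      map_one' := by rw [map_one, map_one]; exact Matrix.one_kronecker_one
      map_mul' := fun g h => by rw [map_mul, map_mul]; exact Matrix.mul_kronecker_mul _ _ _ _ },
    fun i => e i.1 + e' i.2, Nat.mul_ne_zero hN hN', ?_, ?_, ?_, ?_⟩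
  · intro g hg
    change Matrix.kronecker (ρ g) (ρ' g) = 1
    rw [hG g (gamma_le (dvd_mul_right N N') hg), hG' g (gamma_le (dvd_mul_left N' N) hg)]
    exact Matrix.one_kronecker_one
  · change Matrix.kronecker (ρ (-1)) (ρ' (-1)) = _
    rw [h1, h1']
    change (ε • (1 : Matrix ι ι ℂ)) ⊗ₖ (ε' • (1 : Matrix ι' ι' ℂ)) = _
    rw [Matrix.smul_kronecker, Matrix.kronecker_smul, Matrix.one_kronecker_one, smul_smul]
  · change Matrix.kronecker (ρ ModularGroup.T) (ρ' ModularGroup.T) = _
    rw [hT, hT']
    change (Matrix.diagonal _) ⊗ₖ (Matrix.diagonal _) = _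
    rw [Matrix.diagonal_kronecker_diagonal]
    congr 1
    funext i
    exact (AddChar.map_add_eq_mul _ _ _).symm
  · rw [← Finset.univ_product_univ, Finset.product_val]
    exact map_add_product e e' _ _

/-- dual representations -/
lemma ModularSpectrum.neg {b : Multiset (ZMod m)} (h : ModularSpectrum m b) :
    ModularSpectrum m (b.map Neg.neg) := by
  obtain ⟨n, ρ, e, ⟨N, hN, hG⟩, h1, hT, rfl⟩ := h
  refine ⟨n, { toFun := fun g => (ρ g⁻¹).transpose
               map_one' := by rw [inv_one, map_one, Matrix.transpose_one]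
               map_mul' := fun g h => by rw [_root_.mul_inv_rev, map_mul, Matrix.transpose_mul] },
    fun i => - e i, ⟨N, hN, ?_⟩, ?_, ?_, ?_⟩
  · intro g hg
    rw [MonoidHom.mem_ker]
    change (ρ g⁻¹).transpose = 1
    have : g⁻¹ ∈ ρ.ker := hG ((CongruenceSubgroup.Gamma N).inv_mem hg)
    rw [MonoidHom.mem_ker.mp this, Matrix.transpose_one]
  · change (ρ (-1)⁻¹).transpose = 1
    have : (-1 : SL(2, ℤ))⁻¹ = -1 := by
      rw [inv_eq_iff_mul_eq_one]; simp
    rw [this, h1, Matrix.transpose_one]
  · change (ρ (ModularGroup.T)⁻¹).transpose = _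
    have h2 : ρ (ModularGroup.T)⁻¹ = Matrix.diagonal (fun i => ZMod.stdAddChar (- e i)) := by
      have h3 : ρ (ModularGroup.T)⁻¹ * ρ ModularGroup.T = 1 := by
        rw [← map_mul, inv_mul_cancel, map_one]
      have h4 : Matrix.diagonal (fun i => ZMod.stdAddChar (- e i)) * ρ ModularGroup.T = 1 := by
        rw [hT, Matrix.diagonal_mul_diagonal, ← Matrix.diagonal_one]
        congr 1
        funext i
        rw [← AddChar.map_add_eq_mul, neg_add_cancel, AddChar.map_zero_eq_one]
      have h5 : ρ ModularGroup.T * Matrix.diagonal (fun i => ZMod.stdAddChar (- e i)) = 1 := by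
        rw [hT, Matrix.diagonal_mul_diagonal, ← Matrix.diagonal_one]
        congr 1
        funext i
        rw [← AddChar.map_add_eq_mul, add_neg_cancel, AddChar.map_zero_eq_one]
      calc ρ (ModularGroup.T)⁻¹ = ρ (ModularGroup.T)⁻¹ * (ρ ModularGroup.T *
            Matrix.diagonal (fun i => ZMod.stdAddChar (- e i))) := by rw [h5, Matrix.mul_one]
        _ = _ := by rw [← Matrix.mul_assoc, h3, Matrix.one_mul]
    rw [h2, Matrix.diagonal_transpose]
  · rw [Multiset.filter_map, Multiset.filter_map, Multiset.map_map]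
    have : Multiset.filter ((fun a : ZMod m => a ≠ 0) ∘ fun i => -e i) (univ : Finset (Fin n)).val =
        Multiset.filter ((fun a : ZMod m => a ≠ 0) ∘ e) (univ : Finset (Fin n)).val := by
      apply Multiset.filter_congr
      intro i _
      simp
    rw [this]
    rfl

end Pool.Agent.N992
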