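import Pool.Agent.N992.Setup
import Pool.Agent.N992.Inst

/-!
Transfer of odd distributions to the product of the prime components; the exponents of tensor
products as elements of the product.
-/

namespace Pool.Agent.N992

open Finset Pool.Agent.H916R2

section transfer

variable {ι : Type} [Fintype ι] [DecidableEq ι] {n : ι → ℕ} [∀ i, NeZero (n i)] {N : ℕ} [NeZero N]

lemma E_natCast (E : (∀ i, ZMod (n i)) ≃+* ZMod N) (k : ℕ) :
    (k : ZMod N) = E (fun i => (k : ZMod (n i))) := by
  have : (fun i => (k : ZMod (n i))) = ((k : ℕ) : ∀ i, ZMod (n i)) := rfl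
  rw [this, map_natCast]

lemma piDist_of (hn : Adm n) (hco : Pairwise (fun i j => (n i).Coprime (n j)))
    (hN : ∏ i, n i = N) (E : (∀ i, ZMod (n i)) ≃+* ZMod N) {Q : Type*} [AddCommGroup Q]
    {c : ZMod N → Q} (hc : OddDist c) : PiDist n (fun x => c (E x)) where
  neg := fun x => by rw [map_neg, hc.neg]
  dist := fun i hp x => by
    set M := ∏ l ∈ univ.erase i, n l with hM
    have hNM : n i * M = N := by rw [hM, Finset.mul_prod_erase univ n (mem_univ i), hN]
    have hcop : (n i).Coprime M := Nat.Coprime.prod_right fun l hl => hco (Finset.ne_of_mem_erase hl).symm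
    have h1 := hc.dist (n i) M hp hNM (E x)
    have h2 : ((n i : ℕ) : ZMod N) * E x = E ((n i) • x) := by
      rw [map_nsmul, nsmul_eq_mul]
    rw [h2] at h1
    rw [← h1]
    have hfact : Fact (n i).Prime := ⟨hp⟩
    have hMu : IsUnit ((M : ℕ) : ZMod (n i)) := by
      rw [ZMod.isUnit_iff_coprime]; exact hcop.symm
    have hterm : ∀ k : ℕ, E x + (k : ZMod N) * (M : ZMod N) =
        E (Function.update x i (x i + (k : ZMod (n i)) * (M : ZMod (n i)))) := by
      intro k
      have e1 : (k : ZMod N) * (M : ZMod N) = ((k * M : ℕ) : ZMod N) := by push_cast; rfl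
      rw [e1, E_natCast E, ← map_add]
      congr 1
      funext l
      by_cases hl : l = i
      · subst hl
        rw [Function.update_self, Pi.add_apply]; push_cast; rfl
      · rw [Function.update_of_ne hl, Pi.add_apply]
        have : ((k * M : ℕ) : ZMod (n l)) = 0 := by
          rw [ZMod.natCast_eq_zero_iff]
          exact (Finset.dvd_prod_of_mem n (Finset.mem_erase.mpr ⟨hl, mem_univ l⟩)).mul_left k
        rw [this, add_zero]
    simp only [hterm]
    symm
    refine sum_bij (fun k _ => x i + (k : ZMod (n i)) * (M : ZMod (n i))) (fun _ _ => mem_univ _)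
      ?_ ?_ (fun _ _ => rfl)
    · intro k hk k' hk' h
      have h3 : (k : ZMod (n i)) = (k' : ZMod (n i)) := hMu.mul_right_cancel (add_left_cancel h)
      rw [ZMod.natCast_eq_natCast_iff'] at h3
      rwa [Nat.mod_eq_of_lt (mem_range.mp hk), Nat.mod_eq_of_lt (mem_range.mp hk')] at h3
    · intro j _
      obtain ⟨u, hu⟩ := hMu
      refine ⟨((j - x i) * (u⁻¹ : (ZMod (n i))ˣ)).val, mem_range.mpr (ZMod.val_lt _), ?_⟩
      rw [ZMod.natCast_zmod_val, ← hu, mul_assoc, Units.inv_mul, mul_one, add_sub_cancel]
  four := fun i hi x => by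
    set M := ∏ l ∈ univ.erase i, n l with hM
    have hNM : n i * M = N := by rw [hM, Finset.mul_prod_erase univ n (mem_univ i), hN]
    have hcop : (n i).Coprime M := Nat.Coprime.prod_right fun l hl => hco (Finset.ne_of_mem_erase hl).symm
    have h2M : 2 * (2 * M) = N := by rw [← hNM, hi]; ring
    have h1 := hc.dist 2 (2 * M) Nat.prime_two h2M (E x)
    rw [sum_range_succ, sum_range_one] at h1
    have h2 : ((2 : ℕ) : ZMod N) * E x = E (2 • x) := by
      rw [map_nsmul, nsmul_eq_mul]
    rw [h2] at h1
    rw [← h1]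
    have hodd : M % 2 = 1 := by
      rw [hi] at hcop
      have : Nat.Coprime 2 M := Nat.Coprime.coprime_dvd_left (by norm_num) hcop
      rw [Nat.coprime_two_left] at this
      exact Nat.odd_iff.mp this
    congr 1
    · congr 1; push_cast; ring
    · congr 1
      have e1 : ((1 : ℕ) : ZMod N) * ((2 * M : ℕ) : ZMod N) = ((2 * M : ℕ) : ZMod N) := by
        push_cast; ring
      rw [e1, E_natCast E, ← map_add]
      congr 1
      funext l
      by_cases hl : l = i
      · subst hl
        rw [Function.update_self, Pi.add_apply]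
        congr 1
        have h4 : ((2 * M : ℕ) : ZMod (n l)) = ((2 : ℕ) : ZMod (n l)) := by
          rw [ZMod.natCast_eq_natCast_iff', hi]
          omega
        rw [h4]; push_cast; rfl
      · rw [Function.update_of_ne hl, Pi.add_apply]
        have : ((2 * M : ℕ) : ZMod (n l)) = 0 := by
          rw [ZMod.natCast_eq_zero_iff]
          exact (Finset.dvd_prod_of_mem n (Finset.mem_erase.mpr ⟨hl, mem_univ l⟩)).mul_left 2
        rw [this, add_zero]

end transfer

end Pool.Agent.N992
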