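import Mathlib

/-!
The Weil representation of `SL(2, F)` on the functions on a finite field `F` of odd characteristic.
-/

namespace Pool.Agent.N992

open Finset AddChar

section

variable {F : Type} [Field F] [Fintype F] [DecidableEq F]

/-- the quadratic character with complex values -/
noncomputable def qc (a : F) : ℂ := ((quadraticChar F a : ℤ) : ℂ)

lemma qc_mul (a b : F) : qc (a * b) = qc a * qc b := by
  unfold qc; rw [map_mul]; push_cast; rfl

lemma qc_sq {a : F} (ha : a ≠ 0) : qc a * qc a = 1 := by
  unfold qc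
  rw [← Int.cast_mul, ← pow_two, quadraticChar_sq_one ha, Int.cast_one]

lemma qc_inv {a : F} (ha : a ≠ 0) : qc a⁻¹ = qc a := by
  have h1 : qc a⁻¹ * qc a = 1 := by
    rw [← qc_mul, inv_mul_cancel₀ ha]; simp [qc]
  have h2 := qc_sq ha
  have h3 : qc a ≠ 0 := by intro h; rw [h, mul_zero] at h2; exact zero_ne_one h2
  exact mul_right_cancel₀ h3 (h1.trans h2.symm)

lemma qc_div (a : F) {b : F} (hb : b ≠ 0) : qc (a / b) = qc a * qc b := by
  rw [div_eq_mul_inv, qc_mul, qc_inv hb]

lemma qc_one : qc (1 : F) = 1 := by simp [qc]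

/-- the quadratic Gauss sum -/
noncomputable def gam (ψ : AddChar F ℂ) : ℂ := ∑ x : F, ψ (x ^ 2)

variable {ψ : AddChar F ℂ}

lemma sum_sq_eq (hF : ringChar F ≠ 2) (hψ : ψ.IsPrimitive) {a : F} (ha : a ≠ 0) :
    ∑ x : F, ψ (a * x ^ 2) = qc a * gaussSum ((quadraticChar F).ringHomComp (Int.castRingHom ℂ)) ψ := by
  classical
  set χ : MulChar F ℂ := (quadraticChar F).ringHomComp (Int.castRingHom ℂ) with hχ
  have h1 : ∑ x : F, ψ (a * x ^ 2) = ∑ y : F, ((quadraticChar F y : ℤ) + 1 : ℂ) * ψ (a * y) := by
    rw [← Finset.sum_fiberwise_of_maps_to (s := (univ : Finset F)) (t := (univ : Finset F))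
      (g := fun x : F => x ^ 2) (fun _ _ => mem_univ _) (fun x => ψ (a * x ^ 2))]
    refine sum_congr rfl fun y _ => ?_
    have h2 : ∀ x ∈ univ.filter (fun x : F => x ^ 2 = y), ψ (a * x ^ 2) = ψ (a * y) := by
      intro x hx
      rw [(mem_filter.mp hx).2]
    rw [sum_congr rfl h2, sum_const, nsmul_eq_mul]
    congr 1
    have h3 := quadraticChar_card_sqrts hF y
    have h4 : ({x : F | x ^ 2 = y}.toFinset) = univ.filter (fun x : F => x ^ 2 = y) := by
      ext x; simp
    rw [h4] at h3
    exact_mod_cast h3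
  rw [h1]
  simp only [add_mul, one_mul, sum_add_distrib]
  have h5 : ∑ y : F, ψ (a * y) = 0 := by
    have := sum_mulShift a hψ
    rw [if_neg ha] at this
    rw [← Nat.cast_zero, ← this]
    exact sum_congr rfl fun y _ => by rw [mul_comm]
  rw [h5, add_zero]
  have h6 := gaussSum_mulShift χ ψ (Units.mk0 a ha)
  rw [Units.val_mk0] at h6
  have h7 : χ a = qc a := rfl
  rw [h7] at h6
  have h8 : gaussSum χ (ψ.mulShift a) = ∑ y : F, ((quadraticChar F y : ℤ) : ℂ) * ψ (a * y) := rfl
  rw [← h8, ← h6, ← mul_assoc, qc_sq ha, one_mul]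

lemma gam_eq (hF : ringChar F ≠ 2) (hψ : ψ.IsPrimitive) :
    gam ψ = gaussSum ((quadraticChar F).ringHomComp (Int.castRingHom ℂ)) ψ := by
  have := sum_sq_eq hF hψ (one_ne_zero (α := F))
  rw [qc_one, one_mul] at this
  rw [← this]
  unfold gam
  simp only [one_mul]

lemma sum_sq (hF : ringChar F ≠ 2) (hψ : ψ.IsPrimitive) {a : F} (ha : a ≠ 0) :
    ∑ x : F, ψ (a * x ^ 2) = qc a * gam ψ := by
  rw [sum_sq_eq hF hψ ha, gam_eq hF hψ]

lemma gam_sq (hF : ringChar F ≠ 2) (hψ : ψ.IsPrimitive) :
    gam ψ * gam ψ = qc (-1 : F) * Fintype.card F := by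
  rw [gam_eq hF hψ, ← pow_two, gaussSum_sq _ _ hψ]
  · rfl
  · intro h
    obtain ⟨a, ha⟩ := quadraticChar_exists_neg_one' hF
    have h1 : (quadraticChar F).ringHomComp (Int.castRingHom ℂ) (a : F) = 1 := by
      rw [h, MulChar.one_apply a.isUnit]
    rw [MulChar.ringHomComp_apply, ha] at h1
    norm_num at h1
  · exact (quadraticChar_isQuadratic F).comp _

lemma gam_ne_zero (hF : ringChar F ≠ 2) (hψ : ψ.IsPrimitive) : gam ψ ≠ 0 := by
  intro h
  have h1 := gam_sq hF hψ
  rw [h, mul_zero] at h1
  have h2 : qc (-1 : F) ≠ 0 := by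
    intro h3
    have := qc_sq (F := F) (a := -1) (by norm_num)
    rw [h3, mul_zero] at this
    exact zero_ne_one this
  have h4 : (Fintype.card F : ℂ) ≠ 0 := by exact_mod_cast Fintype.card_ne_zero
  exact (mul_ne_zero h2 h4) h1.symm

lemma sum_quad (hF : ringChar F ≠ 2) (hψ : ψ.IsPrimitive) {A : F} (hA : A ≠ 0) (B : F) :
    ∑ y : F, ψ (A * y ^ 2 - 2 * B * y) = qc A * gam ψ * ψ (-(B ^ 2 / A)) := by
  have h1 : ∀ y : F, ψ (A * y ^ 2 - 2 * B * y) = ψ (A * (y - B / A) ^ 2) * ψ (-(B ^ 2 / A)) := by
    intro y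
    rw [← map_add_eq_mul]
    congr 1
    field_simp
    ring
  rw [sum_congr rfl fun y _ => h1 y, ← sum_mul]
  congr 1
  rw [← sum_sq hF hψ hA]
  exact Fintype.sum_equiv (Equiv.subRight (B / A)) _ _ (fun y => rfl)

omit [Fintype F] [DecidableEq F] in
lemma two_ne (hF : ringChar F ≠ 2) : (2 : F) ≠ 0 := Ring.two_ne_zero hF

lemma sum_lin (hF : ringChar F ≠ 2) (hψ : ψ.IsPrimitive) (B : F) :
    ∑ y : F, ψ (- (2 * B * y)) = if B = 0 then (Fintype.card F : ℂ) else 0 := by
  have h := sum_mulShift (-(2 * B)) hψ
  have h2 : ∑ y : F, ψ (- (2 * B * y)) = ∑ y : F, ψ (y * (-(2 * B))) := by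
    refine sum_congr rfl fun y _ => ?_
    congr 1; ring
  rw [h2, h]
  have h3 : (-(2 * B) = 0) ↔ B = 0 := by
    rw [neg_eq_zero, mul_eq_zero]
    exact ⟨fun h => h.resolve_left (two_ne hF), Or.inr⟩
  by_cases hB : B = 0
  · rw [if_pos (h3.mpr hB), if_pos hB]
  · rw [if_neg (fun h => hB (h3.mp h)), if_neg hB, Nat.cast_zero]

/-- the kernel of the Weil representation, in terms of the entries of the matrix -/
noncomputable def WK (ψ : AddChar F ℂ) (a b c d : F) : Matrix F F ℂ :=
  fun x y => if c = 0 then (if y = a * x then qc a * ψ (a * b * x ^ 2) else 0)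
    else (gam ψ)⁻¹ * qc c * ψ ((a * x ^ 2 - 2 * x * y + d * y ^ 2) / c)

section mulcases

variable (hF : ringChar F ≠ 2) (hψ : ψ.IsPrimitive)

include hF hψ

lemma WK_mul {a b c d a' b' c' d' : F} (hg : a * d - b * c = 1) (hh : a' * d' - b' * c' = 1) :
    WK ψ (a * a' + b * c') (a * b' + b * d') (c * a' + d * c') (c * b' + d * d') =
      WK ψ a b c d * WK ψ a' b' c' d' := by
  ext x z
  rw [Matrix.mul_apply]
  unfold WK
  have hgam := gam_ne_zero hF hψ
  have hgam2 := gam_sq hF hψ
  by_cases hc : c = 0
  · subst hc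
    have had : a * d = 1 := by linear_combination hg
    have ha : a ≠ 0 := left_ne_zero_of_mul_eq_one had
    have hd : d ≠ 0 := right_ne_zero_of_mul_eq_one had
    by_cases hc' : c' = 0
    · subst hc'
      simp only [mul_zero, zero_mul, add_zero, if_true]
      rw [Finset.sum_eq_single (a * x)]
      · by_cases hz : z = a * a' * x
        · rw [if_pos hz, if_pos rfl, if_pos (by rw [hz]; ring), qc_mul]
          have : ψ (a * a' * (a * b' + b * d') * x ^ 2) =
              ψ (a * b * x ^ 2) * ψ (a' * b' * (a * x) ^ 2) := by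
            rw [← map_add_eq_mul]
            congr 1
            have h1 : a' * d' = 1 := by linear_combination hh
            linear_combination (a * b * x ^ 2) * h1
          rw [this]; ring
        · rw [if_neg hz, if_pos rfl, if_neg (fun h => hz (by rw [h]; ring)), mul_zero]
      · intro y _ hy
        rw [if_neg hy, zero_mul]
      · intro h; exact absurd (mem_univ _) h
    · simp only [zero_mul, zero_add, if_true]
      rw [if_neg (mul_ne_zero hd hc')]
      rw [Finset.sum_eq_single (a * x)]
      · rw [if_pos rfl, if_neg hc', qc_mul]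
        have h1 : qc d = qc a := by
          have : d = a⁻¹ := eq_inv_of_mul_eq_one_right had
          rw [this, qc_inv ha]
        have h2 : ψ (((a * a' + b * c') * x ^ 2 - 2 * x * z + d * d' * z ^ 2) / (d * c')) =
            ψ (a * b * x ^ 2) * ψ ((a' * (a * x) ^ 2 - 2 * (a * x) * z + d' * z ^ 2) / c') := by
          rw [← map_add_eq_mul]
          congr 1
          have : d = a⁻¹ := eq_inv_of_mul_eq_one_right had
          subst this
          field_simp
          ring
        rw [h1, h2]; ring
      · intro y _ hy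
        rw [if_neg hy, zero_mul]
      · intro h; exact absurd (mem_univ _) h
  · by_cases hc' : c' = 0
    · subst hc'
      have had' : a' * d' = 1 := by linear_combination hh
      have ha' : a' ≠ 0 := left_ne_zero_of_mul_eq_one had'
      have hd' : d' ≠ 0 := right_ne_zero_of_mul_eq_one had'
      simp only [mul_zero, add_zero, if_true]
      rw [if_neg (mul_ne_zero hc ha')]
      rw [Finset.sum_eq_single (d' * z)]
      · rw [if_neg hc, if_pos (by linear_combination (-z) * had'), qc_mul]
        have h2 : ψ ((a * a' * x ^ 2 - 2 * x * z + (c * b' + d * d') * z ^ 2) / (c * a')) =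
            ψ ((a * x ^ 2 - 2 * x * (d' * z) + d * (d' * z) ^ 2) / c) *
              ψ (a' * b' * (d' * z) ^ 2) := by
          rw [← map_add_eq_mul]
          congr 1
          have : d' = a'⁻¹ := eq_inv_of_mul_eq_one_right had'
          subst this
          field_simp
          ring
        rw [h2]; ring
      · intro y _ hy
        rw [if_neg (c := z = a' * y), mul_zero]
        intro h
        apply hy
        rw [h]; linear_combination (-y) * had'
      · intro h; exact absurd (mem_univ _) h
    · rw [sum_congr rfl fun y _ => by rw [if_neg hc, if_neg hc']]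
      set c'' := c * a' + d * c' with hc''
      -- the exponent as a quadratic polynomial in y
      have hexp : ∀ y : F, (gam ψ)⁻¹ * qc c * ψ ((a * x ^ 2 - 2 * x * y + d * y ^ 2) / c) *
          ((gam ψ)⁻¹ * qc c' * ψ ((a' * y ^ 2 - 2 * y * z + d' * z ^ 2) / c')) =
          ((gam ψ)⁻¹ * (gam ψ)⁻¹ * qc c * qc c' * ψ (a * x ^ 2 / c + d' * z ^ 2 / c')) *
            ψ (c'' / (c * c') * y ^ 2 - 2 * ((c' * x + c * z) / (c * c')) * y) := by
        intro y
        have h1 : ψ ((a * x ^ 2 - 2 * x * y + d * y ^ 2) / c) *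
            ψ ((a' * y ^ 2 - 2 * y * z + d' * z ^ 2) / c') =
            ψ (a * x ^ 2 / c + d' * z ^ 2 / c') *
            ψ (c'' / (c * c') * y ^ 2 - 2 * ((c' * x + c * z) / (c * c')) * y) := by
          rw [← map_add_eq_mul, ← map_add_eq_mul]
          congr 1
          rw [hc'']
          field_simp
          ring
        linear_combination ((gam ψ)⁻¹ * (gam ψ)⁻¹ * qc c * qc c') * h1
      rw [sum_congr rfl fun y _ => hexp y, ← mul_sum]
      by_cases h0 : c'' = 0
      · rw [if_pos h0]
        have h1 : ∀ y : F, ψ (c'' / (c * c') * y ^ 2 - 2 * ((c' * x + c * z) / (c * c')) * y) =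
            ψ (-(2 * ((c' * x + c * z) / (c * c')) * y)) := by
          intro y; rw [h0, zero_div, zero_mul, zero_sub]
        rw [sum_congr rfl fun y _ => h1 y, sum_lin hF hψ]
        have ha'' : c * (a * a' + b * c') = -c' := by
          rw [hc''] at h0
          linear_combination a * h0 - c' * hg
        have hiff : (c' * x + c * z) / (c * c') = 0 ↔ z = (a * a' + b * c') * x := by
          rw [div_eq_zero_iff]
          constructor
          · rintro (h | h)
            · apply mul_left_cancel₀ hc
              linear_combination h - x * ha''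
            · exact absurd h (mul_ne_zero hc hc')
          · intro h
            left
            rw [h]; linear_combination x * ha''
        by_cases hz : z = (a * a' + b * c') * x
        · rw [if_pos hz, if_pos (hiff.mpr hz)]
          have h2 : (a * a' + b * c') = -c' / c := by
            field_simp
            linear_combination ha''
          have h3 : qc (a * a' + b * c') = qc (-1 : F) * qc c * qc c' := by
            rw [h2, qc_div _ hc, ← neg_one_mul c', qc_mul]; ring
          have h4 : (gam ψ)⁻¹ * (gam ψ)⁻¹ * (Fintype.card F : ℂ) = qc (-1 : F) := by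
            have h5 := qc_sq (F := F) (a := -1) (by norm_num)
            field_simp
            linear_combination (-(Fintype.card F : ℂ)) * h5 - qc (-1 : F) * hgam2
          have h6 : ψ ((a * a' + b * c') * (a * b' + b * d') * x ^ 2) =
              ψ (a * x ^ 2 / c + d' * z ^ 2 / c') := by
            congr 1
            rw [hz]
            have h7 : (a * a' + b * c') * (c * b' + d * d') = 1 := by
              have h8 : (a * a' + b * c') * (c * b' + d * d') -
                  (a * b' + b * d') * (c * a' + d * c') = 1 := by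
                linear_combination (a' * d' - b' * c') * hg + hh
              rw [← hc'', h0, mul_zero, sub_zero] at h8
              exact h8
            have h9 : c * (a * b' + b * d') = a * (c * b' + d * d') - d' := by
              linear_combination (-d') * hg
            have hA0 : (a * a' + b * c') ≠ 0 := left_ne_zero_of_mul_eq_one h7
            have key : ∀ A B D : F, c * A = -c' → A * D = 1 → c * B = a * D - d' → A ≠ 0 →
                A * B * x ^ 2 = a * x ^ 2 / c + d' * (A * x) ^ 2 / c' := by
              intro A B D e1 e2 e3 e4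
              have e5 : c' = -(c * A) := by rw [e1]; ring
              rw [e5]
              field_simp
              linear_combination (A * x ^ 2) * e3 + (a * x ^ 2) * e2
            exact key _ _ _ ha'' h7 h9 hA0
          rw [h3, h6]
          linear_combination (-qc c * qc c' * ψ (a * x ^ 2 / c + d' * z ^ 2 / c')) * h4
        · rw [if_neg hz, if_neg (fun h => hz (hiff.mp h)), mul_zero]
      · rw [if_neg h0, sum_quad hF hψ (div_ne_zero h0 (mul_ne_zero hc hc'))]
        rw [qc_div _ (mul_ne_zero hc hc'), qc_mul]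
        have h1 : ψ (((a * a' + b * c') * x ^ 2 - 2 * x * z + (c * b' + d * d') * z ^ 2) / c'') =
            ψ (a * x ^ 2 / c + d' * z ^ 2 / c') *
            ψ (-(((c' * x + c * z) / (c * c')) ^ 2 / (c'' / (c * c')))) := by
          rw [← map_add_eq_mul]
          congr 1
          have h2 : c * (a * a' + b * c') = a * c'' - c' := by
            rw [hc'']; linear_combination (-c') * hg
          have h3 : c' * (c * b' + d * d') = d' * c'' - c := by
            rw [hc'']; linear_combination (-c) * hh
          have h4 : (a * a' + b * c') = (a * c'' - c') / c := by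
            field_simp; linear_combination h2
          have h5 : (c * b' + d * d') = (d' * c'' - c) / c' := by
            field_simp; linear_combination h3
          rw [h4, h5]
          field_simp
          ring
        rw [h1]
        have h5 : (gam ψ)⁻¹ * gam ψ = 1 := inv_mul_cancel₀ hgam
        have h6 := qc_sq hc
        have h7 := qc_sq hc'
        generalize ψ (a * x ^ 2 / c + d' * z ^ 2 / c') = P
        generalize ψ (-(((c' * x + c * z) / (c * c')) ^ 2 / (c'' / (c * c')))) = P'
        linear_combination (-((gam ψ)⁻¹ * qc c'' * P * P')) * h5 +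
          (-((gam ψ)⁻¹ * qc c'' * P * P') * ((gam ψ)⁻¹ * gam ψ)) * h6 +
          (-((gam ψ)⁻¹ * qc c'' * P * P') * ((gam ψ)⁻¹ * gam ψ) * (qc c * qc c)) * h7

end mulcases

lemma WK_one : WK ψ 1 0 0 1 = 1 := by
  ext x y
  unfold WK
  rw [if_pos rfl, one_mul, qc_one, one_mul, mul_zero, zero_mul, map_zero_eq_one, Matrix.one_apply]
  by_cases h : x = y
  · rw [if_pos h, if_pos h.symm]
  · rw [if_neg h, if_neg (Ne.symm h)]

lemma WK_T : WK ψ 1 1 0 1 = Matrix.diagonal (fun x => ψ (x ^ 2)) := by
  ext x y
  unfold WK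
  rw [if_pos rfl, one_mul, qc_one, one_mul, one_mul, one_mul, Matrix.diagonal_apply]
  by_cases h : x = y
  · rw [if_pos h, if_pos h.symm]
  · rw [if_neg h, if_neg (Ne.symm h)]

lemma WK_neg_one (x y : F) : WK ψ (-1) 0 0 (-1) x y = if y = -x then qc (-1 : F) else 0 := by
  unfold WK
  rw [if_pos rfl, neg_one_mul, mul_zero, zero_mul, map_zero_eq_one, mul_one]

/-- the kernel commutes with the sign change -/
lemma WK_neg_neg (a b c d x y : F) : WK ψ a b c d (-x) (-y) = WK ψ a b c d x y := by
  unfold WK
  by_cases hc : c = 0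
  · rw [if_pos hc, if_pos hc]
    have h1 : (-y = a * -x) ↔ (y = a * x) := by
      rw [mul_neg, neg_inj]
    by_cases h : y = a * x
    · rw [if_pos h, if_pos (h1.mpr h), neg_sq]
    · rw [if_neg h, if_neg (fun h' => h (h1.mp h'))]
  · rw [if_neg hc, if_neg hc]
    congr 3
    ring

end

/-! ### The representation of `SL(2, ℤ)` -/

open Matrix MatrixGroups

section

variable {p : ℕ} [Fact p.Prime]

/-- the Weil representation as a homomorphism from `SL(2, ℤ)` -/
noncomputable def weil (ψ : AddChar (ZMod p) ℂ) (hp : p ≠ 2) (hψ : ψ.IsPrimitive) :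
    SL(2, ℤ) →* Matrix (ZMod p) (ZMod p) ℂ where
  toFun g := WK ψ ((g.1 0 0 : ℤ) : ZMod p) ((g.1 0 1 : ℤ) : ZMod p) ((g.1 1 0 : ℤ) : ZMod p)
    ((g.1 1 1 : ℤ) : ZMod p)
  map_one' := by
    have h : (1 : SL(2, ℤ)).1 = (1 : Matrix (Fin 2) (Fin 2) ℤ) := rfl
    simp only [h, Matrix.one_apply]
    simpa using WK_one (ψ := ψ)
  map_mul' := by
    intro g h
    have hF : ringChar (ZMod p) ≠ 2 := by rw [ZMod.ringChar_zmod_n]; exact hp
    have hg := g.2
    have hh := h.2
    rw [det_fin_two] at hg hh
    have hg' : ((g.1 0 0 : ℤ) : ZMod p) * ((g.1 1 1 : ℤ) : ZMod p) -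
        ((g.1 0 1 : ℤ) : ZMod p) * ((g.1 1 0 : ℤ) : ZMod p) = 1 := by exact_mod_cast congrArg (Int.cast : ℤ → ZMod p) hg
    have hh' : ((h.1 0 0 : ℤ) : ZMod p) * ((h.1 1 1 : ℤ) : ZMod p) -
        ((h.1 0 1 : ℤ) : ZMod p) * ((h.1 1 0 : ℤ) : ZMod p) = 1 := by exact_mod_cast congrArg (Int.cast : ℤ → ZMod p) hh
    rw [← WK_mul hF hψ hg' hh']
    have hm : (g * h).1 = g.1 * h.1 := rfl
    simp only [hm, Matrix.mul_apply, Fin.sum_univ_two]
    push_cast
    rfl

end

end Pool.Agent.N992
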