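import Pool.Agent.N992.Weil

/-!
The odd and the even part of the Weil representation.
-/

namespace Pool.Agent.N992

open Finset AddChar Matrix MatrixGroups

section restrict

variable {G : Type*} [Monoid G] {ι κ : Type} [Fintype ι] [DecidableEq ι] [Fintype κ] [DecidableEq κ]

/-- the restriction of a matrix representation to the image of a projector -/
def restrictHom (ρ : G →* Matrix ι ι ℂ) (I : Matrix ι κ ℂ) (P : Matrix κ ι ℂ) (hPI : P * I = 1)
    (hcomm : ∀ g, (I * P) * ρ g = ρ g * (I * P)) : G →* Matrix κ κ ℂ where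
  toFun g := P * ρ g * I
  map_one' := by rw [map_one, Matrix.mul_one, hPI]
  map_mul' := by
    intro g h
    have h1 : P * ρ g * I * (P * ρ h * I) = P * ρ g * ((I * P) * ρ h) * I := by
      simp only [Matrix.mul_assoc]
    rw [h1, hcomm h, map_mul]
    have h2 : P * ρ g * (ρ h * (I * P)) * I = P * (ρ g * ρ h) * I * (P * I) := by
      simp only [Matrix.mul_assoc]
    rw [h2, hPI, Matrix.mul_one]

end restrict

section parts

variable {F : Type} [Field F] [Fintype F] [DecidableEq F] (K : Finset F) (σ : ℂ)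

/-- the basis vectors of the part with sign `σ` -/
def vec (x h : F) : ℂ := (if x = h then 1 else 0) + σ * (if x = -h then 1 else 0)

noncomputable def PI1 : Matrix F {x // x ∈ K} ℂ := fun x h => vec σ x h

noncomputable def PP1 : Matrix {x // x ∈ K} F ℂ :=
  fun h x => (if (h : F) = 0 then 1 / 4 else 1 / 2) * vec σ x h

/-- a transversal of the sign, with or without zero -/
structure Trans (K : Finset F) (σ : ℂ) : Prop where
  inter : ∀ h, h ∈ K → -h ∈ K → h = 0 ∧ σ = 1
  cover : ∀ x : F, x ∈ K ∨ -x ∈ K ∨ (x = 0 ∧ σ = -1)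
  sq : σ * σ = 1

variable {K σ}

lemma vec_self {F : Type} [Field F] [DecidableEq F] {σ : ℂ} (h2 : (2 : F) ≠ 0) {x : F} (hx : x ≠ 0) : vec σ x x = 1 := by
  unfold vec
  rw [if_pos rfl, if_neg, mul_zero, add_zero]
  intro h
  apply hx
  have : 2 * x = 0 := by linear_combination h
  exact (mul_eq_zero.mp this).resolve_left h2

omit [Fintype F] in
lemma vec_neg_left (hσ : σ * σ = 1) (x y : F) : vec σ (-x) y = σ * vec σ x y := by
  unfold vec
  have h1 : (-x = y) ↔ (x = -y) := by rw [neg_eq_iff_eq_neg]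
  have h2 : (-x = -y) ↔ (x = y) := neg_inj
  by_cases a : x = -y <;> by_cases b : x = y
  · rw [if_pos (h1.mpr a), if_pos (h2.mpr b), if_pos a, if_pos b]; linear_combination -hσ
  · rw [if_pos (h1.mpr a), if_neg (fun h => b (h2.mp h)), if_pos a, if_neg b]; linear_combination -hσ
  · rw [if_neg (fun h => a (h1.mp h)), if_pos (h2.mpr b), if_neg a, if_pos b]; ring
  · rw [if_neg (fun h => a (h1.mp h)), if_neg (fun h => b (h2.mp h)), if_neg a, if_neg b]; ring

omit [Fintype F] in
lemma PI_mul_PP (h2 : (2 : F) ≠ 0) (hK : Trans K σ) (x y : F) :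
    (PI1 K σ * PP1 K σ) x y = (1 / 2) * vec σ y x := by
  have hzero : ∀ {x : F} (h : {x // x ∈ K}), x ≠ h → x ≠ -(h : F) → vec σ x h = 0 := by
    intro x h h1 h2
    unfold vec
    rw [if_neg h1, if_neg h2]; simp
  have hsw : ∀ x y : F, vec σ x y = vec σ y x := by
    intro x y
    unfold vec
    have e1 : (x = y) ↔ (y = x) := eq_comm
    have e2 : (x = -y) ↔ (y = -x) := by rw [eq_neg_iff_add_eq_zero, eq_neg_iff_add_eq_zero, add_comm]
    simp only [e1, e2]
  rw [Matrix.mul_apply]
  unfold PI1 PP1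
  rcases hK.cover x with hx | hx | ⟨hx, hs⟩
  · rw [Finset.sum_eq_single (⟨x, hx⟩ : {x // x ∈ K})]
    · by_cases hx0 : x = 0
      · have hs : σ = 1 := (hK.inter x hx (by rw [hx0, neg_zero, ← hx0]; exact hx)).2
        subst hx0
        simp only [if_true]
        have : vec σ (0 : F) 0 = 2 := by unfold vec; rw [hs]; simp; norm_num
        rw [this]; ring
      · simp only [if_neg hx0]
        rw [vec_self h2 hx0]; ring
    · intro h _ hne
      rw [hzero h]
      · ring
      · intro e; apply hne; exact Subtype.ext e.symm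
      · intro e
        have h3 := hK.inter x hx (by rw [e, neg_neg]; exact h.2)
        apply hne
        apply Subtype.ext
        simp only
        rw [h3.1] at e ⊢
        exact neg_eq_zero.mp e.symm
    · intro h; exact absurd (mem_univ _) h
  · rw [Finset.sum_eq_single (⟨-x, hx⟩ : {x // x ∈ K})]
    · by_cases hx0 : x = 0
      · have hs : σ = 1 := (hK.inter (-x) hx (by rw [neg_neg, hx0, ← neg_zero, ← hx0]; exact hx)).2
        subst hx0
        simp only [neg_zero, if_true]
        have : vec σ (0 : F) 0 = 2 := by unfold vec; rw [hs]; simp; norm_num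
        rw [this]; ring
      · simp only [neg_eq_zero, if_neg hx0]
        have e1 : vec σ x (-x) = σ := by
          rw [← neg_neg x, vec_neg_left hK.sq, neg_neg, vec_self h2 (neg_ne_zero.mpr hx0), mul_one]
        have e2 : vec σ y (-x) = σ * vec σ y x := by
          rw [hsw, vec_neg_left hK.sq, hsw]
        rw [e1, e2]
        linear_combination (1 / 2 * vec σ y x) * hK.sq
    · intro h _ hne
      rw [hzero h]
      · ring
      · intro e
        have h3 := hK.inter x (by rw [e]; exact h.2) hx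
        apply hne
        apply Subtype.ext
        simp only
        rw [← e, h3.1, neg_zero]
      · intro e; apply hne; apply Subtype.ext; simp only; rw [e, neg_neg]
    · intro h; exact absurd (mem_univ _) h
  · subst hx
    have hR : vec σ y 0 = 0 := by
      unfold vec; rw [hs, neg_zero]; ring
    rw [hR, mul_zero]
    apply Finset.sum_eq_zero
    intro h _
    have : vec σ 0 (h : F) = 0 := by
      rw [hsw]; unfold vec; rw [hs, neg_zero]; ring
    rw [this, zero_mul]

lemma sum_vec (f : F → ℂ) (h : F) : ∑ x, vec σ x h * f x = f h + σ * f (-h) := by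
  unfold vec
  simp only [add_mul, sum_add_distrib]
  congr 1
  · simp
  · simp only [mul_assoc, ← mul_sum]
    simp

lemma PP_diag_PI (h2 : (2 : F) ≠ 0) (hK : Trans K σ) (f : F → ℂ) (hf : ∀ x, f (-x) = f x) :
    PP1 K σ * Matrix.diagonal f * PI1 K σ = Matrix.diagonal (fun h : {x // x ∈ K} => f h) := by
  ext h h'
  rw [Matrix.mul_apply]
  simp only [Matrix.mul_diagonal]
  unfold PP1 PI1
  have e : ∀ x : F, (if (h : F) = 0 then (1 / 4 : ℂ) else 1 / 2) * vec σ x h * f x * vec σ x h' =
      (if (h : F) = 0 then (1 / 4 : ℂ) else 1 / 2) * (vec σ x h * (f x * vec σ x h')) := by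
    intro x; ring
  rw [sum_congr rfl fun x _ => e x, ← mul_sum, sum_vec (fun x => f x * vec σ x h') (h : F)]
  simp only [hf, vec_neg_left hK.sq]
  rw [Matrix.diagonal_apply]
  have e2 : f (h : F) * vec σ (h : F) h' + σ * (f (h : F) * (σ * vec σ (h : F) h')) =
      2 * f (h : F) * vec σ (h : F) h' := by linear_combination (f (h : F) * vec σ (h : F) h') * hK.sq
  rw [e2]
  by_cases hh : h = h'
  · subst hh
    rw [if_pos rfl]
    by_cases h0 : (h : F) = 0
    · rw [if_pos h0, h0]
      have hs : σ = 1 := (hK.inter h h.2 (by rw [h0, neg_zero, ← h0]; exact h.2)).2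
      have : vec σ (0 : F) 0 = 2 := by unfold vec; rw [hs]; simp; norm_num
      rw [this]; ring
    · rw [if_neg h0, vec_self h2 h0]; ring
  · rw [if_neg hh]
    have : vec σ (h : F) h' = 0 := by
      unfold vec
      rw [if_neg (fun e => hh (Subtype.ext e)), if_neg]
      · ring
      · intro e
        have h3 := hK.inter h' h'.2 (by rw [← e]; exact h.2)
        apply hh
        apply Subtype.ext
        rw [e, h3.1, neg_zero]
    rw [this, mul_zero, mul_zero]

lemma PP_mul_PI (h2 : (2 : F) ≠ 0) (hK : Trans K σ) : PP1 K σ * PI1 K σ = 1 := by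
  have := PP_diag_PI h2 hK (fun _ => 1) (fun _ => rfl)
  rw [Matrix.diagonal_one, Matrix.mul_one] at this
  rw [this, Matrix.diagonal_one]

lemma comm_of (h2 : (2 : F) ≠ 0) (hK : Trans K σ) (W : Matrix F F ℂ)
    (hW : ∀ x y, W (-x) (-y) = W x y) : (PI1 K σ * PP1 K σ) * W = W * (PI1 K σ * PP1 K σ) := by
  ext x z
  rw [Matrix.mul_apply, Matrix.mul_apply]
  simp only [PI_mul_PP h2 hK]
  have e1 : ∑ y, (1 / 2) * vec σ y x * W y z = 1 / 2 * (W x z + σ * W (-x) z) := by
    rw [← sum_vec (fun y => W y z) x, mul_sum]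
    exact sum_congr rfl fun y _ => by ring
  have hsw : ∀ x y : F, vec σ x y = vec σ y x := by
    intro x y
    unfold vec
    have e1 : (x = y) ↔ (y = x) := eq_comm
    have e2 : (x = -y) ↔ (y = -x) := by rw [eq_neg_iff_add_eq_zero, eq_neg_iff_add_eq_zero, add_comm]
    simp only [e1, e2]
  have e2 : ∑ y, W x y * ((1 / 2) * vec σ z y) = 1 / 2 * (W x z + σ * W x (-z)) := by
    rw [← sum_vec (fun y => W x y) z, mul_sum]
    exact sum_congr rfl fun y _ => by rw [hsw z y]; ring
  rw [e1, e2]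
  have := hW (-x) z
  rw [neg_neg] at this
  rw [← this]

lemma PP_flip_PI (h2 : (2 : F) ≠ 0) (hK : Trans K σ) (u : ℂ) :
    PP1 K σ * (Matrix.of fun x y => if y = -x then u else 0 : Matrix F F ℂ) * PI1 K σ = (u * σ) • (1 : Matrix {x // x ∈ K} {x // x ∈ K} ℂ) := by
  have h1 : (Matrix.of fun x y => if y = -x then u else 0 : Matrix F F ℂ) * PI1 K σ = (u * σ) • PI1 K σ := by
    ext x h
    rw [Matrix.mul_apply, Matrix.smul_apply]
    simp only [Matrix.of_apply, ite_mul, zero_mul, sum_ite_eq', mem_univ, if_true]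
    unfold PI1
    rw [vec_neg_left hK.sq, smul_eq_mul]; ring
  rw [Matrix.mul_assoc, h1, Matrix.mul_smul, PP_mul_PI h2 hK]

end parts

/-! ### Representations of `SL(2, ℤ)` -/

section reps

variable {p : ℕ} [Fact p.Prime]

/-- the part of sign `σ` of the Weil representation -/
noncomputable def weilPart (ψ : AddChar (ZMod p) ℂ) (hp : p ≠ 2) (hψ : ψ.IsPrimitive)
    {K : Finset (ZMod p)} {σ : ℂ} (h2 : (2 : ZMod p) ≠ 0) (hK : Trans K σ) :
    SL(2, ℤ) →* Matrix {x // x ∈ K} {x // x ∈ K} ℂ :=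
  restrictHom (weil ψ hp hψ) (PI1 K σ) (PP1 K σ) (PP_mul_PI h2 hK) (fun g => by
    apply comm_of h2 hK
    intro x y
    exact WK_neg_neg _ _ _ _ x y)

lemma weilPart_apply (ψ : AddChar (ZMod p) ℂ) (hp : p ≠ 2) (hψ : ψ.IsPrimitive)
    {K : Finset (ZMod p)} {σ : ℂ} (h2 : (2 : ZMod p) ≠ 0) (hK : Trans K σ) (g : SL(2, ℤ)) :
    weilPart ψ hp hψ h2 hK g = PP1 K σ * weil ψ hp hψ g * PI1 K σ := rfl

lemma weil_T (ψ : AddChar (ZMod p) ℂ) (hp : p ≠ 2) (hψ : ψ.IsPrimitive) :
    weil ψ hp hψ ModularGroup.T = Matrix.diagonal (fun x => ψ (x ^ 2)) := by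
  rw [← WK_T]
  have : ModularGroup.T.1 = !![1, 1; 0, 1] := ModularGroup.coe_T
  change WK ψ _ _ _ _ = _
  rw [this]
  simp

lemma weil_neg_one (ψ : AddChar (ZMod p) ℂ) (hp : p ≠ 2) (hψ : ψ.IsPrimitive) :
    weil ψ hp hψ (-1) = Matrix.of fun x y => if y = -x then qc (-1 : ZMod p) else 0 := by
  ext x y
  rw [Matrix.of_apply, ← WK_neg_one (ψ := ψ)]
  have : (-1 : SL(2, ℤ)).1 = -(1 : Matrix (Fin 2) (Fin 2) ℤ) := by
    rw [← Matrix.SpecialLinearGroup.coe_one, ← Matrix.SpecialLinearGroup.coe_neg]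
  change WK ψ _ _ _ _ x y = _
  rw [this]
  simp

lemma weil_gamma (ψ : AddChar (ZMod p) ℂ) (hp : p ≠ 2) (hψ : ψ.IsPrimitive) (g : SL(2, ℤ))
    (hg : g ∈ CongruenceSubgroup.Gamma p) : weil ψ hp hψ g = 1 := by
  rw [CongruenceSubgroup.Gamma_mem] at hg
  obtain ⟨h1, h2, h3, h4⟩ := hg
  rw [← WK_one (ψ := ψ)]
  change WK ψ _ _ _ _ = _
  rw [h1, h2, h3, h4]

end reps

end Pool.Agent.N992
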